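import Pool.Agent.MP_a4a062_nt.K60.Defs

/-! h60k: rows CNT and PRS. -/

set_option autoImplicit false

open Polynomial Finset Filter
open scoped Classical BigOperators

noncomputable section
namespace Pool.Agent.K60
open Pool.Agent.H4O

variable {k : Type} [Field k] [Fintype k]

omit [Fintype k] in
theorem cnt_deg {B : k[X]} (hB : B ≠ 0) (S : Finset k[X])
    (hS : ∀ p ∈ S, p.Monic ∧ Irreducible p ∧ p ∣ B) : ∑ p ∈ S, p.natDegree ≤ B.natDegree := by
  have hd : ∏ p ∈ S, p ∣ B := by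
    refine Finset.prod_dvd_of_coprime (fun p hp r hr hne => ?_) fun p hp => (hS p hp).2.2
    exact (hS p hp).2.1.coprime_iff_not_dvd.2 fun hdv => hne (eq_of_monic_of_associated
      (hS p hp).1 (hS r hr).1 ((hS p hp).2.1.associated_of_dvd (hS r hr).2.1 hdv))
  have h1 := natDegree_le_of_dvd hd hB
  rwa [natDegree_prod_of_monic _ _ fun p hp => (hS p hp).1] at h1

theorem prs_row : PRS_s k := by
  intro e
  rcases Nat.eq_zero_or_pos e with rfl | he
  · simp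
  have h1 : 1 < Fintype.card k := Fintype.one_lt_card
  have h2 := cnt_deg (FiniteField.X_pow_card_pow_sub_X_ne_zero k he.ne' h1) (prs k e)
    fun p hp => ⟨(mem_prs.1 hp).1, (mem_prs.1 hp).2.1, by
      rw [← Nat.card_eq_fintype_card]
      exact (mem_prs.1 hp).2.1.natDegree_dvd_iff_dvd_X_pow_card_pow_sub_X.1
        (dvd_of_eq (mem_prs.1 hp).2.2)⟩
  rw [FiniteField.X_pow_card_pow_sub_X_natDegree_eq k he.ne' h1,
    sum_congr rfl fun p hp => (mem_prs.1 hp).2.2, sum_const, smul_eq_mul, mul_comm] at h2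
  unfold qq
  exact_mod_cast h2

omit [Fintype k] in
theorem cnt_pow {A N H lo K : ℕ} {D : Finset k[X]} {B : k[X]} (hD : ∀ d ∈ D, Fam A N H lo d)
    (hB : B ≠ 0) (hK : B.natDegree ≤ K * H) (hH : 0 < H) : #{d ∈ D | d ∣ B} ≤ 2 ^ K := by
  obtain ⟨S, hS⟩ : ∃ S : Finset k[X], ∀ p, p ∈ S ↔
      (Irreducible p ∧ p.Monic ∧ p ∣ B) ∧ H ≤ p.natDegree :=
    ⟨{p ∈ (UniqueFactorizationMonoid.normalizedFactors B).toFinset | H ≤ p.natDegree}, fun p => by
      rw [mem_filter, Multiset.mem_toFinset, Polynomial.mem_normalizedFactors_iff hB]⟩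
  have h1 := cnt_deg hB S fun p hp =>
    ⟨((hS p).1 hp).1.2.1, ((hS p).1 hp).1.1, ((hS p).1 hp).1.2.2⟩
  have h2 := card_nsmul_le_sum S _ H fun p hp => ((hS p).1 hp).2
  rw [smul_eq_mul] at h2
  have h3 : #S ≤ K := Nat.le_of_mul_le_mul_right (h2.trans (h1.trans hK)) hH
  have h4 : {d ∈ D | d ∣ B} ⊆ S.powerset.image fun T => ∏ p ∈ T, p := fun d hd => by
    obtain ⟨d1, d2⟩ := mem_filter.1 hd
    obtain ⟨f1, f2, -, -, f5, -⟩ := hD d d1
    obtain ⟨T, hT, hP⟩ := ari_fac f1 f2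
    refine mem_image.2 ⟨T, mem_powerset.2 fun p hp => (hS p).2
      ⟨⟨(hT p hp).2.1, (hT p hp).1, (hT p hp).2.2.trans d2⟩, ?_⟩, hP⟩
    have := (f5 p (hT p hp).2.1 (hT p hp).2.2).1
    omega
  refine (card_le_card h4).trans (card_image_le.trans ?_)
  rw [card_powerset]
  exact Nat.pow_le_pow_right two_pos h3

omit [Fintype k] in
theorem cnt_cof {A N H lo : ℕ} {d c : k[X]} (hd : Fam A N H lo d) (hB : d * c ≠ 0)
    (h1 : (d * c).natDegree ≤ A + N + H) : c.natDegree < N + 4 * H := by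
  rw [natDegree_mul (left_ne_zero_of_mul hB) (right_ne_zero_of_mul hB)] at h1
  have := hd.2.2.1
  omega

omit [Fintype k] in
theorem cnt_big {A N H lo : ℕ} {d c : k[X]} (hd : Fam A N H lo d) (hB : d * c ≠ 0)
    (h1 : (d * c).natDegree ≤ A + N + H) (h2 : N + 4 * H ≤ 2 * lo) (hG : ¬ Good2 N H (d * c)) :
    ∃ π : k[X], π.Monic ∧ Irreducible π ∧ π ∣ d * c ∧ N < π.natDegree + H := by
  have hc := cnt_cof hd hB h1
  obtain ⟨-, f2, -, -, -, τ, τ', t1, t2, t3, t4, t5, t6, t7, t8, t9⟩ := hd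
  obtain ⟨σ, s1, s2, ⟨d', rfl⟩, s4, s5⟩ : ∃ σ : k[X], σ.Monic ∧ Irreducible σ ∧ σ ∣ d ∧
      lo ≤ σ.natDegree ∧ ¬ σ ∣ c := by
    by_contra hn
    have a1 : τ ∣ c := by_contra fun h => hn ⟨τ, t1, t2, t6, t8, h⟩
    have a2 : τ' ∣ c := by_contra fun h => hn ⟨τ', t3, t4, t7, t9, h⟩
    have := cnt_deg (right_ne_zero_of_mul hB) {τ, τ'} fun p hp => by
      rcases mem_insert.1 hp with rfl | hp
      · exact ⟨t1, t2, a1⟩
      · rw [mem_singleton.1 hp]; exact ⟨t3, t4, a2⟩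
    rw [sum_pair t5] at this
    omega
  by_contra hn
  refine hG ⟨σ, d' * c, mul_assoc _ _ _, s1, s2, fun h => ?_, by omega, fun ϖ w1 w2 => ?_⟩
  · rcases s2.prime.dvd_or_dvd h with h | h
    · exact s2.not_isUnit (f2 σ (mul_dvd_mul_left σ h))
    · exact s5 h
  · by_contra hlt
    have a := associated_normalize ϖ
    refine hn ⟨normalize ϖ, monic_normalize w1.ne_zero, a.irreducible w1, a.symm.dvd.trans w2, ?_⟩
    rw [← natDegree_eq_of_degree_eq (degree_eq_degree_of_associated a)]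
    omega

theorem cnt_row : CNT_s k := by
  intro A N H lo K D B hD hB h1 hK h2 hH
  split_ifs with hG
  · exact (cnt_pow hD hB hK hH).trans (Nat.le_add_right _ _)
  rw [zero_add]
  rcases ({d ∈ D | d ∣ B}).eq_empty_or_nonempty with he | ⟨d0, hd0⟩
  · rw [he]; exact Nat.zero_le _
  obtain ⟨m0, c0, e0⟩ := mem_filter.1 hd0
  obtain ⟨π, p1, p2, p3, p4⟩ := cnt_big (hD d0 m0) (e0 ▸ hB) (e0 ▸ h1) h2 (e0 ▸ hG)
  rw [← e0] at p3
  have key : ∀ d ∈ {d ∈ D | d ∣ B}, ∃ r : k[X], B = π * (d * r) ∧ r ≠ 0 ∧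
      r.natDegree + π.natDegree < N + 4 * H := fun d hd => by
    obtain ⟨m, c, e⟩ := mem_filter.1 hd
    have hc := cnt_cof (hD d m) (e ▸ hB) (e ▸ h1)
    have c1 : c ≠ 0 := right_ne_zero_of_mul (e ▸ hB)
    rcases p2.prime.dvd_or_dvd (e ▸ p3) with h | ⟨r, rfl⟩
    · have := ((hD d m).2.2.2.2.1 π p2 h).2
      omega
    · rw [natDegree_mul (left_ne_zero_of_mul c1) (right_ne_zero_of_mul c1)] at hc
      exact ⟨r, by rw [e]; ring, right_ne_zero_of_mul c1, by omega⟩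
  have dv : ∀ d ∈ {d ∈ D | d ∣ B}, ∀ d' ∈ {d ∈ D | d ∣ B}, d ∣ d' := fun d hd d' hd' => by
    obtain ⟨r, e, -, -⟩ := key d hd
    obtain ⟨r', e', r1, r2⟩ := key d' hd'
    have e2 : d * r = d' * r' := mul_left_cancel₀ p1.ne_zero (e.symm.trans e')
    refine (isCoprime_of_irreducible_dvd (fun h => r1 h.2) fun z z1 z2 z3 => ?_ :
      IsCoprime d r').dvd_of_dvd_mul_right ⟨r, e2.symm⟩
    have a1 := ((hD d (mem_filter.1 hd).1).2.2.2.2.1 z z1 z2).1
    have a2 := natDegree_le_of_dvd z3 r1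
    omega
  refine (card_le_one.2 fun d hd d' hd' => eq_of_monic_of_associated
    (hD d (mem_filter.1 hd).1).1 (hD d' (mem_filter.1 hd').1).1
    (associated_of_dvd_dvd (dv d hd d' hd') (dv d' hd' d hd))).trans (card_pos.2 ⟨π, ?_⟩)
  obtain ⟨r, -, -, r2⟩ := key d0 hd0
  have := p2.natDegree_pos
  exact mem_filter.2 ⟨mem_biUnion.2 ⟨π.natDegree, mem_Ioc.2 ⟨by omega, by omega⟩,
    mem_prs.2 ⟨p1, p2, rfl⟩⟩, p3⟩

end Pool.Agent.K60

end
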