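import Pool.Agent.MP_a4a062_nt.K60.Defs4

/-! h60k row DEC: splitting off the primes of the range -/

set_option autoImplicit false

open Polynomial Finset Filter UniqueFactorizationMonoid
open scoped Classical BigOperators

noncomputable section
namespace Pool.Agent.K60
open Pool.Agent.H4O

variable {k : Type} [Field k] [Fintype k]

theorem dec_mi {D l : ℕ} {Q : k[X]} (h : Q ∈ prI k D l) : Q.Monic ∧ Irreducible Q := by
  obtain ⟨i, -, hi⟩ := mem_biUnion.1 h
  exact ⟨(mem_prs.1 hi).1, (mem_prs.1 hi).2.1⟩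

theorem dec_row : DEC_s k := by
  intro D l
  have mon : ∀ v : k[X], ∀ ρ ∈ normalizedFactors v, Irreducible ρ ∧ ρ.Monic ∧ ρ ∣ v :=
    fun v ρ h => (Polynomial.mem_normalizedFactors_iff (by rintro rfl; simp at h)).1 h
  refine ⟨fun v => ((normalizedFactors v).filter (· ∉ prI k D l)).prod, fun v => ?_,
    fun P hP f hf hsq => ?_⟩
  · have := monic_multiset_prod_of_monic ((normalizedFactors v).filter (· ∉ prI k D l)) id
      fun ρ h => (mon v ρ (Multiset.mem_filter.1 h).1).2.1
    simpa using this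
  have hP' : ∀ i, P i ∈ prI k D l := fun i =>
    mem_biUnion.2 ⟨i, mem_univ i, Fintype.mem_piFinset.1 hP i⟩
  have am : (∏ i, P i).Monic := monic_prod_of_monic _ _ fun i _ => (dec_mi (hP' i)).1
  have e1 : (normalizedFactors ((∏ i, P i) * f)).filter (· ∉ prI k D l) =
      (normalizedFactors f).filter (· ∉ prI k D l) := by
    rw [normalizedFactors_mul am.ne_zero hf.ne_zero, Multiset.filter_add,
      Multiset.filter_eq_nil.2, zero_add]
    intro ρ h hn
    obtain ⟨r1, r2, r3⟩ := mon _ ρ h
    obtain ⟨i, -, hi⟩ := (r1.prime.dvd_finsetProd_iff _).1 r3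
    exact hn (H4Lev.mi_eq ⟨r2, r1⟩ (dec_mi (hP' i)) hi ▸ hP' i)
  have e2 : (normalizedFactors f).filter (· ∈ prI k D l) =
      ((prI k D l).filter (· ∣ f)).val := by
    refine (Multiset.Nodup.ext ?_ (Finset.nodup _)).2 fun Q => ?_
    · rw [Multiset.nodup_iff_count_le_one]
      intro Q
      by_cases hQ : Q ∈ prI k D l
      · rw [Multiset.count_filter_of_pos hQ]
        by_contra hn
        refine hsq Q hQ ?_
        have h1 : Multiset.replicate 2 Q ≤ normalizedFactors f :=
          Multiset.le_count_iff_replicate_le.1 (by omega)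
        have h2 := Multiset.prod_dvd_prod_of_le h1
        rwa [Multiset.prod_replicate, prod_normalizedFactors_eq hf.ne_zero,
          hf.normalize_eq_self] at h2
      · rw [Multiset.count_filter_of_neg hQ]
        exact Nat.zero_le _
    · rw [Multiset.mem_filter, Finset.mem_val, mem_filter,
        Polynomial.mem_normalizedFactors_iff hf.ne_zero]
      exact ⟨fun h => ⟨h.2, h.1.2.2⟩, fun h => ⟨⟨(dec_mi h.1).2, (dec_mi h.1).1, h.2⟩, h.1⟩⟩
  have e3 : radI D l f = ((normalizedFactors f).filter (· ∈ prI k D l)).prod := by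
    rw [e2, radI, Finset.prod_val]
    rfl
  beta_reduce
  rw [e1]
  refine ⟨?_, ?_⟩
  · rw [e3, Multiset.prod_filter_mul_prod_filter_not, prod_normalizedFactors_eq hf.ne_zero,
      hf.normalize_eq_self]
  · refine IsCoprime.prod_left fun Q hQ => ?_
    have h1 := dec_mi (mem_filter.1 hQ).1
    refine h1.2.coprime_iff_not_dvd.2 fun h => ?_
    obtain ⟨ρ, r1, r2⟩ := h1.2.prime.exists_mem_multiset_dvd h
    obtain ⟨r3, r4⟩ := Multiset.mem_filter.1 r1
    exact r4 (H4Lev.mi_eq h1 ⟨(mon _ ρ r3).2.1, (mon _ ρ r3).1⟩ r2 ▸ (mem_filter.1 hQ).1)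

end Pool.Agent.K60

end
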