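import Pool.Agent.MP_a4a062_nt.H4O.B
import Pool.Agent.MP_a4a062_nt.H4O.C

/-! h60k: definitions and row statements (Chowla over `k[X]`, odd characteristic, every degree). -/

set_option autoImplicit false

open Polynomial Finset Filter
open scoped Classical BigOperators

noncomputable section
namespace Pool.Agent.K60
open Pool.Agent.H4O

section
variable {k : Type} [Field k]

/-- All primes have degree at most `N - H`, and one simple prime has degree at least `N / 2`. -/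
def Good2 (N H : ℕ) (B : k[X]) : Prop := ∃ π C : k[X], B = π * C ∧ π.Monic ∧ Irreducible π ∧
  ¬ π ∣ C ∧ N ≤ 2 * π.natDegree ∧ ∀ ϖ : k[X], Irreducible ϖ → ϖ ∣ B → ϖ.natDegree + H ≤ N

/-- The members of the family of divisors used in the density estimate (`A` stands for `P * N`). -/
def Fam (A N H lo : ℕ) (d : k[X]) : Prop := d.Monic ∧ Squarefree d ∧ A < d.natDegree + 3 * H ∧
  d.natDegree + 2 * H ≤ A ∧
  (∀ ϖ : k[X], Irreducible ϖ → ϖ ∣ d → 5 * H < ϖ.natDegree ∧ ϖ.natDegree + H ≤ N) ∧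
  ∃ τ τ' : k[X], τ.Monic ∧ Irreducible τ ∧ τ'.Monic ∧ Irreducible τ' ∧ τ ≠ τ' ∧ τ ∣ d ∧ τ' ∣ d ∧
    lo ≤ τ.natDegree ∧ lo ≤ τ'.natDegree

variable [Fintype k]

/-- A weight that is constant on lines and lives on fully smooth lines. -/
def Wt2 (p n γ L : ℕ) (y : k[X]) (W : k[X] → ℝ) : Prop :=
  (∀ f ∈ mon k n, ∀ s ∈ box k (n / p - γ), W (f + y ^ (p - 1) * s ^ p) = W f) ∧
    ∀ f ∈ mon k n, W f ≠ 0 → Good2 (n / p) (n / p / L) (derivative (f * y))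

end

section
variable (k : Type) [Field k] [Fintype k]

/-- Tuples of monic primes of degrees `D, D + 1, ..., D + l - 1`. -/
def tup (D l : ℕ) : Finset (Fin l → k[X]) := Fintype.piFinset fun i => prs k (D + i)

/-- The common degree of the products of the tuples. -/
def dg (D l : ℕ) : ℕ := ∑ i : Fin l, (D + (i : ℕ))

/-- The mean number of primes with degree in the range. -/
def Lam (D l : ℕ) : ℝ := ∑ i : Fin l, (#(prs k (D + i)) : ℝ) / qq k ^ (D + (i : ℕ))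

variable {k}

/-- The number of tuples whose product divides `u`. -/
def tau (D l : ℕ) (u : k[X]) : ℕ := #{P ∈ tup k D l | ∏ i, P i ∣ u}

/-- The number of monic primes of degree `e` dividing `u`. -/
def om1 (e : ℕ) (u : k[X]) : ℕ := #{Q ∈ prs k e | Q ∣ u}

/-- The number of monic primes with degree in the range dividing `u`. -/
def om (D l : ℕ) (u : k[X]) : ℕ := ∑ i : Fin l, om1 (D + i) u

variable (k)

/-- row PRS -/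
def PRS_s : Prop := ∀ e : ℕ, (e : ℝ) * #(prs k e) ≤ qq k ^ e

/-- row FAM (paper 1, the family `D` and its weight) -/
def FAM_s : Prop := ∀ P l N G H lo : ℕ, 2 ≤ P → 4 * (P + 1) ^ 2 * G ≤ N → N ≤ 8 * (P + 1) ^ 2 * G →
  lo + 2 * (P + 1) * G = N → 5 * 2 ^ l * H ≤ G → 0 < H →
  ∃ D : Finset k[X], (∀ d ∈ D, Fam (P * N) N H lo d) ∧
    (1 / (16 * ((P : ℝ) + 1) ^ 2)) ^ P * ((l : ℝ) / 4) * ((H : ℝ) / (2 * N)) ≤
      ∑ d ∈ D, 1 / qq k ^ d.natDegree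

/-- row CNT (paper 1, the pointwise count) -/
def CNT_s : Prop := ∀ (A N H lo K : ℕ) (D : Finset k[X]) (B : k[X]), (∀ d ∈ D, Fam A N H lo d) →
  B ≠ 0 → B.natDegree ≤ A + N + H → B.natDegree ≤ K * H → N + 4 * H ≤ 2 * lo → 0 < H →
  #{d ∈ D | d ∣ B} ≤ (if Good2 N H B then 2 ^ K else 0) +
    #{π ∈ (Ioc (N - H) (N + 4 * H)).biUnion (prs k) | π ∣ B}

/-- row POS2 (paper 1) -/
def POS2_s (p : ℕ) : Prop := ∃ (L : ℕ) (δ : ℝ), 0 < L ∧ 0 < δ ∧ ∀ γ c : ℕ, ∀ᶠ n in atTop,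
  ∀ y D f : k[X], y ≠ 0 → y.natDegree ≤ γ → D ≠ 0 → D.natDegree ≤ γ → f ∈ mon k n →
    δ ≤ 𝔼 v ∈ box k (p * (n / p - c)),
      (if Good2 (n / p) (n / p / L) (derivative ((f + D ^ p * v) * y)) then (1 : ℝ) else 0)

/-- row WT2 (paper 2) -/
def WT2_s (p : ℕ) : Prop := ∃ (L : ℕ) (c : ℝ), 0 < L ∧ 0 < c ∧ ∀ (Z : k[X]) (C : ℕ) (ε : ℝ),
  Z.Monic → 0 < ε → ∃ (M γ : ℕ) (y : Fin M → k[X]), 0 < M ∧
    (∀ j, (y j).Monic ∧ (y j).natDegree ≤ γ ∧ Z ∣ y j ∧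
      ∀ t ∈ box k C, t ≠ 0 → derivative (t * y j) ≠ 0) ∧
    ∀ᶠ n in atTop, ∃ W : Fin M → k[X] → ℝ, (∀ j f, |W j f| ≤ 1) ∧ (∀ j, Wt2 p n γ L (y j) (W j)) ∧
      𝔼 f ∈ mon k n, |1 - c * (∑ j, W j f) / M| ≤ ε

/-- row LB2 (paper 3, differencing with arbitrary periodic factors) -/
def LB2_s (p : ℕ) : Prop := ∀ (ι : Type) [Fintype ι] (π y f : k[X]) (N T h : ℕ)
  (F : ι → k[X] → ℝ) (Z : ι → k[X]), π.Monic → Irreducible π → ¬ π ∣ y → (∀ i s, |F i s| ≤ 1) →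
  (∀ i s t, F i (s + Z i * t) = F i s) → (∀ i, ¬ π ∣ Z i) → (∀ i, (Z i).natDegree ≤ T) →
  T + h ≤ N → 2 * h ≤ π.natDegree → π.natDegree + 2 * h ≤ 2 * N →
  |𝔼 s ∈ box k N, (∏ i, F i s) * H48P.jac π (f + y ^ (p - 1) * s ^ p)| ^ 2 ^ Fintype.card ι ≤
    6 * 2 ^ Fintype.card ι / qq k ^ h

/-- row LINE2 (paper 3, one line) -/
def LINE2_s (p : ℕ) : Prop := ∀ (L γ C L₀ : ℕ) (ε : ℝ), 0 < L → 0 < ε → ∀ᶠ n in atTop,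
  ∀ (y x : k[X]) (S : Finset k[X]), y.Monic → y.natDegree ≤ γ →
    (∀ t ∈ box k C, t ≠ 0 → derivative (t * y) ≠ 0) → x ∈ mon k n → S ⊆ box k C → S.Nonempty →
    (∀ w ∈ S, Good2 (n / p) (n / p / L) (derivative ((x + w) * y))) →
    |𝔼 s ∈ box k (n / p - γ), ∏ w ∈ S, lam (x + w + y ^ (p - 1) * s ^ p)| ≤
      ε + 2 * 𝔼 s ∈ box k (n / p - γ),
        ∑ w ∈ box k C, if Big L₀ (x + w + y ^ (p - 1) * s ^ p) then (1 : ℝ) else 0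

/-- row IND (paper 3) -/
def IND_s (p : ℕ) : Prop := ∀ (L γ C : ℕ) (ε : ℝ), 0 < L → 0 < ε → ∀ᶠ n in atTop,
  ∀ y : k[X], y.Monic → y.natDegree ≤ γ → (∀ t ∈ box k C, t ≠ 0 → derivative (t * y) ≠ 0) →
    ∃ η : k[X] → ℝ, (∀ x, 0 ≤ η x) ∧ 𝔼 x ∈ mon k n, η x ≤ ε ∧
      ∀ x ∈ mon k n, ∀ S : Finset k[X], S ⊆ box k C → S.Nonempty →
        (∀ w ∈ S, Good2 (n / p) (n / p / L) (derivative ((x + w) * y))) →
        |𝔼 s ∈ box k (n / p - γ), ∏ w ∈ S, lam (x + w + y ^ (p - 1) * s ^ p)| ≤ η x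

/-- row TAU (paper 4, pointwise) -/
def TAU_s : Prop := ∀ (D l : ℕ) (P : Fin l → k[X]) (f : k[X]), P ∈ tup k D l →
  tau D l ((∏ i, P i) * f) ≤ 2 ^ om D l f ∧
    ((∀ i, ¬ P i ∣ f) → (∀ i : Fin l, om1 (D + i) f ≤ 1) → tau D l ((∏ i, P i) * f) = 2 ^ om D l f)

/-- row VAR (paper 4, variance) -/
def VAR_s : Prop := ∀ D l n : ℕ, 2 * (D + l) ≤ n →
  𝔼 f ∈ mon k n, ((om D l f : ℝ) - Lam k D l) ^ 2 ≤ Lam k D l

/-- row BAD (paper 4, exceptional set) -/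
def BAD_s : Prop := ∀ (D l n : ℕ) (P : Fin l → k[X]), 0 < D → 2 * (D + l) ≤ n → P ∈ tup k D l →
  𝔼 f ∈ mon k n, (if (∀ i, ¬ P i ∣ f) ∧ (∀ i : Fin l, om1 (D + i) f ≤ 1) then (0 : ℝ) else 1) ≤
    4 / D

/-- row TYP (paper 4) -/
def TYP_s : Prop := ∀ (K R : ℕ) (η : ℝ), 0 < η → ∃ D l m : ℕ, 0 < D ∧ ∀ᶠ n in atTop,
  ∀ P ∈ tup k D l, 𝔼 f ∈ mon k n, (if 2 ^ (K * m + R) ≤ tau D l ((∏ i, P i) * f) ∧
    tau D l ((∏ i, P i) * f) ≤ 2 ^ ((K + 1) * m) then (0 : ℝ) else 1) ≤ η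

end

/-- row COL (paper 5, a good colouring) -/
def COL_s : Prop := ∀ (ι V E : Type) [Fintype ι] [Fintype V] (Ed : Finset E) (w : E → V)
  (v : ι → E → V) (r : ℕ), 0 < r →
  (∀ e ∈ Ed, ∀ e' ∈ Ed, e ≠ e' → w e = w e' → ∀ i, v i e ≠ v i e') →
  (∀ e ∈ Ed, #{e' ∈ Ed | w e' = w e} ≤ r ^ Fintype.card ι) →
  ∃ χ : ι → V → Fin r,
    #{z ∈ Ed ×ˢ Ed | w z.1 = w z.2 ∧ ∀ i, χ i (v i z.1) = χ i (v i z.2)} ≤ 2 * #Ed

/-- row EXP (paper 5, one class) -/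
def EXP_s : Prop := ∀ (ι V E Ω : Type) [Fintype ι] [Fintype V] (Ed : Finset E) (T : Finset Ω)
  (w : E → V) (v : ι → E → V) (φ : E → ℝ) (ω : V → ℝ) (σ : Ω → V → ℝ) (A : Ω → ι → V → ℝ)
  (θ η : ℝ), T.Nonempty → 0 < θ → 0 ≤ η → (∀ e, |φ e| ≤ 1) → (∀ x, |ω x| ≤ 1) →
  (∀ s x, σ s x = 1 ∨ σ s x = -1) → (∀ s i x, A s i x = 1 ∨ A s i x = -1) →
  (∀ S : Finset V, S.Nonempty → (∀ x ∈ S, ω x ≠ 0) → |𝔼 s ∈ T, ∏ x ∈ S, σ s x| ≤ η) →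
  θ * 𝔼 s ∈ T, ∑ e ∈ Ed, φ e * ω (w e) * σ s (w e) * ∏ i, A s i (v i e) ≤
    (∑ i, (#(Ed.image (v i)) : ℝ)) + θ ^ 2 / 2 * #{z ∈ Ed ×ˢ Ed | w z.1 = w z.2} + 1 +
      η * Real.exp (θ * #Ed)

/-- row ABS (paper 5) -/
def ABS_s : Prop := ∀ (ι V E Ω : Type) [Fintype ι] [Fintype V] (Ed : Finset E) (T : Finset Ω)
  (w : E → V) (v : ι → E → V) (φ : E → ℝ) (ω : V → ℝ) (σ : Ω → V → ℝ) (A : Ω → ι → V → ℝ)
  (θ η U : ℝ) (r K : ℕ), Fintype.card ι = K + 1 → 0 < r →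
  (∀ e ∈ Ed, ∀ e' ∈ Ed, e ≠ e' → w e = w e' → ∀ i, v i e ≠ v i e') →
  (∀ e ∈ Ed, #{e' ∈ Ed | w e' = w e} ≤ r ^ (K + 1)) → (∀ i, (#(Ed.image (v i)) : ℝ) ≤ U) →
  T.Nonempty → 0 < θ → 0 ≤ η → (∀ e, |φ e| ≤ 1) → (∀ x, |ω x| ≤ 1) →
  (∀ s x, σ s x = 1 ∨ σ s x = -1) → (∀ s i x, A s i x = 1 ∨ A s i x = -1) →
  (∀ S : Finset V, S.Nonempty → (∀ x ∈ S, ω x ≠ 0) → |𝔼 s ∈ T, ∏ x ∈ S, σ s x| ≤ η) →
  θ * 𝔼 s ∈ T, ∑ e ∈ Ed, φ e * ω (w e) * σ s (w e) * ∏ i, A s i (v i e) ≤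
    (K + 1) * (r : ℝ) ^ K * U + (r : ℝ) ^ (K + 1) + θ ^ 2 * #Ed +
      η * (r : ℝ) ^ (K + 1) * Real.exp (θ * #Ed)

section
variable (k : Type) [Field k] [Fintype k]

/-- row LOC (paper 6, one window) -/
def LOC_s : Prop := ∀ (ι : Type) [Fintype ι] (K D l m R C : ℕ) (g : ι → k[X]) (T : Finset k[X])
  (x : k[X]) (φ : (Fin l → k[X]) → k[X] → ℝ) (ω : k[X] → ℝ) (σ : k[X] → k[X] → ℝ)
  (A : k[X] → ι → k[X] → ℝ) (θ η : ℝ), Fintype.card ι = K + 1 → 0 < D → (∀ i, g i ≠ 0) →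
  (∀ i, (g i).natDegree + dg D l < C) → T.Nonempty → 0 < θ → 0 ≤ η → (∀ P w, |φ P w| ≤ 1) →
  (∀ P w, φ P w ≠ 0 → ∏ i, P i ∣ x + w ∧ tau D l (x + w) ≤ 2 ^ ((K + 1) * m) ∧
    ∀ i, 2 ^ (K * m + R) ≤ tau D l (x + w + (∏ i, P i) * g i)) →
  (∀ w, |ω w| ≤ 1) → (∀ s w, σ s w = 1 ∨ σ s w = -1) → (∀ s i w, A s i w = 1 ∨ A s i w = -1) →
  (∀ S : Finset k[X], S ⊆ box k C → S.Nonempty → (∀ w ∈ S, ω w ≠ 0) →
    |𝔼 s ∈ T, ∏ w ∈ S, σ s w| ≤ η) →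
  θ * (qq k ^ dg D l * 𝔼 s ∈ T, 𝔼 P ∈ tup k D l, 𝔼 w ∈ box k C,
      φ P w * ω w * σ s w * ∏ i, A s i (w + (∏ i, P i) * g i)) ≤
    (K + 1) / 2 ^ R + θ ^ 2 + 2 ^ ((K + 1) * m) * qq k ^ dg D l / qq k ^ C *
      (1 + η * Real.exp (θ * (#(tup k D l) * qq k ^ C)))

/-- the target, core form -/
def CORE_s : Prop := ∀ (ι : Type) [Fintype ι] [Nonempty ι] (g : ι → k[X]) (M : k[X]) (ε : ℝ),
  (∀ i, g i ≠ 0) → M.Monic → 0 < ε → ∀ᶠ n in atTop, ∀ (a : k[X]) (G : ι → k[X] → ℝ),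
    (∀ i u, G i u = 1 ∨ G i u = -1) →
    (∀ i u v, u.Monic → v.Monic → G i (u * v) = G i u * G i v) →
    |𝔼 f ∈ mon k n, (if M ∣ f - a then lam f * ∏ i, G i (f + g i) else 0)| ≤ ε

end

end Pool.Agent.K60

end
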