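import Pool.Agent.MP_a4a062_nt.K60.Defs

/-! h60k: row statements for the form that is uniform in the shifts. -/

set_option autoImplicit false

open Polynomial Finset Filter
open scoped Classical BigOperators

noncomputable section
namespace Pool.Agent.K60
open Pool.Agent.H4O

variable (k : Type) [Field k] [Fintype k]

/-- row WTU: as `WT2_s`, with many directions; a nonzero `t` kills at most one direction -/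
def WTU_s (p : ℕ) : Prop := ∃ (L : ℕ) (c : ℝ), 0 < L ∧ 0 < c ∧ ∀ (Z : k[X]) (J₀ : ℕ) (ε : ℝ),
  Z.Monic → 0 < ε → ∃ (M γ : ℕ) (y : Fin M → k[X]), J₀ < M ∧
    (∀ j, (y j).Monic ∧ (y j).natDegree ≤ γ ∧ Z ∣ y j) ∧
    (∀ t : k[X], t ≠ 0 → ∀ i j, derivative (t * y i) = 0 → derivative (t * y j) = 0 → i = j) ∧
    ∀ᶠ n in atTop, ∃ W : Fin M → k[X] → ℝ, (∀ j f, |W j f| ≤ 1) ∧ (∀ j, Wt2 p n γ L (y j) (W j)) ∧
      𝔼 f ∈ mon k n, |1 - c * (∑ j, W j f) / M| ≤ ε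

/-- row LINEU: one line, arbitrary shifts of degree `< n` without a common large prime -/
def LINEU_s (p : ℕ) : Prop := ∀ (L γ σ L₀ : ℕ) (ε : ℝ), 0 < L → 0 < ε → ∀ᶠ n in atTop,
  ∀ (y x : k[X]) (S : Finset k[X]), y.Monic → y.natDegree ≤ γ → x ∈ mon k n → S ⊆ box k n →
    #S ≤ σ → S.Nonempty → (∀ w ∈ S, Good2 (n / p) (n / p / L) (derivative ((x + w) * y))) →
    (∀ w ∈ S, ∀ w' ∈ S, w ≠ w' → ∀ π : k[X], Irreducible π → n / p ≤ 2 * π.natDegree →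
      π.natDegree ≤ n / p → π ∣ derivative ((x + w) * y) → ¬ π ∣ derivative ((x + w') * y)) →
    |𝔼 s ∈ box k (n / p - γ), ∏ w ∈ S, lam (x + w + y ^ (p - 1) * s ^ p)| ≤
      ε + 2 * 𝔼 s ∈ box k (n / p - γ),
        ∑ w ∈ S, if Big L₀ (x + w + y ^ (p - 1) * s ^ p) then (1 : ℝ) else 0

/-- row SEP: a common large prime with a fixed nonzero polynomial is rare -/
def SEP_s (p : ℕ) : Prop := ∀ (γ : ℕ) (ε : ℝ), 0 < ε → ∀ᶠ n in atTop, ∀ y E : k[X], y ≠ 0 →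
  y.natDegree ≤ γ → E ≠ 0 → E.natDegree ≤ n + γ →
    𝔼 x ∈ mon k n, (if ∃ π : k[X], Irreducible π ∧ n / p ≤ 2 * π.natDegree ∧ π.natDegree ≤ n / p ∧
      π ∣ derivative (x * y) ∧ π ∣ E then (1 : ℝ) else 0) ≤ ε

/-- row INDU -/
def INDU_s (p : ℕ) : Prop := ∀ (L γ σ : ℕ) (ε : ℝ), 0 < L → 0 < ε → ∀ᶠ n in atTop,
  ∀ (y : k[X]) (V : Finset k[X]), y.Monic → y.natDegree ≤ γ → V ⊆ box k n → #V ≤ σ →
    (∀ w ∈ V, ∀ w' ∈ V, w ≠ w' → derivative ((w - w') * y) ≠ 0) →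
    ∃ η : k[X] → ℝ, (∀ x, 0 ≤ η x) ∧ 𝔼 x ∈ mon k n, η x ≤ ε ∧
      ∀ x ∈ mon k n, ∀ S : Finset k[X], S ⊆ V → S.Nonempty →
        (∀ w ∈ S, Good2 (n / p) (n / p / L) (derivative ((x + w) * y))) →
        |𝔼 s ∈ box k (n / p - γ), ∏ w ∈ S, lam (x + w + y ^ (p - 1) * s ^ p)| ≤ η x

/-- row INTU: weights of mean one on whose support `lam` is jointly independent along shifts -/
def INTU_s : Prop := ∃ c : ℝ, 0 < c ∧ ∀ (Z : k[X]) (σ : ℕ) (ε η₀ : ℝ), Z.Monic → 0 < ε → 0 < η₀ →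
  ∃ J : ℕ, 0 < J ∧ ∀ᶠ n in atTop, ∀ V : Finset k[X], V ⊆ box k n → #V ≤ σ →
    ∃ (W : Fin J → k[X] → ℝ) (T : Finset k[X])
    (d : Fin J → k[X] → k[X]) (η : Fin J → k[X] → ℝ), T.Nonempty ∧ (∀ j f, |W j f| ≤ 1) ∧
    𝔼 f ∈ mon k n, |1 - c * (∑ j, W j f) / J| ≤ ε ∧
    (∀ j, ∀ s ∈ T, Z ∣ d j s ∧ (d j s).degree < n ∧ ∀ f ∈ mon k n, W j (f + d j s) = W j f) ∧
    (∀ j x, 0 ≤ η j x) ∧ (∀ j, 𝔼 x ∈ mon k n, η j x ≤ η₀) ∧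
    ∀ j, ∀ x ∈ mon k n, ∀ S : Finset k[X], S ⊆ V → S.Nonempty → (∀ w ∈ S, W j (x + w) ≠ 0) →
      |𝔼 s ∈ T, ∏ w ∈ S, lam (x + w + d j s)| ≤ η j x

/-- row LOCU: one window `V` -/
def LOCU_s : Prop := ∀ (ι : Type) [Fintype ι] (K D l m R C : ℕ) (g : ι → k[X]) (T V : Finset k[X])
  (x : k[X]) (φ : (Fin l → k[X]) → k[X] → ℝ) (ω : k[X] → ℝ) (σ : k[X] → k[X] → ℝ)
  (A : k[X] → ι → k[X] → ℝ) (θ η : ℝ), Fintype.card ι = K + 1 → 0 < D → (∀ i, g i ≠ 0) →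
  dg D l ≤ C → V.Nonempty → (∀ w ∈ V, ∀ t ∈ box k C, w + t ∈ V) →
  (∀ w ∈ V, ∀ P ∈ tup k D l, ∀ i, w + (∏ i, P i) * g i ∈ V) →
  T.Nonempty → 0 < θ → 0 ≤ η → (∀ P w, |φ P w| ≤ 1) →
  (∀ P w, φ P w ≠ 0 → ∏ i, P i ∣ x + w ∧ tau D l (x + w) ≤ 2 ^ ((K + 1) * m) ∧
    ∀ i, 2 ^ (K * m + R) ≤ tau D l (x + w + (∏ i, P i) * g i)) →
  (∀ w, |ω w| ≤ 1) → (∀ s w, σ s w = 1 ∨ σ s w = -1) → (∀ s i w, A s i w = 1 ∨ A s i w = -1) →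
  (∀ S : Finset k[X], S ⊆ V → S.Nonempty → (∀ w ∈ S, ω w ≠ 0) →
    |𝔼 s ∈ T, ∏ w ∈ S, σ s w| ≤ η) →
  θ * (qq k ^ dg D l * 𝔼 s ∈ T, 𝔼 P ∈ tup k D l, 𝔼 w ∈ V,
      φ P w * ω w * σ s w * ∏ i, A s i (w + (∏ i, P i) * g i)) ≤
    (K + 1) / 2 ^ R + θ ^ 2 + 2 ^ ((K + 1) * m) * qq k ^ dg D l / qq k ^ C *
      (1 + η * Real.exp (θ * (#(tup k D l) * #V)))

/-- the target, core form, uniform in the shifts -/
def COREU_s : Prop := ∀ (ι : Type) [Fintype ι] [Nonempty ι] (M : k[X]) (ε : ℝ),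
  M.Monic → 0 < ε → ∀ᶠ n : ℕ in atTop, ∀ (g : ι → k[X]) (a : k[X]) (G : ι → k[X] → ℝ),
    (∀ i, g i ≠ 0) → (∀ i, (g i).degree < n) → (∀ i u, G i u = 1 ∨ G i u = -1) →
    (∀ i u v, u.Monic → v.Monic → G i (u * v) = G i u * G i v) →
    |𝔼 f ∈ mon k n, (if M ∣ f - a then lam f * ∏ i, G i (f + g i) else 0)| ≤ ε

end Pool.Agent.K60

end
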