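import Pool.Agent.MP_a4a062_nt.K60.Defs3

/-! h60k: row statements for arbitrary bounded multiplicative functions. -/

set_option autoImplicit false

open Polynomial Finset Filter
open scoped Classical BigOperators

noncomputable section
namespace Pool.Agent.K60
open Pool.Agent.H4O

variable (k : Type) [Field k] [Fintype k]

/-- All monic primes with degree in the range. -/
def prI (D l : ℕ) : Finset k[X] := univ.biUnion fun i : Fin l => prs k (D + i)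

variable {k}

/-- The product of the monic primes in the range that divide `u`. -/
def radI (D l : ℕ) (u : k[X]) : k[X] := ∏ Q ∈ prI k D l with Q ∣ u, Q

variable (k)

/-- row DEC: the part of a polynomial that is free of primes in the range -/
def DEC_s : Prop := ∀ D l : ℕ, ∃ nI : k[X] → k[X], (∀ v, (nI v).Monic) ∧
  ∀ P ∈ tup k D l, ∀ f : k[X], f.Monic → (∀ Q ∈ prI k D l, ¬ Q ^ 2 ∣ f) →
    f = radI D l f * nI ((∏ i, P i) * f) ∧ IsCoprime (radI D l f) (nI ((∏ i, P i) * f))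

/-- row TYP2: `TYP_s` with a prescribed lower bound for `D` -/
def TYP2_s : Prop := ∀ (K R D₀ : ℕ) (η : ℝ), 0 < η → ∃ D l m : ℕ, D₀ < D ∧ ∀ᶠ n in atTop,
  ∀ P ∈ tup k D l, 𝔼 f ∈ mon k n, (if 2 ^ (K * m + R) ≤ tau D l ((∏ i, P i) * f) ∧
    tau D l ((∏ i, P i) * f) ≤ 2 ^ ((K + 1) * m) then (0 : ℝ) else 1) ≤ η

/-- row LOCV: `LOCU_s` for `|A| ≤ 1` -/
def LOCV_s : Prop := ∀ (ι : Type) [Fintype ι] (K D l m R C : ℕ) (g : ι → k[X]) (T V : Finset k[X])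
  (x : k[X]) (φ : (Fin l → k[X]) → k[X] → ℝ) (ω : k[X] → ℝ) (σ : k[X] → k[X] → ℝ)
  (A : k[X] → ι → k[X] → ℝ) (θ η : ℝ), Fintype.card ι = K + 1 → 0 < D → (∀ i, g i ≠ 0) →
  dg D l ≤ C → V.Nonempty → (∀ w ∈ V, ∀ t ∈ box k C, w + t ∈ V) →
  (∀ w ∈ V, ∀ P ∈ tup k D l, ∀ i, w + (∏ i, P i) * g i ∈ V) →
  T.Nonempty → 0 < θ → 0 ≤ η → (∀ P w, |φ P w| ≤ 1) →
  (∀ P w, φ P w ≠ 0 → ∏ i, P i ∣ x + w ∧ tau D l (x + w) ≤ 2 ^ ((K + 1) * m) ∧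
    ∀ i, 2 ^ (K * m + R) ≤ tau D l (x + w + (∏ i, P i) * g i)) →
  (∀ w, |ω w| ≤ 1) → (∀ s w, σ s w = 1 ∨ σ s w = -1) → (∀ s i w, |A s i w| ≤ 1) →
  (∀ S : Finset k[X], S ⊆ V → S.Nonempty → (∀ w ∈ S, ω w ≠ 0) →
    |𝔼 s ∈ T, ∏ w ∈ S, σ s w| ≤ η) →
  θ * (qq k ^ dg D l * 𝔼 s ∈ T, 𝔼 P ∈ tup k D l, 𝔼 w ∈ V,
      φ P w * ω w * σ s w * ∏ i, A s i (w + (∏ i, P i) * g i)) ≤
    (K + 1) / 2 ^ R + θ ^ 2 + 2 ^ ((K + 1) * m) * qq k ^ dg D l / qq k ^ C *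
      (1 + η * Real.exp (θ * (#(tup k D l) * #V)))

/-- row GEN: arbitrary bounded vertex functions and periodic edge coefficients -/
def GEN_s : Prop := ∀ (ι : Type) [Fintype ι] [Nonempty ι] (D₀ : ℕ) (ε : ℝ), 0 < ε →
  ∃ D l : ℕ, D₀ < D ∧ ∀ Z : k[X], Z.Monic → ∀ᶠ n : ℕ in atTop,
    ∀ (g : ι → k[X]) (β : (Fin l → k[X]) → k[X] → ℝ) (A : ι → k[X] → ℝ),
    (∀ i, g i ≠ 0) → (∀ i, (g i).degree < n) → (∀ P u, |β P u| ≤ 1) →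
    (∀ P ∈ tup k D l, ∀ u d, Z ∣ d → β P (u + d) = β P u) → (∀ i u, |A i u| ≤ 1) →
    𝔼 P ∈ tup k D l, 𝔼 f ∈ mon k n, β P ((∏ i, P i) * f) * lam ((∏ i, P i) * f) *
      ∏ i, A i ((∏ i, P i) * f + (∏ i, P i) * g i) ≤ ε

/-- row ELL: the core form for bounded complex multiplicative functions -/
def ELL_s : Prop := ∀ (ι : Type) [Fintype ι] [Nonempty ι] (M : k[X]) (ε : ℝ),
  M.Monic → 0 < ε → ∀ᶠ n : ℕ in atTop, ∀ (g : ι → k[X]) (a : k[X]) (G : ι → k[X] → ℂ),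
    (∀ i, g i ≠ 0) → (∀ i, (g i).degree < n) → (∀ i u, u.Monic → ‖G i u‖ ≤ 1) →
    (∀ i u v, u.Monic → v.Monic → IsCoprime u v → G i (u * v) = G i u * G i v) →
    ‖∑ f ∈ mon k n, (if M ∣ f - a then (lam f : ℂ) * ∏ i, G i (f + g i) else 0)‖ ≤ ε * qq k ^ n

end Pool.Agent.K60

end
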