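import Pool.Agent.MP_a4a062_nt.K60.Defs4

/-! h60k row ELL: bounded complex multiplicative functions. -/

set_option autoImplicit false

open Polynomial Finset Filter
open scoped Classical BigOperators

noncomputable section
namespace Pool.Agent.K60
open Pool.Agent.H4O

variable {k : Type} [Field k] [Fintype k]

theorem ell_mon {D l : ℕ} {P : Fin l → k[X]} (hP : P ∈ tup k D l) : (∏ i, P i).Monic :=
  monic_prod_of_monic _ _ fun i _ => (mem_prs.1 (Fintype.mem_piFinset.1 hP i)).1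

theorem ell_ne {D : ℕ} (hD : 0 < D) (l : ℕ) : (tup k D l).Nonempty := by
  refine Fintype.piFinset_nonempty.2 fun i => ?_
  have h := card_prs (k := k) (show 0 < D + (i : ℕ) by omega)
  have h0 : 0 < qq k ^ (D + (i : ℕ)) := pow_pos dec_q _
  rw [← Finset.card_pos]
  by_contra hc
  rw [show #(prs k (D + i)) = 0 by omega] at h
  simp only [Nat.cast_zero, mul_zero] at h
  linarith

theorem ell_prI {D l : ℕ} {Q : k[X]} (hQ : Q ∈ prI k D l) : Q.Monic ∧ D ≤ Q.natDegree := by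
  obtain ⟨i, -, hi⟩ := mem_biUnion.1 hQ
  obtain ⟨h1, -, h3⟩ := mem_prs.1 hi
  exact ⟨h1, by omega⟩

/-- The edge coefficient. -/
def ellC {ι : Type} [Fintype ι] (D l : ℕ) (M a : k[X]) (g : ι → k[X]) (G : ι → k[X] → ℂ)
    (b v : k[X]) : ℂ :=
  if b * M ∣ v - b * a ∧ ∀ i, ∀ Q ∈ prI k D l, ¬ b * Q ^ 2 ∣ v + b * g i then
    (lam b : ℂ) * ∏ i, G i (∏ Q ∈ prI k D l with b * Q ∣ v + b * g i, Q) else 0

theorem ell_norm {ι : Type} [Fintype ι] (D l : ℕ) (M a : k[X]) (g : ι → k[X]) {G : ι → k[X] → ℂ}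
    (hG : ∀ i u, u.Monic → ‖G i u‖ ≤ 1) (b v : k[X]) : ‖ellC D l M a g G b v‖ ≤ 1 := by
  unfold ellC
  split_ifs
  · rw [norm_mul, Complex.norm_real, Real.norm_eq_abs, abs_lam, one_mul, norm_prod]
    exact prod_le_one (fun _ _ => norm_nonneg _) fun i _ => hG i _
      (monic_prod_of_monic _ _ fun Q hQ => (ell_prI (mem_filter.1 hQ).1).1)
  · simp

theorem ell_per {ι : Type} [Fintype ι] (D l : ℕ) (M a : k[X]) (g : ι → k[X]) (G : ι → k[X] → ℂ)
    {b d : k[X]} (hd : M * b * (∏ Q ∈ prI k D l, Q) ^ 2 ∣ d) (v : k[X]) :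
    ellC D l M a g G b (v + d) = ellC D l M a g G b v := by
  have h1 : b * M ∣ d := dvd_trans ⟨(∏ Q ∈ prI k D l, Q) ^ 2, by ring⟩ hd
  have h2 : ∀ Q ∈ prI k D l, b * Q ^ 2 ∣ d := fun Q hQ => by
    refine dvd_trans ?_ hd
    rw [mul_assoc]
    exact (mul_dvd_mul_left b (pow_dvd_pow_of_dvd (dvd_prod_of_mem (fun Q => Q) hQ) 2)).mul_left M
  have e1 : b * M ∣ v + d - b * a ↔ b * M ∣ v - b * a := by
    rw [show v + d - b * a = v - b * a + d by ring, dvd_add_left h1]
  have e2 : ∀ i, ∀ Q ∈ prI k D l, (b * Q ^ 2 ∣ v + d + b * g i ↔ b * Q ^ 2 ∣ v + b * g i) := by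
    intro i Q hQ
    rw [add_right_comm, dvd_add_left (h2 Q hQ)]
  have e3 : ∀ i, ∀ Q ∈ prI k D l, (b * Q ∣ v + d + b * g i ↔ b * Q ∣ v + b * g i) := by
    intro i Q hQ
    rw [add_right_comm,
      dvd_add_left ((mul_dvd_mul_left b (dvd_pow_self Q two_ne_zero)).trans (h2 Q hQ))]
  unfold ellC
  refine if_congr (and_congr e1 (forall_congr' fun i => forall₂_congr fun Q hQ =>
    not_congr (e2 i Q hQ))) ?_ rfl
  refine congrArg _ (prod_congr rfl fun i _ => congrArg _ (prod_congr ?_ fun _ _ => rfl))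
  exact filter_congr fun Q hQ => e3 i Q hQ

/-- The two unit coefficients. -/
def ellE (b : Bool) : ℂ := if b then 1 else Complex.I

/-- Real and imaginary part. -/
def ellP (b : Bool) (z : ℂ) : ℝ := if b then z.re else z.im

theorem ell_expand {ι : Type} [Fintype ι] (w : ℂ) (t : ℝ) (z : ι → ℂ) :
    (w * t * ∏ i, z i).re =
      ∑ τ : ι → Bool, (w * ∏ i, ellE (τ i)).re * t * ∏ i, ellP (τ i) (z i) := by
  have h : ∀ i, z i = ∑ b : Bool, ellE b * (ellP b (z i) : ℂ) := fun i => by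
    rw [Fintype.sum_bool]
    simp only [ellE, ellP, if_true, Bool.false_eq_true, if_false, one_mul]
    rw [mul_comm, Complex.re_add_im]
  rw [prod_congr rfl fun i _ => h i, Fintype.prod_sum, mul_sum, Complex.re_sum]
  refine sum_congr rfl fun τ _ => ?_
  rw [prod_mul_distrib, ← Complex.ofReal_prod,
    show w * t * ((∏ i, ellE (τ i)) * ((∏ i, ellP (τ i) (z i) : ℝ) : ℂ)) =
      (w * ∏ i, ellE (τ i)) * ((t * ∏ i, ellP (τ i) (z i) : ℝ) : ℂ) by push_cast; ring,
    Complex.re_mul_ofReal, mul_assoc]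

theorem ell_pt {ι : Type} [Fintype ι] {D l n : ℕ} {M a b f : k[X]} {g : ι → k[X]}
    {G : ι → k[X] → ℂ} {nI : k[X] → k[X]} (hn : ∀ v, (nI v).Monic) (hb : b.Monic)
    (hdec : ∀ f : k[X], f.Monic → (∀ Q ∈ prI k D l, ¬ Q ^ 2 ∣ f) →
      f = radI D l f * nI (b * f) ∧ IsCoprime (radI D l f) (nI (b * f)))
    (hg : ∀ i, (g i).degree < n) (hG : ∀ i u, u.Monic → ‖G i u‖ ≤ 1)
    (hGm : ∀ i u v, u.Monic → v.Monic → IsCoprime u v → G i (u * v) = G i u * G i v)
    (hf : f ∈ mon k n) {u : ℂ} (hu : ‖u‖ = 1) :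
    (u * if M ∣ f - a then (lam f : ℂ) * ∏ i, G i (f + g i) else 0).re ≤
      (u * ellC D l M a g G b (b * f) * (lam (b * f) : ℝ) * ∏ i, G i (nI (b * f + b * g i))).re +
        ∑ i, if Big D (f + g i) then (1 : ℝ) else 0 := by
  have hm : ∀ i, (f + g i).Monic := fun i => (mem_mon.1 (wt_mon hf (hg i))).1
  have b0 := hb.ne_zero
  have hs : 0 ≤ ∑ i, if Big D (f + g i) then (1 : ℝ) else 0 :=
    sum_nonneg fun i _ => by split_ifs <;> norm_num
  have c1 : b * M ∣ b * f - b * a ↔ M ∣ f - a := by rw [← mul_sub, mul_dvd_mul_iff_left b0]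
  have c2 : ∀ i (Q : k[X]), b * Q ∣ b * f + b * g i ↔ Q ∣ f + g i := fun i Q => by
    rw [← mul_add, mul_dvd_mul_iff_left b0]
  by_cases hM : M ∣ f - a
  swap
  · rw [if_neg hM, ellC, if_neg fun h => hM (c1.1 h.1)]
    simpa using hs
  rw [if_pos hM]
  by_cases hgood : ∀ i, ∀ Q ∈ prI k D l, ¬ Q ^ 2 ∣ f + g i
  · rw [ellC, if_pos ⟨c1.2 hM, fun i Q hQ h => hgood i Q hQ ((c2 i _).1 h)⟩]
    refine le_trans (le_of_eq (congrArg Complex.re ?_)) (le_add_of_nonneg_right hs)
    have e : ∀ i, G i (f + g i) = G i (∏ Q ∈ prI k D l with b * Q ∣ b * f + b * g i, Q) *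
        G i (nI (b * f + b * g i)) := by
      intro i
      obtain ⟨d1, d2⟩ := hdec _ (hm i) (hgood i)
      have r : (∏ Q ∈ prI k D l with b * Q ∣ b * f + b * g i, Q) = radI D l (f + g i) :=
        prod_congr (filter_congr fun Q _ => c2 i Q) fun _ _ => rfl
      have rm : (radI D l (f + g i)).Monic :=
        monic_prod_of_monic _ _ fun Q hQ => (ell_prI (mem_filter.1 hQ).1).1
      rw [r, ← mul_add, ← hGm i _ _ rm (hn _) d2, ← d1]
    have e2 : (lam f : ℂ) = (lam b : ℂ) * (lam (b * f) : ℂ) := by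
      rw [lam_mul b0 (mem_mon.1 hf).1.ne_zero, ← Complex.ofReal_mul, ← mul_assoc, lam_mul_self,
        one_mul]
    rw [prod_congr rfl fun i _ => e i, prod_mul_distrib, e2]
    ring
  · rw [ellC, if_neg fun h => hgood fun i Q hQ hd => h.2 i Q hQ ((c2 i _).2 hd)]
    push Not at hgood
    obtain ⟨i, Q, hQ, hd⟩ := hgood
    have h1 : (1 : ℝ) ≤ ∑ i, if Big D (f + g i) then (1 : ℝ) else 0 := by
      refine le_trans (le_of_eq ?_) (single_le_sum
        (f := fun i => if Big D (f + g i) then (1 : ℝ) else 0)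
        (fun j _ => by split_ifs <;> norm_num) (mem_univ i))
      rw [if_pos ⟨Q, (ell_prI hQ).1, (ell_prI hQ).2, hd⟩]
    have h2 : ‖u * ((lam f : ℂ) * ∏ i, G i (f + g i))‖ ≤ 1 := by
      rw [norm_mul, hu, one_mul, norm_mul, Complex.norm_real, Real.norm_eq_abs, abs_lam, one_mul,
        norm_prod]
      exact prod_le_one (fun _ _ => norm_nonneg _) fun i _ => hG i _ (hm i)
    have h3 := (Complex.re_le_norm _).trans h2
    simp only [mul_zero, zero_mul, Complex.zero_re, zero_add]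
    exact h3.trans h1

theorem ell_row (hGEN : GEN_s k) (hDEC : DEC_s k) : ELL_s k := by
  intro ι _ _ M ε hM hε
  have q0 : 0 < qq k := dec_q
  obtain ⟨D₀, hD₀⟩ := pow_unbounded_of_one_lt (4 * (Fintype.card ι : ℝ) / ε) (one_lt_two (α := ℝ))
  obtain ⟨D, l, hD, hZ⟩ := hGEN ι D₀ (ε / (2 * 2 ^ Fintype.card ι)) (by positivity)
  obtain ⟨nI, hn, hdec⟩ := hDEC D l
  have hZm : (M * (∏ P ∈ tup k D l, ∏ i, P i) * (∏ Q ∈ prI k D l, Q) ^ 2).Monic :=
    (hM.mul (monic_prod_of_monic _ _ fun P hP => ell_mon hP)).mul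
      ((monic_prod_of_monic _ _ fun Q hQ => (ell_prI hQ).1).pow 2)
  filter_upwards [hZ _ hZm] with n hn' g a G g0 hg hG hGm
  obtain ⟨u, hu, hS⟩ := Complex.exists_norm_eq_mul_self
    (∑ f ∈ mon k n, (if M ∣ f - a then (lam f : ℂ) * ∏ i, G i (f + g i) else 0))
  have hS' := congrArg Complex.re hS
  rw [Complex.ofReal_re, mul_sum, Complex.re_sum] at hS'
  rw [hS', ← div_le_iff₀ (by positivity), ← box_exp_mon]
  have hne := ell_ne (k := k) (show 0 < D by omega) l
  have hbig : 𝔼 f ∈ mon k n, (∑ i, if Big D (f + g i) then (1 : ℝ) else 0) ≤ ε / 2 := by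
    rw [expect_sum_comm]
    have h1 : ∀ i ∈ (univ : Finset ι),
        𝔼 f ∈ mon k n, (if Big D (f + g i) then (1 : ℝ) else 0) ≤ 2 / 2 ^ D₀ := by
      intro i _
      rw [exp_mon_shift (hg i) fun f => if Big D f then (1 : ℝ) else 0]
      refine (exp_big n D).trans (div_le_div_of_nonneg_left zero_le_two (by positivity) ?_)
      exact (pow_le_pow_right₀ one_le_two hD.le).trans (pow_le_pow_left₀ zero_le_two two_le_qq D)
    refine (sum_le_card_nsmul _ _ _ h1).trans ?_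
    rw [card_univ, nsmul_eq_mul, ← mul_div_assoc, div_le_div_iff₀ (by positivity) two_pos]
    rw [div_lt_iff₀ hε] at hD₀
    linarith
  have hmain : ∀ τ ∈ (univ : Finset (ι → Bool)), 𝔼 P ∈ tup k D l, 𝔼 f ∈ mon k n,
      (u * ellC D l M a g G (∏ i, P i) ((∏ i, P i) * f) * ∏ i, ellE (τ i)).re *
        lam ((∏ i, P i) * f) * ∏ i, ellP (τ i) (G i (nI ((∏ i, P i) * f + (∏ i, P i) * g i))) ≤
      ε / (2 * 2 ^ Fintype.card ι) := by
    intro τ _
    refine hn' g (fun P v => (u * ellC D l M a g G (∏ i, P i) v * ∏ i, ellE (τ i)).re)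
      (fun i v => ellP (τ i) (G i (nI v))) g0 hg (fun P v => ?_) (fun P hP v d hd => ?_)
      fun i v => ?_
    · refine (Complex.abs_re_le_norm _).trans ?_
      have h1 : ‖∏ i, ellE (τ i)‖ = 1 := by
        rw [norm_prod]
        exact prod_eq_one fun i _ => by unfold ellE; split_ifs <;> simp
      rw [norm_mul, norm_mul, hu, h1, one_mul, mul_one]
      exact ell_norm D l M a g hG _ _
    · beta_reduce
      rw [ell_per D l M a g G (dvd_trans (mul_dvd_mul_right (mul_dvd_mul_left M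
        (dvd_prod_of_mem (fun P : Fin l → k[X] => ∏ i, P i) hP)) _) hd)]
    · unfold ellP
      split_ifs
      · exact (Complex.abs_re_le_norm _).trans (hG i _ (hn v))
      · exact (Complex.abs_im_le_norm _).trans (hG i _ (hn v))
  calc _ = 𝔼 _P ∈ tup k D l, 𝔼 f ∈ mon k n,
        (u * if M ∣ f - a then (lam f : ℂ) * ∏ i, G i (f + g i) else 0).re :=
        (expect_const hne _).symm
    _ ≤ 𝔼 P ∈ tup k D l, ((∑ τ : ι → Bool, 𝔼 f ∈ mon k n,
        (u * ellC D l M a g G (∏ i, P i) ((∏ i, P i) * f) * ∏ i, ellE (τ i)).re *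
          lam ((∏ i, P i) * f) *
            ∏ i, ellP (τ i) (G i (nI ((∏ i, P i) * f + (∏ i, P i) * g i)))) + ε / 2) := by
        refine expect_le_expect fun P hP => ?_
        refine le_trans ?_ (add_le_add_right hbig _)
        rw [← expect_sum_comm, ← expect_add_distrib]
        refine expect_le_expect fun f hf => ?_
        rw [← ell_expand]
        exact ell_pt hn (ell_mon hP) (hdec P hP) hg hG hGm hf hu
    _ ≤ ε := by
        rw [expect_add_distrib, expect_const hne, expect_sum_comm]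
        have h1 := sum_le_card_nsmul _ _ _ hmain
        rw [card_univ, Fintype.card_fun, Fintype.card_bool, nsmul_eq_mul] at h1
        have h2 : ((2 ^ Fintype.card ι : ℕ) : ℝ) * (ε / (2 * 2 ^ Fintype.card ι)) = ε / 2 := by
          push_cast
          field_simp
        linarith

end Pool.Agent.K60

end
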