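import Pool.Agent.MP_a4a062_nt.K60.Defs

/-! h60k: rows EXP and ABS. -/

set_option autoImplicit false

open Polynomial Finset Filter
open scoped Classical BigOperators

noncomputable section
namespace Pool.Agent.K60

theorem exp_sign_exp (t σ : ℝ) (h : σ = 1 ∨ σ = -1) :
    Real.exp (σ * t) = σ * Real.sinh t + Real.cosh t := by
  rcases h with rfl | rfl
  · rw [one_mul, one_mul, add_comm, Real.cosh_add_sinh]
  · rw [neg_one_mul, neg_one_mul, ← Real.cosh_sub_sinh]; ring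

theorem abs_sinh_exp (t : ℝ) : |Real.sinh t| + Real.cosh t = Real.exp |t| := by
  rw [Real.abs_sinh, ← Real.cosh_abs, add_comm, Real.cosh_add_sinh]

theorem mgf_exp {V Ω : Type} [Fintype V] (T : Finset Ω) (hT : T.Nonempty) (σ : Ω → V → ℝ)
    (b : V → ℝ) (η : ℝ) (hη : 0 ≤ η) (hσ : ∀ s x, σ s x = 1 ∨ σ s x = -1)
    (hind : ∀ S : Finset V, S.Nonempty → (∀ x ∈ S, b x ≠ 0) → |𝔼 s ∈ T, ∏ x ∈ S, σ s x| ≤ η) :
    𝔼 s ∈ T, Real.exp (∑ x, σ s x * b x) ≤
      Real.exp ((∑ x, b x ^ 2) / 2) + η * Real.exp (∑ x, |b x|) := by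
  have h1 : ∀ s, Real.exp (∑ x, σ s x * b x) = ∑ S ∈ (univ : Finset V).powerset,
      ((∏ x ∈ S, Real.sinh (b x)) * ∏ x ∈ univ \ S, Real.cosh (b x)) * ∏ x ∈ S, σ s x := by
    intro s
    rw [Real.exp_sum, prod_congr rfl fun x _ => exp_sign_exp (b x) (σ s x) (hσ s x), prod_add]
    refine sum_congr rfl fun S _ => ?_
    rw [prod_mul_distrib]; ring
  have h2 : 𝔼 s ∈ T, Real.exp (∑ x, σ s x * b x) = ∑ S ∈ (univ : Finset V).powerset,
      ((∏ x ∈ S, Real.sinh (b x)) * ∏ x ∈ univ \ S, Real.cosh (b x)) *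
        𝔼 s ∈ T, ∏ x ∈ S, σ s x := by
    simp only [h1]
    rw [expect_sum_comm]
    exact sum_congr rfl fun S _ => (mul_expect _ _ _).symm
  have h3 : ∀ S ∈ (univ : Finset V).powerset,
      ((∏ x ∈ S, Real.sinh (b x)) * ∏ x ∈ univ \ S, Real.cosh (b x)) * 𝔼 s ∈ T, ∏ x ∈ S, σ s x ≤
        (if S = ∅ then ∏ x, Real.cosh (b x) else 0) +
          η * ((∏ x ∈ S, |Real.sinh (b x)|) * ∏ x ∈ univ \ S, Real.cosh (b x)) := by
    intro S _
    have hc : 0 ≤ ∏ x ∈ univ \ S, Real.cosh (b x) :=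
      prod_nonneg fun x _ => (Real.cosh_pos _).le
    have hs : 0 ≤ ∏ x ∈ S, |Real.sinh (b x)| := prod_nonneg fun x _ => abs_nonneg _
    have h0 : 0 ≤ η * ((∏ x ∈ S, |Real.sinh (b x)|) * ∏ x ∈ univ \ S, Real.cosh (b x)) :=
      mul_nonneg hη (mul_nonneg hs hc)
    by_cases hS : S = ∅
    · rw [if_pos hS]
      subst hS
      simp only [prod_empty, sdiff_empty, one_mul, expect_const hT, mul_one] at h0 ⊢
      linarith
    · rw [if_neg hS, zero_add]
      by_cases hb : ∀ x ∈ S, b x ≠ 0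
      · refine (le_abs_self _).trans ?_
        rw [abs_mul, abs_mul, abs_of_nonneg hc, abs_prod, mul_comm η]
        exact mul_le_mul_of_nonneg_left (hind S (nonempty_iff_ne_empty.2 hS) hb)
          (mul_nonneg hs hc)
      · push Not at hb
        obtain ⟨x, hx, hx0⟩ := hb
        rw [prod_eq_zero hx (by rw [hx0, Real.sinh_zero]), zero_mul, zero_mul]
        exact h0
  rw [h2]
  refine (sum_le_sum h3).trans ?_
  rw [sum_add_distrib, ← mul_sum, ← prod_add, sum_ite_eq', if_pos (empty_mem_powerset _),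
    prod_congr rfl fun x _ => abs_sinh_exp (b x), ← Real.exp_sum]
  refine add_le_add ?_ le_rfl
  rw [sum_div, Real.exp_sum]
  exact prod_le_prod (fun x _ => (Real.cosh_pos _).le) fun x _ => Real.cosh_le_exp_half_sq _

theorem deg_sum_exp {V E : Type} [Fintype V] (Ed : Finset E) (w : E → V) :
    ∑ x, (#{e ∈ Ed | w e = x} : ℝ) = #Ed := by
  rw [card_eq_sum_card_fiberwise (f := w) (s := Ed) (t := univ) fun _ _ => mem_coe.2 (mem_univ _)]
  push_cast
  rfl

theorem deg_sq_exp {V E : Type} [Fintype V] (Ed : Finset E) (w : E → V) :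
    ∑ x, (#{e ∈ Ed | w e = x} : ℝ) ^ 2 = #{z ∈ Ed ×ˢ Ed | w z.1 = w z.2} := by
  rw [card_eq_sum_card_fiberwise (f := fun z : E × E => w z.1)
    (s := {z ∈ Ed ×ˢ Ed | w z.1 = w z.2}) (t := univ) fun _ _ => mem_coe.2 (mem_univ _)]
  push_cast
  refine sum_congr rfl fun x _ => ?_
  rw [sq, ← Nat.cast_mul, ← card_product]
  congr 2
  ext z
  simp only [mem_product, mem_filter]
  constructor
  · rintro ⟨⟨h1, h2⟩, h3, h4⟩
    exact ⟨⟨⟨h1, h3⟩, h2.trans h4.symm⟩, h2⟩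
  · rintro ⟨⟨⟨h1, h3⟩, h5⟩, h2⟩
    exact ⟨⟨h1, h2⟩, h3, h5.symm.trans h2⟩

theorem exp_row : EXP_s := by
  intro ι V E Ω _ _ Ed T w v φ ω σ A θ η hT hθ hη hφ hω hσ hA hind
  set N : ℝ := ∑ i, (#(Ed.image (v i)) : ℝ) with hN
  set Q : ℝ := (#{z ∈ Ed ×ˢ Ed | w z.1 = w z.2} : ℝ) with hQ
  let PAT : Finset (ι → Finset V) := Fintype.piFinset fun i => (Ed.image (v i)).powerset
  let sg : (ι → Finset V) → E → ℝ := fun X e => ∏ i, if v i e ∈ X i then -1 else 1
  let b : (ι → Finset V) → V → ℝ := fun X x => θ * (ω x * ∑ e ∈ Ed with w e = x, φ e * sg X e)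
  have hsg : ∀ X e, |sg X e| = 1 := by
    intro X e
    simp only [sg]
    rw [abs_prod]
    refine prod_eq_one fun i _ => ?_
    split_ifs <;> simp
  have hb : ∀ X x, |b X x| ≤ θ * #{e ∈ Ed | w e = x} := by
    intro X x
    simp only [b]
    rw [abs_mul, abs_of_pos hθ, abs_mul]
    refine mul_le_mul_of_nonneg_left ?_ hθ.le
    refine (mul_le_of_le_one_left (abs_nonneg _) (hω x)).trans ((abs_sum_le_sum_abs _ _).trans ?_)
    rw [card_eq_sum_ones]
    push_cast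
    refine sum_le_sum fun e _ => ?_
    rw [abs_mul, hsg, mul_one]
    exact hφ e
  have hm : ∀ X, 𝔼 s ∈ T, Real.exp (∑ x, σ s x * b X x) ≤
      Real.exp (θ ^ 2 / 2 * Q) + η * Real.exp (θ * #Ed) := by
    intro X
    refine (mgf_exp T hT σ (b X) η hη hσ fun S hS h => hind S hS fun x hx h0 => h x hx ?_).trans
      (add_le_add (Real.exp_le_exp.2 ?_) (mul_le_mul_of_nonneg_left (Real.exp_le_exp.2 ?_) hη))
    · simp only [b, h0, zero_mul, mul_zero]
    · have : ∑ x, b X x ^ 2 ≤ ∑ x, θ ^ 2 * (#{e ∈ Ed | w e = x} : ℝ) ^ 2 := by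
        refine sum_le_sum fun x _ => ?_
        rw [← mul_pow, ← sq_abs (b X x)]
        exact pow_le_pow_left₀ (abs_nonneg _) (hb X x) 2
      rw [← mul_sum, deg_sq_exp] at this
      linarith
    · refine (sum_le_sum fun x _ => hb X x).trans ?_
      rw [← mul_sum, deg_sum_exp]
  have hP : (#PAT : ℝ) ≤ Real.exp N := by
    simp only [PAT]
    rw [Fintype.card_piFinset, hN, Real.exp_sum]
    push_cast
    refine prod_le_prod (fun i _ => Nat.cast_nonneg _) fun i _ => ?_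
    rw [card_powerset, ← Real.exp_one_pow]
    push_cast
    exact pow_le_pow_left₀ (by norm_num) (by linarith [Real.add_one_le_exp (1 : ℝ)]) _
  have hz : ∀ s, θ * ∑ e ∈ Ed, φ e * ω (w e) * σ s (w e) * ∏ i, A s i (v i e) ≤
      (N + θ ^ 2 / 2 * Q) +
        Real.exp (-(N + θ ^ 2 / 2 * Q)) * ∑ X ∈ PAT, Real.exp (∑ x, σ s x * b X x) := by
    intro s
    let X : ι → Finset V := fun i => {x ∈ Ed.image (v i) | A s i x = -1}
    have hX : X ∈ PAT := Fintype.mem_piFinset.2 fun i => mem_powerset.2 (filter_subset _ _)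
    have e1 : θ * ∑ e ∈ Ed, φ e * ω (w e) * σ s (w e) * ∏ i, A s i (v i e) =
        ∑ x, σ s x * b X x := by
      rw [← sum_fiberwise (s := Ed) (g := w), mul_sum]
      refine sum_congr rfl fun x _ => ?_
      simp only [b, mul_sum]
      refine sum_congr rfl fun e he => ?_
      obtain ⟨he1, he2⟩ := mem_filter.1 he
      have : ∏ i, A s i (v i e) = sg X e := by
        refine prod_congr rfl fun i _ => ?_
        by_cases h : A s i (v i e) = -1
        · rw [if_pos (mem_filter.2 ⟨mem_image_of_mem _ he1, h⟩), h]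
        · have hn : v i e ∉ X i := fun h' => h (mem_filter.1 h').2
          rw [if_neg hn]
          exact (hA s i _).resolve_right h
      rw [this, he2]
      ring
    have e2 : Real.exp (∑ x, σ s x * b X x) ≤ ∑ X ∈ PAT, Real.exp (∑ x, σ s x * b X x) :=
      single_le_sum (f := fun X => Real.exp (∑ x, σ s x * b X x))
        (fun _ _ => (Real.exp_pos _).le) hX
    have e3 := Real.add_one_le_exp (-(N + θ ^ 2 / 2 * Q) + ∑ x, σ s x * b X x)
    rw [Real.exp_add] at e3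
    have e4 := mul_le_mul_of_nonneg_left e2 (Real.exp_pos (-(N + θ ^ 2 / 2 * Q))).le
    rw [e1]
    linarith
  rw [mul_expect]
  refine (expect_le_expect fun s _ => hz s).trans ?_
  rw [expect_add_distrib, expect_const hT, ← mul_expect, expect_sum_comm]
  have h1 : ∑ X ∈ PAT, 𝔼 s ∈ T, Real.exp (∑ x, σ s x * b X x) ≤
      Real.exp N * (Real.exp (θ ^ 2 / 2 * Q) + η * Real.exp (θ * #Ed)) := by
    refine (sum_le_card_nsmul _ _ _ fun X _ => hm X).trans ?_
    rw [nsmul_eq_mul]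
    exact mul_le_mul_of_nonneg_right hP (by positivity)
  have hQ0 : 0 ≤ θ ^ 2 / 2 * Q := by positivity
  have h2 : Real.exp (-(N + θ ^ 2 / 2 * Q)) *
      (Real.exp N * (Real.exp (θ ^ 2 / 2 * Q) + η * Real.exp (θ * #Ed))) =
      1 + Real.exp (-(θ ^ 2 / 2 * Q)) * (η * Real.exp (θ * #Ed)) := by
    rw [← mul_assoc, ← Real.exp_add, mul_add, ← Real.exp_add]
    congr 2
    · rw [← Real.exp_zero]; congr 1; ring
    · congr 1; ring
  have h3 : Real.exp (-(θ ^ 2 / 2 * Q)) * (η * Real.exp (θ * #Ed)) ≤ η * Real.exp (θ * #Ed) :=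
    mul_le_of_le_one_left (by positivity) (Real.exp_le_one_iff.2 (by linarith))
  have h4 := mul_le_mul_of_nonneg_left h1 (Real.exp_pos (-(N + θ ^ 2 / 2 * Q))).le
  linarith

theorem abs_fix {ι : Type} [Fintype ι] (r K : ℕ) (hK : Fintype.card ι = K + 1) (i : ι)
    (c : Fin r) : #{κ : ι → Fin r | κ i = c} = r ^ K := by
  have := Fintype.card_filter_piFinset_const_eq_of_mem (univ : Finset (Fin r)) i (mem_univ c)
  rw [Fintype.piFinset_univ, card_univ, Fintype.card_fin, hK, Nat.add_sub_cancel] at this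
  exact this

theorem abs_row (hcol : COL_s) (hexp : EXP_s) : ABS_s := by
  intro ι V E Ω _ _ Ed T w v φ ω σ A θ η U r K hK hr hsep hfib hU hT hθ hη hφ hω hσ hA hind
  obtain ⟨χ, hχ⟩ := hcol ι V E Ed w v r hr hsep (hK ▸ hfib)
  let cl : E → ι → Fin r := fun e i => χ i (v i e)
  have h1 : θ * 𝔼 s ∈ T, ∑ e ∈ Ed, φ e * ω (w e) * σ s (w e) * ∏ i, A s i (v i e) =
      ∑ κ : ι → Fin r, θ * 𝔼 s ∈ T, ∑ e ∈ Ed with cl e = κ,
        φ e * ω (w e) * σ s (w e) * ∏ i, A s i (v i e) := by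
    rw [← mul_sum, ← expect_sum_comm]
    simp only [sum_fiberwise]
  have h2 : ∀ i, ∑ κ : ι → Fin r, (#(({e ∈ Ed | cl e = κ} : Finset E).image (v i)) : ℝ) ≤
      (r : ℝ) ^ K * U := by
    intro i
    have a1 : ∑ κ : ι → Fin r, #(({e ∈ Ed | cl e = κ} : Finset E).image (v i)) ≤
        ∑ κ : ι → Fin r, #{x ∈ Ed.image (v i) | κ i = χ i x} := by
      refine sum_le_sum fun κ _ => card_le_card fun x hx => ?_
      obtain ⟨e, he, rfl⟩ := mem_image.1 hx
      obtain ⟨h3, h4⟩ := mem_filter.1 he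
      exact mem_filter.2 ⟨mem_image_of_mem _ h3, (congrFun h4 i).symm⟩
    have a2 : ∑ κ : ι → Fin r, #{x ∈ Ed.image (v i) | κ i = χ i x} =
        r ^ K * #(Ed.image (v i)) := by
      simp only [card_filter]
      rw [sum_comm]
      simp only [← card_filter, abs_fix r K hK, sum_const, smul_eq_mul, mul_comm]
    have a3 : ∑ κ : ι → Fin r, (#(({e ∈ Ed | cl e = κ} : Finset E).image (v i)) : ℝ) ≤
        (r : ℝ) ^ K * #(Ed.image (v i)) := by exact_mod_cast a1.trans a2.le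
    exact a3.trans (mul_le_mul_of_nonneg_left (hU i) (by positivity))
  have h3 : ∑ κ : ι → Fin r, (#{z ∈ ({e ∈ Ed | cl e = κ} : Finset E) ×ˢ
      ({e ∈ Ed | cl e = κ} : Finset E) | w z.1 = w z.2} : ℝ) ≤ 2 * #Ed := by
    have a1 := card_eq_sum_card_fiberwise (f := fun z : E × E => cl z.1)
      (s := {z ∈ Ed ×ˢ Ed | w z.1 = w z.2 ∧ ∀ i, χ i (v i z.1) = χ i (v i z.2)}) (t := univ)
      fun _ _ => mem_coe.2 (mem_univ _)
    have a2 : ∑ κ : ι → Fin r, #{z ∈ ({e ∈ Ed | cl e = κ} : Finset E) ×ˢ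
        ({e ∈ Ed | cl e = κ} : Finset E) | w z.1 = w z.2} ≤ 2 * #Ed := by
      refine le_trans ?_ hχ
      rw [a1]
      refine sum_le_sum fun κ _ => card_le_card fun z hz => ?_
      simp only [mem_filter, mem_product] at hz ⊢
      obtain ⟨⟨⟨b1, b2⟩, b3, b4⟩, b5⟩ := hz
      exact ⟨⟨⟨b1, b3⟩, b5, fun i => congrFun (b2.trans b4.symm) i⟩, b2⟩
    exact_mod_cast a2
  have h4 : ∑ _κ : ι → Fin r, (1 + η * Real.exp (θ * #Ed)) =
      (r : ℝ) ^ (K + 1) * (1 + η * Real.exp (θ * #Ed)) := by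
    rw [sum_const, card_univ, Fintype.card_fun, Fintype.card_fin, hK, nsmul_eq_mul]
    push_cast
    rfl
  have h5 : ∑ κ : ι → Fin r, ∑ i, (#(({e ∈ Ed | cl e = κ} : Finset E).image (v i)) : ℝ) ≤
      (K + 1) * ((r : ℝ) ^ K * U) := by
    rw [sum_comm]
    refine (sum_le_card_nsmul _ _ _ fun i _ => h2 i).trans (le_of_eq ?_)
    rw [card_univ, hK, nsmul_eq_mul]
    push_cast
    rfl
  rw [h1]
  have h6 : ∀ κ : ι → Fin r, θ * 𝔼 s ∈ T, ∑ e ∈ Ed with cl e = κ,
      φ e * ω (w e) * σ s (w e) * ∏ i, A s i (v i e) ≤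
      (∑ i, (#(({e ∈ Ed | cl e = κ} : Finset E).image (v i)) : ℝ)) +
        θ ^ 2 / 2 * #{z ∈ ({e ∈ Ed | cl e = κ} : Finset E) ×ˢ
          ({e ∈ Ed | cl e = κ} : Finset E) | w z.1 = w z.2} +
        (1 + η * Real.exp (θ * #Ed)) := by
    intro κ
    have a1 := hexp ι V E Ω {e ∈ Ed | cl e = κ} T w v φ ω σ A θ η hT hθ hη hφ hω hσ hA hind
    have a2 : η * Real.exp (θ * #{e ∈ Ed | cl e = κ}) ≤ η * Real.exp (θ * #Ed) :=
      mul_le_mul_of_nonneg_left (Real.exp_le_exp.2 (mul_le_mul_of_nonneg_left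
        (Nat.cast_le.2 (card_filter_le _ _)) hθ.le)) hη
    linarith
  refine (sum_le_sum fun κ _ => h6 κ).trans ?_
  rw [sum_add_distrib, sum_add_distrib, ← mul_sum, h4]
  have h7 := mul_le_mul_of_nonneg_left h3 (show 0 ≤ θ ^ 2 / 2 by positivity)
  linarith

end Pool.Agent.K60

end
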