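import Pool.Agent.MP_a4a062_nt.K60.Defs

/-! h60k, row FAM: the family of divisors and its weight. -/

set_option autoImplicit false

open Polynomial Finset Filter
open scoped Classical BigOperators

noncomputable section
namespace Pool.Agent.K60
open Pool.Agent.H4O

variable {k : Type} [Field k] [Fintype k]

/-- The monic primes with degree in `(a, b]`. -/
def famW (k : Type) [Field k] [Fintype k] (a b : ℕ) : Finset k[X] := (Ioc a b).biUnion (prs k)

theorem fam_mem {a b : ℕ} {r : k[X]} (hr : r ∈ famW k a b) :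
    (r.Monic ∧ Irreducible r) ∧ a < r.natDegree ∧ r.natDegree ≤ b := by
  obtain ⟨e, he, hr⟩ := Finset.mem_biUnion.1 hr
  obtain ⟨r1, r2, r3⟩ := mem_prs.1 hr
  rw [r3]
  exact ⟨⟨r1, r2⟩, Finset.mem_Ioc.1 he⟩

theorem fam_win (A H N : ℕ) (h : A + H ≤ N) (N0 : 0 < N) :
    (H : ℝ) / (2 * N) ≤ ∑ r ∈ famW k A (A + H), 1 / qq k ^ r.natDegree :=
  H4Lev.win (prs k) (fun _ _ => mem_prs) (fun _ hd => card_prs hd) A H N h N0

theorem fam_split {a b c : ℕ} (h1 : a ≤ b) (h2 : b ≤ c) (F : k[X] → ℝ) :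
    ∑ r ∈ famW k a c, F r = ∑ r ∈ famW k a b, F r + ∑ r ∈ famW k b c, F r := by
  rw [← Finset.sum_union]
  · congr 1
    unfold famW
    rw [← Finset.union_biUnion, Finset.Ioc_union_Ioc_eq_Ioc h1 h2]
  · refine Finset.disjoint_left.2 fun r ha hb => ?_
    have := (fam_mem ha).2.2
    have := (fam_mem hb).2.1
    omega

theorem fam_dy (R : ℕ) (hR : 0 < R) (l : ℕ) :
    (l : ℝ) / 4 ≤ ∑ r ∈ famW k R (2 ^ l * R), 1 / qq k ^ r.natDegree := by
  have q0 : 0 < qq k := lt_of_lt_of_le two_pos two_le_qq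
  induction l with
  | zero => simpa using Finset.sum_nonneg fun r _ => by positivity
  | succ l ih =>
    have e : 2 ^ (l + 1) * R = 2 ^ l * R + 2 ^ l * R := by ring
    have h1 : R ≤ 2 ^ l * R := Nat.le_mul_of_pos_left R (by positivity)
    have h0 : 0 < 2 ^ l * R := by positivity
    rw [fam_split h1 (b := 2 ^ l * R) (by omega), e]
    have h2 := fam_win (k := k) (2 ^ l * R) (2 ^ l * R) (2 ^ l * R + 2 ^ l * R) le_rfl (by omega)
    have h3 : (0 : ℝ) < ((2 ^ l * R : ℕ) : ℝ) := by exact_mod_cast h0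
    have h4 : ((2 ^ l * R : ℕ) : ℝ) / (2 * ((2 ^ l * R + 2 ^ l * R : ℕ) : ℝ)) = 1 / 4 := by
      rw [Nat.cast_add]
      field_simp
      ring
    rw [h4] at h2
    push_cast at ih h2 ⊢
    linarith

theorem fam_row : FAM_s k := by
  intro P l N G H lo hP hG1 hG2 hlo hH H0
  have q0 : 0 < qq k := lt_of_lt_of_le two_pos two_le_qq
  have h5 : 5 * H ≤ 2 ^ l * (5 * H) := Nat.le_mul_of_pos_left _ (by positivity)
  have h6 : 2 ^ l * (5 * H) ≤ G := le_of_eq_of_le (by ring) hH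
  have G0 : 0 < G := by omega
  -- arithmetic
  obtain ⟨u, hu⟩ : ∃ u, u = P * G := ⟨_, rfl⟩
  obtain ⟨w, hw⟩ : ∃ w, w = P * u := ⟨_, rfl⟩
  have u2 : 2 * G ≤ u := hu ▸ Nat.mul_le_mul_right G hP
  have w2 : 2 * u ≤ w := hw ▸ Nat.mul_le_mul_right u hP
  have a1 : lo + 2 * u + 2 * G = N := by rw [← hlo, hu]; ring
  have a2 : 4 * w + 8 * u + 4 * G ≤ N := le_of_eq_of_le (by rw [hw, hu]; ring) hG1
  have a3 : P * N = P * lo + 2 * w + 2 * u := by rw [← hlo, hw, hu]; ring
  have a4 : P * (lo + P * G) = P * lo + w := by rw [hw, hu]; ring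
  have N0 : 0 < N := by omega
  let W : Fin P → Finset k[X] := fun i => famW k (lo + i * G) (lo + i * G + G)
  have iH : ∀ i : Fin P, (i : ℕ) * G + G ≤ P * G := fun i => by
    have := Nat.mul_le_mul_right G (Nat.succ_le_of_lt i.2)
    rwa [Nat.succ_mul] at this
  have hWW : ∀ i j, ∀ r ∈ W i, r ∈ W j → i = j := by
    intro i j r hi hj
    have h3 := (fam_mem hi).2
    have h4 := (fam_mem hj).2
    by_contra hij
    rcases lt_or_gt_of_ne (fun e => hij (Fin.ext e) : (i : ℕ) ≠ j) with h | h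
    · have := Nat.mul_le_mul_right G (Nat.succ_le_of_lt h)
      rw [Nat.succ_mul] at this
      omega
    · have := Nat.mul_le_mul_right G (Nat.succ_le_of_lt h)
      rw [Nat.succ_mul] at this
      omega
  let T := Fintype.piFinset W
  have hT : ∀ τ ∈ T, ∀ i, τ i ∈ W i := fun τ h => Fintype.mem_piFinset.1 h
  have tinj : ∀ τ ∈ T, Function.Injective τ := fun τ h i j e =>
    hWW i j _ (hT τ h i) (e ▸ hT τ h j)
  have tmon : ∀ τ ∈ T, (∏ i, τ i).Monic := fun τ h =>
    monic_prod_of_monic _ _ fun i _ => (fam_mem (hT τ h i)).1.1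
  have ddeg : ∀ τ ∈ T, (∏ i, τ i).natDegree = ∑ i, (τ i).natDegree := fun τ h =>
    natDegree_prod_of_monic _ _ fun i _ => (fam_mem (hT τ h i)).1.1
  have dlo : ∀ τ ∈ T, P * lo ≤ (∏ i, τ i).natDegree := by
    intro τ h
    have := Finset.card_nsmul_le_sum univ (fun i => (τ i).natDegree) lo fun i _ => by
      have := (fam_mem (hT τ h i)).2.1
      omega
    rw [ddeg τ h]
    simpa using this
  have dhi : ∀ τ ∈ T, (∏ i, τ i).natDegree ≤ P * lo + w := by
    intro τ h
    have := Finset.sum_le_card_nsmul univ (fun i => (τ i).natDegree) (lo + P * G) fun i _ => by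
      have := (fam_mem (hT τ h i)).2.2
      have := iH i
      omega
    rw [ddeg τ h, ← a4]
    simpa using this
  have tdv : ∀ τ ∈ T, ∀ r : k[X], r.Monic ∧ Irreducible r → r ∣ ∏ i, τ i → ∃ j, r = τ j := by
    intro τ h r hr hd
    obtain ⟨j, -, hj⟩ := (hr.2.prime.dvd_finsetProd_iff _).1 hd
    exact ⟨j, H4Lev.mi_eq hr (fam_mem (hT τ h j)).1 hj⟩
  have tlo : ∀ τ ∈ T, ∀ i, lo < (τ i).natDegree ∧ (τ i).natDegree ≤ lo + u := by
    intro τ h i
    have := (fam_mem (hT τ h i)).2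
    have := iH i
    omega
  let W0 : Finset k[X] := famW k (5 * H) (2 ^ l * (5 * H))
  let st : (Fin P → k[X]) × k[X] → ℕ := fun x =>
    P * N - 3 * H - ((∏ i, x.1 i).natDegree + x.2.natDegree)
  let S : Finset (Σ _ : (Fin P → k[X]) × k[X], k[X]) :=
    (T ×ˢ W0).sigma fun x => famW k (st x) (st x + H)
  let pd : (Σ _ : (Fin P → k[X]) × k[X], k[X]) → k[X] := fun z => (∏ i, z.1.1 i) * z.1.2 * z.2
  have hst : ∀ x ∈ T ×ˢ W0, st x + 3 * H + ((∏ i, x.1 i).natDegree + x.2.natDegree) = P * N ∧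
      G ≤ st x ∧ st x + H ≤ lo := by
    intro x hx
    obtain ⟨h1, h2⟩ := Finset.mem_product.1 hx
    have := dlo _ h1
    have := dhi _ h1
    have := (fam_mem h2).2
    simp only [st]
    omega
  have hS : ∀ z ∈ S, z.1.1 ∈ T ∧ ((z.1.2.Monic ∧ Irreducible z.1.2) ∧ 5 * H < z.1.2.natDegree ∧
      z.1.2.natDegree ≤ G) ∧ ((z.2.Monic ∧ Irreducible z.2) ∧ G < z.2.natDegree ∧
      z.2.natDegree ≤ lo) ∧ (pd z).natDegree =
        (∏ i, z.1.1 i).natDegree + z.1.2.natDegree + z.2.natDegree ∧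
      P * N < (pd z).natDegree + 3 * H ∧ (pd z).natDegree + 2 * H ≤ P * N := by
    intro z hz
    obtain ⟨hx, h3⟩ := Finset.mem_sigma.1 hz
    obtain ⟨h1, h2⟩ := Finset.mem_product.1 hx
    have b1 := hst _ hx
    have b2 := fam_mem h2
    have b3 := fam_mem h3
    have e : (pd z).natDegree = (∏ i, z.1.1 i).natDegree + z.1.2.natDegree + z.2.natDegree := by
      simp only [pd]
      rw [((tmon _ h1).mul b2.1.1).natDegree_mul b3.1.1, (tmon _ h1).natDegree_mul b2.1.1]
    refine ⟨h1, ⟨b2.1, b2.2.1, by omega⟩, ⟨b3.1, by omega, by omega⟩, e, by omega, by omega⟩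
  have hdv : ∀ z ∈ S, ∀ r : k[X], r.Monic ∧ Irreducible r → r ∣ pd z →
      (∃ j, r = z.1.1 j) ∨ r = z.1.2 ∨ r = z.2 := by
    intro z hz r hr hd
    obtain ⟨h1, h2, h3, -⟩ := hS z hz
    rcases hr.2.prime.dvd_or_dvd hd with h | h
    · rcases hr.2.prime.dvd_or_dvd h with h | h
      · exact Or.inl (tdv _ h1 r hr h)
      · exact Or.inr (Or.inl (H4Lev.mi_eq hr h2.1 h))
    · exact Or.inr (Or.inr (H4Lev.mi_eq hr h3.1 h))
  have d1 : ∀ (z : Σ _ : (Fin P → k[X]) × k[X], k[X]) i, z.1.1 i ∣ pd z := fun z i =>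
    ((Finset.dvd_prod_of_mem z.1.1 (mem_univ i)).mul_right _).mul_right _
  have d2 : ∀ (z : Σ _ : (Fin P → k[X]) × k[X], k[X]), z.1.2 ∣ pd z := fun z =>
    (dvd_mul_left _ _).mul_right _
  have pinj : Set.InjOn pd S := by
    intro z hz z' hz' e
    obtain ⟨h1, h2, h3, -⟩ := hS z hz
    obtain ⟨h1', h2', h3', -⟩ := hS z' hz'
    have e1 : z.1.1 = z'.1.1 := by
      refine _root_.funext fun i => ?_
      have b := tlo _ h1 i
      rcases hdv z' hz' _ (fam_mem (hT _ h1 i)).1 (e ▸ d1 z i) with ⟨j, h⟩ | h | h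
      · have h5 : i = j := hWW i j _ (hT _ h1 i) (h ▸ hT _ h1' j)
        rw [h, h5]
      · rw [h] at b
        omega
      · rw [h] at b
        omega
    have e2 : z.1.2 = z'.1.2 := by
      have b := h2.2
      rcases hdv z' hz' _ h2.1 (e ▸ d2 z) with ⟨j, h⟩ | h | h
      · have := tlo _ h1' j
        rw [h] at b
        omega
      · exact h
      · rw [h] at b
        omega
    have e3 : z.2 = z'.2 := by
      have e' : (∏ i, z.1.1 i) * z.1.2 * z.2 = (∏ i, z'.1.1 i) * z'.1.2 * z'.2 := e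
      rw [e1, e2] at e'
      exact mul_left_cancel₀ ((tmon _ h1').mul h2'.1.1).ne_zero e'
    obtain ⟨⟨x1, x2⟩, x3⟩ := z
    obtain ⟨⟨y1, y2⟩, y3⟩ := z'
    simp only at e1 e2 e3
    rw [e1, e2, e3]
  refine ⟨S.image pd, fun d hd => ?_, ?_⟩
  · obtain ⟨z, hz, rfl⟩ := Finset.mem_image.1 hd
    obtain ⟨h1, h2, h3, -, h7, h8⟩ := hS z hz
    have c1 : ∀ i, IsCoprime (z.1.1 i) z.1.2 := fun i =>
      H4Lev.mi_cop (fam_mem (hT _ h1 i)).1 h2.1 fun e => by
        have b := tlo _ h1 i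
        rw [e] at b
        omega
    have c2 : ∀ i, IsCoprime (z.1.1 i) z.2 := fun i =>
      H4Lev.mi_cop (fam_mem (hT _ h1 i)).1 h3.1 fun e => by
        have b := tlo _ h1 i
        rw [e] at b
        omega
    have c3 : IsCoprime z.1.2 z.2 := H4Lev.mi_cop h2.1 h3.1 fun e => by
      have b := h2.2
      rw [e] at b
      omega
    have s1 : Squarefree (∏ i, z.1.1 i) := Finset.squarefree_prod_of_pairwise_isCoprime
      (fun i _ j _ hij => (H4Lev.mi_cop (fam_mem (hT _ h1 i)).1 (fam_mem (hT _ h1 j)).1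
        fun e => hij (tinj _ h1 e)).isRelPrime) fun i _ => (fam_mem (hT _ h1 i)).1.2.squarefree
    have s2 : Squarefree ((∏ i, z.1.1 i) * z.1.2) := squarefree_mul_iff.2
      ⟨(IsCoprime.prod_left fun i _ => c1 i).isRelPrime, s1, h2.1.2.squarefree⟩
    have s3 : Squarefree (pd z) := squarefree_mul_iff.2
      ⟨((IsCoprime.prod_left fun i _ => c2 i).mul_left c3).isRelPrime, s2, h3.1.2.squarefree⟩
    refine ⟨((tmon _ h1).mul h2.1.1).mul h3.1.1, s3, h7, h8, fun ϖ hϖ hd => ?_,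
      z.1.1 ⟨0, by omega⟩, z.1.1 ⟨1, by omega⟩, (fam_mem (hT _ h1 _)).1.1,
      (fam_mem (hT _ h1 _)).1.2, (fam_mem (hT _ h1 _)).1.1, (fam_mem (hT _ h1 _)).1.2,
      fun e => ?_, d1 z _, d1 z _, (tlo _ h1 _).1.le, (tlo _ h1 _).1.le⟩
    · have as : Associated (normalize ϖ) ϖ := normalize_associated ϖ
      have hr : (normalize ϖ).Monic ∧ Irreducible (normalize ϖ) :=
        ⟨monic_normalize hϖ.ne_zero, as.symm.irreducible hϖ⟩
      have hdeg : ϖ.natDegree = (normalize ϖ).natDegree :=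
        natDegree_eq_of_degree_eq (degree_eq_degree_of_associated as.symm)
      rw [hdeg]
      rcases hdv z hz _ hr (as.dvd.trans hd) with ⟨j, h⟩ | h | h
      · have := tlo _ h1 j
        rw [h]
        omega
      · rw [h]
        omega
      · rw [h]
        omega
    · have := congrArg Fin.val (tinj _ h1 e)
      simp at this
  · rw [Finset.sum_image pinj, Finset.sum_sigma]
    have m1 : (1 / (16 * ((P : ℝ) + 1) ^ 2)) ^ P ≤ ∑ τ ∈ T, 1 / qq k ^ (∏ i, τ i).natDegree := by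
      have e : ∑ τ ∈ T, 1 / qq k ^ (∏ i, τ i).natDegree =
          ∏ i, ∑ r ∈ W i, 1 / qq k ^ r.natDegree := by
        rw [Finset.prod_univ_sum]
        refine Finset.sum_congr rfl fun τ h => ?_
        rw [ddeg τ h, Finset.prod_div_distrib, Finset.prod_const_one, Finset.prod_pow_eq_pow_sum]
      rw [e, ← Fin.prod_const]
      refine Finset.prod_le_prod (fun _ _ => by positivity) fun i _ => ?_
      refine le_trans ?_ (fam_win (lo + i * G) G N (by have := iH i; omega) N0)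
      have h3 : (N : ℝ) ≤ 8 * ((P : ℝ) + 1) ^ 2 * G := by exact_mod_cast hG2
      have h4 : (0 : ℝ) < N := by exact_mod_cast N0
      rw [div_le_div_iff₀ (by positivity) (by positivity)]
      linarith
    have m2 := fam_dy (k := k) (5 * H) (by omega) l
    calc _ ≤ (∑ τ ∈ T, 1 / qq k ^ (∏ i, τ i).natDegree) *
          (∑ r ∈ W0, 1 / qq k ^ r.natDegree) * ((H : ℝ) / (2 * N)) :=
          mul_le_mul_of_nonneg_right (mul_le_mul m1 m2 (by positivity)
            (Finset.sum_nonneg fun _ _ => by positivity)) (by positivity)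
      _ = ∑ x ∈ T ×ˢ W0, 1 / qq k ^ (∏ i, x.1 i).natDegree * (1 / qq k ^ x.2.natDegree) *
          ((H : ℝ) / (2 * N)) := by
          rw [Finset.sum_mul_sum, ← Finset.sum_mul, Finset.sum_product]
      _ ≤ _ := by
          refine Finset.sum_le_sum fun x hx => ?_
          have b := hst x hx
          refine (mul_le_mul_of_nonneg_left (fam_win (k := k) (st x) H N (by omega) N0)
            (by positivity)).trans (le_of_eq ?_)
          rw [Finset.mul_sum]
          refine Finset.sum_congr rfl fun r hr => ?_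
          rw [(hS ⟨x, r⟩ (Finset.mem_sigma.2 ⟨hx, hr⟩)).2.2.2.1, pow_add, pow_add]
          field_simp

end Pool.Agent.K60

end
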