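import Pool.Agent.MP_a4a062_nt.K60.Defs4

/-! h60k row FIN: from the core form to the final statement -/

set_option autoImplicit false

open Polynomial Finset Filter
open scoped Classical BigOperators

noncomputable section
namespace Pool.Agent.K60
open Pool.Agent.H4O

theorem fine_row (k : Type) [Field k] [Fintype k] (hC : ELL_s k) (K : ℕ) (M : k[X]) (hM : M ≠ 0)
    (ε : ℝ) (hε : 0 < ε) :
    ∃ n₀ : ℕ, ∀ n : ℕ, n₀ ≤ n → ∀ (a h₀ : k[X]) (h : Fin K → k[X]) (G : Fin K → k[X] → ℂ),
      h₀.degree < n → (∀ i, (h i).degree < n) → (∀ i, h i ≠ h₀) →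
      (∀ i u, u.Monic → ‖G i u‖ ≤ 1) →
      (∀ i u v, u.Monic → v.Monic → IsCoprime u v → G i (u * v) = G i u * G i v) →
      ‖∑ᶠ f ∈ {f : k[X] | f.Monic ∧ f.natDegree = n ∧ M ∣ f - a},
        (-1 : ℂ) ^ (UniqueFactorizationMonoid.factors (f + h₀)).card * ∏ i, G i (f + h i)‖
      ≤ ε * (Nat.card k : ℝ) ^ n := by
  have l0 := inv_ne_zero (leadingCoeff_ne_zero.2 hM)
  have key := hC (Option (Fin K)) (M * C M.leadingCoeff⁻¹) ε (monic_mul_leadingCoeff_inv hM) hε
  obtain ⟨n₀, hn₀⟩ := eventually_atTop.1 (key.and (eventually_gt_atTop 0))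
  refine ⟨n₀, fun n hn a h₀ h G d0 d1 hh hG hGm => ?_⟩
  obtain ⟨h1, h2⟩ := hn₀ n hn
  have h3 := h1 (fun o => o.elim 1 fun i => h i - h₀) (a + h₀)
    (fun o u => o.elim 1 fun i => G i u)
    (fun o => by
      cases o with
      | none => exact one_ne_zero
      | some i => exact sub_ne_zero.2 (hh i))
    (fun o => by
      cases o with
      | none => exact degree_one_le.trans_lt (by exact_mod_cast h2)
      | some i => exact (degree_sub_le _ _).trans_lt (max_lt (d1 i) d0))
    (fun o u hu => by
      cases o with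
      | none => simp
      | some i => exact hG i u hu)
    (fun o u v hu hv huv => by
      cases o with
      | none => simp
      | some i => exact hGm i u v hu hv huv)
  have e : {f : k[X] | f.Monic ∧ f.natDegree = n ∧ M ∣ f - a} =
      ((mon k n).filter fun f => M ∣ f - a : Finset k[X]) := by
    ext f
    simp [mem_mon, and_assoc]
  rw [e, finsum_mem_coe_finset, sum_filter, Nat.card_eq_fintype_card]
  refine le_trans (le_of_eq (congrArg norm ?_)) h3
  refine Finset.sum_nbij' (fun f => f + h₀) (fun f => f - h₀) (fun f hf => dec_mem hf d0)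
    (fun f hf => by
      rw [sub_eq_add_neg]
      exact dec_mem hf (by rwa [degree_neg])) (fun f _ => by simp) (fun f _ => by simp)
    fun f _ => ?_
  refine if_congr ?_ ?_ rfl
  · rw [add_sub_add_right_eq_sub]
    exact ((isUnit_C.2 l0.isUnit).mul_right_dvd).symm
  · rw [Fintype.prod_option]
    simp only [Option.elim_none, Option.elim_some, one_mul]
    refine congrArg₂ _ (by simp [lam]) (prod_congr rfl fun i _ => ?_)
    rw [show f + h₀ + (h i - h₀) = f + h i by ring]

end Pool.Agent.K60

end
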