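import Pool.Agent.MP_a4a062_nt.K60.Defs4

/-! h60k row GEN: assembly (paper 6) -/

set_option autoImplicit false

open Polynomial Finset Filter
open scoped Classical BigOperators

noncomputable section
namespace Pool.Agent.K60
open Pool.Agent.H4O

variable {k : Type} [Field k] [Fintype k]

theorem core_tup {D l : ℕ} {P : Fin l → k[X]} (hP : P ∈ tup k D l) :
    (∏ i, P i).Monic ∧ (∏ i, P i).natDegree = dg D l := by
  have h : ∀ i, (P i).Monic ∧ Irreducible (P i) ∧ (P i).natDegree = D + i := fun i =>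
    mem_prs.1 (Fintype.mem_piFinset.1 hP i)
  refine ⟨monic_prod_of_monic _ _ fun i _ => (h i).1, ?_⟩
  rw [natDegree_prod_of_monic _ _ fun i _ => (h i).1]
  exact sum_congr rfl fun i _ => (h i).2.2

theorem core_ne {D : ℕ} (hD : 0 < D) (l : ℕ) : (tup k D l).Nonempty := by
  refine Fintype.piFinset_nonempty.2 fun i => ?_
  have h := card_prs (k := k) (show 0 < D + (i : ℕ) by omega)
  have h0 : 0 < qq k ^ (D + (i : ℕ)) := pow_pos dec_q _
  rw [← card_pos]
  by_contra hn
  rw [show #(prs k (D + i)) = 0 by omega] at h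
  simp at h
  linarith

theorem core_tau {D l : ℕ} {d : k[X]} (hd : ∀ P ∈ tup k D l, ∏ i, P i ∣ d) (u : k[X]) :
    tau D l (u + d) = tau D l u := by
  unfold tau
  congr 1
  exact filter_congr fun P hP => dvd_add_left (hd P hP)

/-- the weight of an edge -/
def genPsi {ι : Type} [Fintype ι] (D l lo hi : ℕ) (g : ι → k[X])
    (β : (Fin l → k[X]) → k[X] → ℝ) (P : Fin l → k[X]) (u : k[X]) : ℝ :=
  if ∏ i, P i ∣ u ∧ tau D l u ≤ hi ∧ ∀ i, lo ≤ tau D l (u + (∏ i, P i) * g i) then β P u else 0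

theorem gen_pt {ι : Type} [Fintype ι] {D l lo hi : ℕ} {g : ι → k[X]}
    {β : (Fin l → k[X]) → k[X] → ℝ} {A : ι → k[X] → ℝ} (hβ : ∀ P u, |β P u| ≤ 1)
    (hA : ∀ i u, |A i u| ≤ 1) (P : Fin l → k[X]) (f : k[X]) (κ : ℝ) :
    β P ((∏ i, P i) * f) * lam ((∏ i, P i) * f) * ∏ i, A i ((∏ i, P i) * f + (∏ i, P i) * g i) ≤
      κ * (genPsi D l lo hi g β P ((∏ i, P i) * f) * lam ((∏ i, P i) * f) *
        ∏ i, A i ((∏ i, P i) * f + (∏ i, P i) * g i)) + |1 - κ| +
      ((if lo ≤ tau D l ((∏ i, P i) * f) ∧ tau D l ((∏ i, P i) * f) ≤ hi then (0 : ℝ) else 1) +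
        ∑ i, if lo ≤ tau D l ((∏ i, P i) * (f + g i)) ∧ tau D l ((∏ i, P i) * (f + g i)) ≤ hi
          then (0 : ℝ) else 1) := by
  set a := ∏ i, P i with ha
  have n1 : (0 : ℝ) ≤ if lo ≤ tau D l (a * f) ∧ tau D l (a * f) ≤ hi then (0 : ℝ) else 1 := by
    split_ifs <;> norm_num
  have n2 : ∀ i, (0 : ℝ) ≤ if lo ≤ tau D l (a * (f + g i)) ∧ tau D l (a * (f + g i)) ≤ hi
      then (0 : ℝ) else 1 := fun i => by split_ifs <;> norm_num
  have n3 := sum_nonneg fun i (_ : i ∈ univ) => n2 i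
  have n4 := abs_nonneg (1 - κ)
  have e1 : |β P (a * f) * lam (a * f) * ∏ i, A i (a * f + a * g i)| ≤ 1 := by
    rw [abs_mul, abs_mul, abs_lam, mul_one, abs_prod]
    exact mul_le_one₀ (hβ _ _) (prod_nonneg fun _ _ => abs_nonneg _)
      (prod_le_one (fun _ _ => abs_nonneg _) fun i _ => hA i _)
  by_cases ht : tau D l (a * f) ≤ hi ∧ ∀ i, lo ≤ tau D l (a * f + a * g i)
  · have e2 : genPsi D l lo hi g β P (a * f) = β P (a * f) := by
      unfold genPsi
      rw [← ha, if_pos ⟨dvd_mul_right _ _, ht⟩]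
    rw [e2]
    have h3 := le_abs_self ((1 - κ) * (β P (a * f) * lam (a * f) * ∏ i, A i (a * f + a * g i)))
    rw [abs_mul] at h3
    have h4 := mul_le_of_le_one_right n4 e1
    linarith
  · have e2 : genPsi D l lo hi g β P (a * f) = 0 := by
      unfold genPsi
      rw [← ha, if_neg fun h => ht h.2]
    rw [e2]
    have h3 := (le_abs_self _).trans e1
    have h4 : (1 : ℝ) ≤
        (if lo ≤ tau D l (a * f) ∧ tau D l (a * f) ≤ hi then (0 : ℝ) else 1) +
        ∑ i, if lo ≤ tau D l (a * (f + g i)) ∧ tau D l (a * (f + g i)) ≤ hi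
          then (0 : ℝ) else 1 := by
      rw [not_and_or, not_forall] at ht
      rcases ht with ht | ⟨i, ht⟩
      · rw [if_neg fun h => ht h.2]
        linarith
      · have := single_le_sum (fun i (_ : i ∈ univ) => n2 i) (mem_univ i)
        rw [if_neg fun h => ht (by rw [← mul_add]; exact h.1)] at this
        linarith
    linarith

/-- the window -/
def coreV {ι : Type} [Fintype ι] (C B : ℕ) (g : ι → k[X]) : Finset k[X] :=
  (box k C ×ˢ Fintype.piFinset fun _ : ι => box k (B + 1)).image fun z => z.1 + ∑ i, z.2 i * g i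

theorem core_box {N : ℕ} {a b : k[X]} (ha : a ∈ box k N) (hb : b ∈ box k N) : a + b ∈ box k N :=
  mem_box.2 ((degree_add_le _ _).trans_lt (max_lt (mem_box.1 ha) (mem_box.1 hb)))

theorem coreV_card {ι : Type} [Fintype ι] (C B : ℕ) (g : ι → k[X]) :
    #(coreV C B g) ≤ #(box k C) * #(box k (B + 1)) ^ Fintype.card ι := by
  refine card_image_le.trans (le_of_eq ?_)
  rw [card_product, Fintype.card_piFinset, prod_const, card_univ]

theorem coreV_sub {ι : Type} [Fintype ι] {C B n : ℕ} {g : ι → k[X]} (hC : C ≤ n + B)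
    (hg : ∀ i, (g i).degree < n) : coreV C B g ⊆ box k (n + B) := by
  intro v hv
  obtain ⟨z, hz, rfl⟩ := mem_image.1 hv
  obtain ⟨z1, z2⟩ := mem_product.1 hz
  refine core_box (box_mono hC z1) (mem_box.2 ((degree_sum_le _ _).trans_lt ?_))
  rw [Finset.sup_lt_iff (WithBot.bot_lt_coe _)]
  intro i _
  rcases eq_or_ne (z.2 i * g i) 0 with e | e
  · rw [e, degree_zero]; exact WithBot.bot_lt_coe _
  have h1 := (natDegree_lt_iff_degree_lt (left_ne_zero_of_mul e)).2
    (mem_box.1 (Fintype.mem_piFinset.1 z2 i))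
  have h2 := (natDegree_lt_iff_degree_lt (right_ne_zero_of_mul e)).2 (hg i)
  have h3 := natDegree_mul_le (p := z.2 i) (q := g i)
  exact (natDegree_lt_iff_degree_lt e).1 (by omega)

theorem coreV_ne {ι : Type} [Fintype ι] (C B : ℕ) (g : ι → k[X]) : (coreV C B g).Nonempty :=
  ((box_nonempty C).product (Fintype.piFinset_nonempty.2 fun _ => box_nonempty _)).image _

theorem coreV_box {ι : Type} [Fintype ι] (C B : ℕ) (g : ι → k[X]) :
    ∀ w ∈ coreV C B g, ∀ t ∈ box k C, w + t ∈ coreV C B g := by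
  intro v hv t ht
  obtain ⟨z, hz, rfl⟩ := mem_image.1 hv
  obtain ⟨z1, z2⟩ := mem_product.1 hz
  exact mem_image.2 ⟨(z.1 + t, z.2), mem_product.2 ⟨core_box z1 ht, z2⟩, by ring⟩

theorem coreV_mul {ι : Type} [Fintype ι] (C B : ℕ) (g : ι → k[X]) {a : k[X]}
    (ha : a.natDegree ≤ B) (i : ι) : ∀ w ∈ coreV C B g, w + a * g i ∈ coreV C B g := by
  intro v hv
  obtain ⟨z, hz, rfl⟩ := mem_image.1 hv
  obtain ⟨z1, z2⟩ := mem_product.1 hz
  refine mem_image.2 ⟨(z.1, fun j => z.2 j + if j = i then a else 0), mem_product.2 ⟨z1,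
    Fintype.mem_piFinset.2 fun j => core_box (Fintype.mem_piFinset.1 z2 j) (mem_box.2 ?_)⟩, ?_⟩
  · split_ifs
    · exact degree_le_natDegree.trans_lt (by exact_mod_cast Nat.lt_succ_of_le ha)
    · simp
  · simp only [add_mul, sum_add_distrib, ite_mul, zero_mul, sum_ite_eq', mem_univ, if_true]
    ring

theorem gen_row (hINT : INTU_s k) (hTYP : TYP2_s k) (hLOC : LOCV_s k) : GEN_s k := by
  intro ι _ _ D₀ ε hε
  have q0 : 0 < qq k := dec_q
  have q1 : 1 < qq k := by linarith [two_le_qq (k := k)]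
  obtain ⟨K, hK⟩ : ∃ K, Fintype.card ι = K + 1 :=
    ⟨Fintype.card ι - 1, by have := Fintype.card_pos (α := ι); omega⟩
  obtain ⟨c, hc, hINT⟩ := hINT
  set e := ε / 6 with he
  have e0 : 0 < e := by positivity
  set θ := e / c with hθ
  have θ0 : 0 < θ := by positivity
  obtain ⟨R, hR⟩ := pow_unbounded_of_one_lt (c * (K + 1) / (θ * e)) (one_lt_two (α := ℝ))
  obtain ⟨D, l, m, hD₀, hTYP⟩ := hTYP K R D₀ (e / (K + 2)) (by positivity)
  have hD : 0 < D := by omega
  refine ⟨D, l, hD₀, fun M hM => ?_⟩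
  set B := dg D l with hB
  obtain ⟨C₀, hC₀⟩ := pow_unbounded_of_one_lt
    (c * (2 ^ ((K + 1) * m) * qq k ^ B) / (θ * e)) q1
  set C := C₀ + B with hC
  set σ := #(box k C) * #(box k (B + 1)) ^ Fintype.card ι with hσ
  set Z := M * ∏ P ∈ tup k D l, ∏ i, P i with hZ
  have Zm : Z.Monic := hM.mul (monic_prod_of_monic _ _ fun P hP => (core_tup hP).1)
  have Zd : ∀ P ∈ tup k D l, ∏ i, P i ∣ Z := fun P hP =>
    (dvd_prod_of_mem (fun P : Fin l → k[X] => ∏ i, P i) hP).mul_left M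
  set Ex := Real.exp (θ * (#(tup k D l) * σ)) with hEx
  have Ex0 : 0 < Ex := Real.exp_pos _
  obtain ⟨J, hJ, hW⟩ := hINT Z σ (e / qq k ^ B) (1 / Ex) Zm (by positivity) (by positivity)
  filter_upwards [hTYP, (tendsto_add_atTop_nat B).eventually hW,
    eventually_ge_atTop C] with n hT hW hn g β G hg gn hβ hβp hG
  set V := coreV C B g with hV
  have V1 : V ⊆ box k (n + B) := coreV_sub (by omega) gn
  have V2 : #V ≤ σ := coreV_card C B g
  obtain ⟨W, T, d, η, Tne, W1, W3, W2, η0, η1, η2⟩ := hW V V1 V2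
  have tne := core_ne (k := k) hD l
  set ψ := genPsi D l (2 ^ (K * m + R)) (2 ^ ((K + 1) * m)) g β with hψ
  have ψ1 : ∀ P u, |ψ P u| ≤ 1 := fun P u => by
    simp only [hψ, genPsi]
    split_ifs
    · exact hβ _ _
    · simp
  have ψ2 : ∀ P u, ψ P u ≠ 0 → ∏ i, P i ∣ u ∧ tau D l u ≤ 2 ^ ((K + 1) * m) ∧
      ∀ i, 2 ^ (K * m + R) ≤ tau D l (u + (∏ i, P i) * g i) := fun P u h => by
    simp only [hψ, genPsi] at h
    exact (ite_ne_right_iff.1 h).1
  have ψ3 : ∀ P ∈ tup k D l, ∀ u d, Z ∣ d → ψ P (u + d) = ψ P u := fun P hP u d hd => by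
    have hd' : ∀ P ∈ tup k D l, ∏ i, P i ∣ d := fun P hP => (Zd P hP).trans hd
    simp only [hψ, genPsi]
    refine if_congr (and_congr ?_ (and_congr ?_ (forall_congr' fun i => ?_)))
      (hβp P hP u d ((dvd_mul_right _ _).trans hd)) rfl
    · exact dvd_add_left (hd' P hP)
    · rw [core_tau hd']
    · rw [add_right_comm, core_tau hd']
  set Φ : Fin J → (Fin l → k[X]) → k[X] → ℝ := fun j P u =>
    ψ P u * W j u * lam u * ∏ i, G i (u + (∏ i, P i) * g i) with hΦ
  -- the main terms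
  have main : ∀ j, c * 𝔼 P ∈ tup k D l, 𝔼 f ∈ mon k n, Φ j P ((∏ i, P i) * f) ≤ 4 * e := by
    intro j
    have e1 : ∀ P ∈ tup k D l, 𝔼 f ∈ mon k n, Φ j P ((∏ i, P i) * f) =
        qq k ^ B * 𝔼 x ∈ mon k (n + B), 𝔼 s ∈ T, 𝔼 w ∈ V,
          ψ P (x + w) * W j (x + w) * lam (x + w + d j s) *
            ∏ i, G i (x + d j s + (w + (∏ i, P i) * g i)) := by
      intro P hP
      obtain ⟨am, ad⟩ := core_tup hP
      rw [exp_mon_mul am, ad]
      congr 1
      rw [expect_congr rfl fun u _ => (show (if ∏ i, P i ∣ u then Φ j P u else 0) = Φ j P u by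
        split_ifs with h
        · rfl
        · have : ψ P u = 0 := by_contra fun h' => h (ψ2 P u h').1
          simp only [hΦ, this, zero_mul]), expect_comm,
        ← expect_const Tne (𝔼 u ∈ mon k (n + B), Φ j P u)]
      refine expect_congr rfl fun s hs => ?_
      rw [expect_comm, ← expect_const (coreV_ne C B g) (𝔼 u ∈ mon k (n + B), Φ j P u)]
      refine expect_congr rfl fun w hw => ?_
      have w1 : w.degree < (n + B : ℕ) := mem_box.1 (V1 hw)
      obtain ⟨zd, d1, d2⟩ := W2 j s hs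
      rw [← exp_mon_shift d1, ← exp_mon_shift w1]
      refine expect_congr rfl fun x hx => ?_
      simp only [hΦ]
      rw [ψ3 P hP _ _ zd, d2 _ (dec_mem hx w1)]
      congr 1
      exact prod_congr rfl fun i _ => by congr 1; ring
    have e2 : ∀ x ∈ mon k (n + B), θ * (qq k ^ B * 𝔼 s ∈ T, 𝔼 P ∈ tup k D l, 𝔼 w ∈ V,
        ψ P (x + w) * W j (x + w) * lam (x + w + d j s) *
          ∏ i, G i (x + d j s + (w + (∏ i, P i) * g i))) ≤
        (K + 1) / 2 ^ R + θ ^ 2 + 2 ^ ((K + 1) * m) * qq k ^ B / qq k ^ C * (1 + η j x * Ex) :=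
      fun x hx => (hLOC ι K D l m R C g T V x (fun P w => ψ P (x + w)) (fun w => W j (x + w))
        (fun s w => lam (x + w + d j s)) (fun s i w => G i (x + d j s + w)) θ (η j x) hK hD hg
        (by omega) (coreV_ne C B g) (coreV_box C B g)
        (fun w hw P hP i => coreV_mul C B g (core_tup hP).2.le i w hw)
        Tne θ0 (η0 j x) (fun P w => ψ1 _ _) (fun P w => ψ2 _ _) (fun w => W1 _ _)
        (fun s w => dec_lam _) (fun s i w => hG _ _) (η2 j x hx)).trans (by
          have h1 : (#V : ℝ) ≤ σ := by exact_mod_cast V2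
          have h2 := η0 j x
          rw [hEx]
          gcongr)
    have e3 := expect_le_expect e2
    rw [expect_add_distrib, expect_const (mon_nonempty _), ← mul_expect, ← mul_expect,
      ← mul_expect, expect_add_distrib, expect_const (mon_nonempty _), ← expect_mul] at e3
    rw [expect_congr rfl e1, ← mul_expect, expect_comm,
      expect_congr rfl fun x _ => expect_comm (tup k D l) T _]
    set Y := qq k ^ B * 𝔼 x ∈ mon k (n + B), 𝔼 s ∈ T, 𝔼 P ∈ tup k D l, 𝔼 w ∈ V,
        ψ P (x + w) * W j (x + w) * lam (x + w + d j s) *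
          ∏ i, G i (x + d j s + (w + (∏ i, P i) * g i)) with hY
    have b1 : (𝔼 x ∈ mon k (n + B), η j x) * Ex ≤ 1 := (le_div_iff₀ Ex0).1 (η1 j)
    have b2 : c * ((K + 1) / 2 ^ R) ≤ θ * e := by
      rw [div_lt_iff₀ (by positivity)] at hR
      rw [← mul_div_assoc, div_le_iff₀ (by positivity)]
      linarith
    have b3 : c * (2 ^ ((K + 1) * m) * qq k ^ B / qq k ^ C) ≤ θ * e := by
      rw [div_lt_iff₀ (by positivity)] at hC₀
      rw [← mul_div_assoc, div_le_iff₀ (by positivity)]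
      refine hC₀.le.trans ?_
      rw [mul_comm]
      exact mul_le_mul_of_nonneg_left (pow_le_pow_right₀ q1.le (by omega)) (by positivity)
    have b4 : c * θ = e := by rw [hθ]; field_simp
    have b5 : c * (2 ^ ((K + 1) * m) * qq k ^ B / qq k ^ C *
        (1 + (𝔼 x ∈ mon k (n + B), η j x) * Ex)) ≤ θ * e * 2 := by
      rw [← mul_assoc]
      exact mul_le_mul b3 (by linarith) (by
        have := mul_nonneg (expect_nonneg fun x (_ : x ∈ mon k (n + B)) => η0 j x) Ex0.le
        linarith) (by positivity)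
    have b6 := mul_le_mul_of_nonneg_left e3 hc.le
    refine le_of_mul_le_mul_left ?_ θ0
    have b7 : c * θ ^ 2 = θ * e := by rw [← b4]; ring
    rw [mul_add, mul_add, b7] at b6
    linarith
  -- the error terms
  have hJ' : (0 : ℝ) < J := by exact_mod_cast hJ
  have err : ∀ P ∈ tup k D l,
      𝔼 f ∈ mon k n, β P ((∏ i, P i) * f) * lam ((∏ i, P i) * f) *
          ∏ i, G i ((∏ i, P i) * f + (∏ i, P i) * g i) ≤
        (∑ j, c * 𝔼 f ∈ mon k n, Φ j P ((∏ i, P i) * f)) / J + 2 * e := by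
    intro P hP
    obtain ⟨am, ad⟩ := core_tup hP
    have h1 := expect_le_expect fun f (_ : f ∈ mon k n) =>
      gen_pt (D := D) (lo := 2 ^ (K * m + R)) (hi := 2 ^ ((K + 1) * m)) (g := g) hβ hG P f
        (c * (∑ j, W j ((∏ i, P i) * f)) / J)
    rw [expect_add_distrib, expect_add_distrib, expect_add_distrib,
      expect_sum_comm] at h1
    have h2 : 𝔼 f ∈ mon k n, |1 - c * (∑ j, W j ((∏ i, P i) * f)) / J| ≤ e := by
      rw [exp_mon_mul am fun u => |1 - c * (∑ j, W j u) / J|, ad]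
      rw [le_div_iff₀ (by positivity), mul_comm] at W3
      refine le_trans (mul_le_mul_of_nonneg_left (expect_le_expect fun u _ => ?_)
        (by positivity)) W3
      split_ifs
      · exact le_rfl
      · exact abs_nonneg _
    have h3 := hT P hP
    have h4 : ∑ i, 𝔼 f ∈ mon k n, (if 2 ^ (K * m + R) ≤ tau D l ((∏ i, P i) * (f + g i)) ∧
        tau D l ((∏ i, P i) * (f + g i)) ≤ 2 ^ ((K + 1) * m) then (0 : ℝ) else 1) ≤
        (K + 1) * (e / (K + 2)) := by
      refine (sum_le_card_nsmul _ _ (e / (K + 2)) fun i _ => ?_).trans ?_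
      · rw [exp_mon_shift (gn i) fun f => if 2 ^ (K * m + R) ≤ tau D l ((∏ i, P i) * f) ∧
          tau D l ((∏ i, P i) * f) ≤ 2 ^ ((K + 1) * m) then (0 : ℝ) else 1]
        exact h3
      · rw [card_univ, hK, nsmul_eq_mul]
        push_cast
        exact le_rfl
    have h5 : e / (K + 2) + (K + 1) * (e / (K + 2)) = e := by field_simp; ring
    have h6 : 𝔼 f ∈ mon k n, c * (∑ j, W j ((∏ i, P i) * f)) / J *
        (ψ P ((∏ i, P i) * f) * lam ((∏ i, P i) * f) *
          ∏ i, G i ((∏ i, P i) * f + (∏ i, P i) * g i)) =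
        (∑ j, c * 𝔼 f ∈ mon k n, Φ j P ((∏ i, P i) * f)) / J := by
      simp only [mul_expect]
      rw [← expect_sum_comm, expect_div]
      refine expect_congr rfl fun f _ => ?_
      simp only [hΦ]
      rw [mul_sum, div_mul_eq_mul_div, sum_mul]
      congr 1
      exact sum_congr rfl fun j _ => by ring
    rw [h6] at h1
    linarith
  have fin := expect_le_expect err
  rw [expect_add_distrib, expect_const tne, ← expect_div, expect_sum_comm] at fin
  have f2 : ∑ j, 𝔼 P ∈ tup k D l, c * 𝔼 f ∈ mon k n, Φ j P ((∏ i, P i) * f) ≤ J * (4 * e) := by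
    refine (sum_le_card_nsmul _ _ (4 * e) fun j _ => ?_).trans ?_
    · rw [← mul_expect]
      exact main j
    · simp
  have f3 : (∑ j, 𝔼 P ∈ tup k D l, c * 𝔼 f ∈ mon k n, Φ j P ((∏ i, P i) * f)) / J ≤ 4 * e := by
    rw [div_le_iff₀ hJ', mul_comm]
    exact f2
  linarith

end Pool.Agent.K60

end
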