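import Pool.Agent.MP_a4a062_nt.K60.Defs3

/-! h60k row INDU: averaging the line bound, uniformly in the shifts. -/

set_option autoImplicit false

open Polynomial Finset Filter
open scoped Classical BigOperators

noncomputable section
namespace Pool.Agent.K60
open Pool.Agent.H4O

variable {k : Type} [Field k] [Fintype k]

theorem indu_row (p : ℕ) [Fact p.Prime] [CharP k p] (h2 : p ≠ 2) (hl : LINEU_s k p)
    (hsep : SEP_s k p) : INDU_s k p := by
  intro L γ σ ε hL hε
  have _ := h2
  have hq := two_le_qq (k := k)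
  have hε3 : 0 < ε / 3 := by positivity
  have hε' : 0 < ε / 3 / ((σ : ℝ) ^ 2 + 1) := by positivity
  obtain ⟨L₀, hL₀⟩ := pow_unbounded_of_one_lt (12 * σ / ε) (by linarith : 1 < qq k)
  filter_upwards [hl L γ σ L₀ (ε / 3) hL hε3, hsep γ _ hε'] with n hn hs y V y0 hy hV hσ ht
  set b : k[X] → ℝ := fun f => if Big L₀ f then 1 else 0 with hb
  have b0 : ∀ f, 0 ≤ b f := fun f => by simp only [hb]; split_ifs <;> norm_num
  set c : k[X] → k[X] → ℝ := fun E x => if ∃ π : k[X], Irreducible π ∧ n / p ≤ 2 * π.natDegree ∧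
    π.natDegree ≤ n / p ∧ π ∣ derivative (x * y) ∧ π ∣ E then 1 else 0 with hc
  have c0 : ∀ E x, 0 ≤ c E x := fun E x => by simp only [hc]; split_ifs <;> norm_num
  have hσ' : (#V : ℝ) ≤ σ := by exact_mod_cast hσ
  have B0 : ∀ x, 0 ≤ 𝔼 s ∈ box k (n / p - γ), ∑ w ∈ V, b (x + w + y ^ (p - 1) * s ^ p) :=
    fun x => expect_nonneg fun s _ => sum_nonneg fun w _ => b0 _
  have C0 : ∀ x, 0 ≤ ∑ w ∈ V, ∑ w' ∈ V.erase w, c (derivative ((w - w') * y)) (x + w) :=
    fun x => sum_nonneg fun w _ => sum_nonneg fun w' _ => c0 _ _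
  refine ⟨fun x => ε / 3 + 2 * (𝔼 s ∈ box k (n / p - γ),
    ∑ w ∈ V, b (x + w + y ^ (p - 1) * s ^ p)) +
      ∑ w ∈ V, ∑ w' ∈ V.erase w, c (derivative ((w - w') * y)) (x + w), fun x => ?_, ?_,
    fun x hx S hS hne hG => ?_⟩
  · have := B0 x
    have := C0 x
    positivity
  · have e2 : ∀ s ∈ box k (n / p - γ), 𝔼 x ∈ mon k n,
        ∑ w ∈ V, b (x + w + y ^ (p - 1) * s ^ p) ≤ σ * (2 / qq k ^ L₀) := by
      intro s hs
      obtain ⟨f₀, hf₀⟩ := mon_nonempty (k := k) n
      rw [expect_sum_comm]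
      refine (sum_le_card_nsmul _ _ (2 / qq k ^ L₀) fun w hw => ?_).trans ?_
      · have hd : (w + y ^ (p - 1) * s ^ p).degree < n := (degree_add_le _ _).trans_lt
          (max_lt (mem_box.1 (hV hw)) (line_mem hy hf₀ hs).2)
        simp only [add_assoc]
        rw [exp_mon_shift hd b]
        exact exp_big n L₀
      · rw [nsmul_eq_mul]
        exact mul_le_mul_of_nonneg_right hσ' (by positivity)
    have e4 : 𝔼 x ∈ mon k n, ∑ w ∈ V, ∑ w' ∈ V.erase w, c (derivative ((w - w') * y)) (x + w) ≤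
        ε / 3 := by
      rw [expect_sum_comm]
      refine (sum_le_card_nsmul _ _ (σ * (ε / 3 / ((σ : ℝ) ^ 2 + 1))) fun w hw => ?_).trans ?_
      · rw [expect_sum_comm]
        refine (sum_le_card_nsmul _ _ (ε / 3 / ((σ : ℝ) ^ 2 + 1)) fun w' hw' => ?_).trans ?_
        · obtain ⟨ne, hw'⟩ := mem_erase.1 hw'
          rw [exp_mon_shift (mem_box.1 (hV hw)) (c (derivative ((w - w') * y)))]
          refine hs y _ y0.ne_zero hy (ht w hw w' hw' ne.symm) ?_
          have d1 : (w - w').natDegree ≤ n := natDegree_le_of_degree_le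
            ((degree_sub_le _ _).trans (max_lt (mem_box.1 (hV hw)) (mem_box.1 (hV hw'))).le)
          have d2 := natDegree_derivative_le ((w - w') * y)
          have d3 : ((w - w') * y).natDegree ≤ _ := natDegree_mul_le
          omega
        · rw [nsmul_eq_mul]
          refine mul_le_mul_of_nonneg_right (le_trans ?_ hσ') hε'.le
          exact_mod_cast card_erase_le
      · rw [nsmul_eq_mul]
        refine (mul_le_mul_of_nonneg_right hσ' (by positivity)).trans ?_
        rw [← mul_assoc, ← mul_div_assoc, div_le_iff₀ (by positivity)]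
        nlinarith
    rw [expect_add_distrib, expect_add_distrib, expect_const (mon_nonempty n), ← mul_expect,
      expect_comm]
    have e3 := (expect_le_expect e2).trans (expect_const (box_nonempty _) _).le
    have h0 : 0 < qq k ^ L₀ := by positivity
    rw [div_lt_iff₀ hε] at hL₀
    have : 2 * (σ * (2 / qq k ^ L₀)) ≤ ε / 3 := by
      rw [show 2 * (σ * (2 / qq k ^ L₀)) = 4 * σ / qq k ^ L₀ by ring, div_le_iff₀ h0]
      linarith
    linarith
  · by_cases H : ∀ w ∈ S, ∀ w' ∈ S, w ≠ w' → ∀ π : k[X], Irreducible π →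
        n / p ≤ 2 * π.natDegree → π.natDegree ≤ n / p → π ∣ derivative ((x + w) * y) →
          ¬ π ∣ derivative ((x + w') * y)
    · refine (hn y x S y0 hy hx (hS.trans hV) ((card_le_card hS).trans hσ) hne hG H).trans ?_
      have h5 : 𝔼 s ∈ box k (n / p - γ), ∑ w ∈ S, b (x + w + y ^ (p - 1) * s ^ p) ≤
          𝔼 s ∈ box k (n / p - γ), ∑ w ∈ V, b (x + w + y ^ (p - 1) * s ^ p) :=
        expect_le_expect fun s _ => sum_le_sum_of_subset_of_nonneg hS fun w _ _ => b0 _
      have := C0 x
      simp only [hb] at h5 ⊢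
      linarith
    · simp only [not_forall, not_not] at H
      obtain ⟨w, hw, w', hw', ne, π, p1, p2, p3, p4, p5⟩ := H
      have h5 : c (derivative ((w - w') * y)) (x + w) = 1 := by
        refine if_pos ⟨π, p1, p2, p3, p4, ?_⟩
        rw [show (w - w') * y = (x + w) * y - (x + w') * y by ring, derivative_sub]
        exact dvd_sub p4 p5
      have h6 : (1 : ℝ) ≤ ∑ w ∈ V, ∑ w' ∈ V.erase w, c (derivative ((w - w') * y)) (x + w) := by
        refine le_trans ?_ (single_le_sum (f := fun w => ∑ w' ∈ V.erase w,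
          c (derivative ((w - w') * y)) (x + w)) (fun w _ => sum_nonneg fun w' _ => c0 _ _) (hS hw))
        rw [← h5]
        exact single_le_sum (f := fun w' => c (derivative ((w - w') * y)) (x + w))
          (fun w' _ => c0 _ _) (mem_erase.2 ⟨fun e => ne e.symm, hS hw'⟩)
      have h7 : |𝔼 s ∈ box k (n / p - γ), ∏ w ∈ S, lam (x + w + y ^ (p - 1) * s ^ p)| ≤ 1 :=
        v27_abs_le _ _ fun s _ => by
          rw [abs_prod]
          exact (prod_eq_one fun w _ => abs_lam _).le
      have := B0 x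
      linarith

end Pool.Agent.K60

end
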