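import Pool.Agent.MP_a4a062_nt.K60.Defs3

/-! h60k row INTU, odd characteristic. -/

set_option autoImplicit false

open Polynomial Finset Filter
open scoped Classical BigOperators

noncomputable section
namespace Pool.Agent.K60
open Pool.Agent.H4O

variable {k : Type} [Field k] [Fintype k]

omit [Fintype k] in
theorem intu1_card {M : ℕ} (y : Fin M → k[X]) (V : Finset k[X])
    (hy : ∀ t : k[X], t ≠ 0 → ∀ i j, derivative (t * y i) = 0 → derivative (t * y j) = 0 → i = j) :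
    #{j : Fin M | ∃ w ∈ V, ∃ w' ∈ V, w ≠ w' ∧ derivative ((w - w') * y j) = 0} ≤ #V * #V := by
  rw [← card_product]
  refine Finset.card_le_card_of_forall_subsingleton
    (fun (j : Fin M) (z : k[X] × k[X]) => z.1 ≠ z.2 ∧ derivative ((z.1 - z.2) * y j) = 0)
    (fun j hj => ?_) (fun z _ i hi j hj => ?_)
  · obtain ⟨w, hw, w', hw', h⟩ := (mem_filter.1 hj).2
    exact ⟨(w, w'), mem_product.2 ⟨hw, hw'⟩, h⟩
  · exact hy _ (sub_ne_zero.2 hi.2.1) i j hi.2.2 hj.2.2

theorem intu1_sum {M : ℕ} (B : Fin M → Prop) (a : Fin M → ℝ) (ha : ∀ j, |a j| ≤ 1) :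
    |(∑ j, a j) - ∑ j, if B j then 0 else a j| ≤ #{j : Fin M | B j} := by
  rw [← Finset.sum_sub_distrib, Finset.card_filter]
  push_cast
  refine (Finset.abs_sum_le_sum_abs _ _).trans (Finset.sum_le_sum fun j _ => ?_)
  split_ifs
  · rw [sub_zero]; exact ha j
  · rw [sub_self, abs_zero]

theorem intu_odd (p : ℕ) [Fact p.Prime] [CharP k p] (hW : WTU_s k p) (hI : INDU_s k p) :
    INTU_s k := by
  have hpp : p.Prime := Fact.out
  have hp2 : 2 ≤ p := hpp.two_le
  obtain ⟨L, c, hL, hc, hW⟩ := hW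
  refine ⟨c, hc, fun Z σ ε η₀ hZ hε hη => ?_⟩
  obtain ⟨J₀, hJ₀⟩ := exists_nat_ge (2 * c * (σ * σ) / ε)
  obtain ⟨M, γ, y, hM, hy, hy1, hW⟩ := hW Z J₀ (ε / 2) hZ (half_pos hε)
  have hM0 : 0 < M := by omega
  refine ⟨M, hM0, ?_⟩
  have hev : ∀ᶠ n : ℕ in atTop, γ < n / p := by
    filter_upwards [eventually_ge_atTop ((γ + 1) * p)] with n hn
    exact (Nat.le_div_iff_mul_le hpp.pos).2 hn
  filter_upwards [hW, hI L γ σ η₀ hL hη, hev] with n hn hi hbig V hV hσ
  obtain ⟨W, hW1, hWt, hWm⟩ := hn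
  obtain ⟨B, hB⟩ : ∃ B : Fin M → Prop, ∀ j, B j ↔
      ∃ w ∈ V, ∃ w' ∈ V, w ≠ w' ∧ derivative ((w - w') * y j) = 0 := ⟨_, fun _ => Iff.rfl⟩
  have hex : ∀ j, ∃ η : k[X] → ℝ, (∀ x, 0 ≤ η x) ∧ 𝔼 x ∈ mon k n, η x ≤ η₀ ∧ (¬ B j →
      ∀ x ∈ mon k n, ∀ S : Finset k[X], S ⊆ V → S.Nonempty →
        (∀ w ∈ S, Good2 (n / p) (n / p / L) (derivative ((x + w) * y j))) →
        |𝔼 s ∈ box k (n / p - γ), ∏ w ∈ S, lam (x + w + y j ^ (p - 1) * s ^ p)| ≤ η x) := by
    intro j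
    by_cases hj : B j
    · exact ⟨fun _ => 0, fun _ => le_rfl, by simpa using hη.le, fun h => absurd hj h⟩
    · obtain ⟨η, h1, h2, h3⟩ := hi (y j) V (hy j).1 (hy j).2.1 hV hσ
        fun w hw w' hw' hne h0 => hj ((hB j).2 ⟨w, hw, w', hw', hne, h0⟩)
      exact ⟨η, h1, h2, fun _ => h3⟩
  choose η hη0 hηm hηS using hex
  have hcard : (#{j : Fin M | B j} : ℝ) ≤ σ * σ := by
    have h1 := intu1_card y V hy1
    rw [← Finset.filter_congr fun j _ => hB j] at h1
    exact_mod_cast h1.trans (Nat.mul_le_mul hσ hσ)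
  have hMr : (0 : ℝ) < M := by exact_mod_cast hM0
  have hsm : c * (σ * σ) / M ≤ ε / 2 := by
    have h1 : (J₀ : ℝ) ≤ M := by exact_mod_cast hM.le
    rw [div_le_iff₀ hε] at hJ₀
    rw [div_le_iff₀ hMr]
    nlinarith [mul_le_mul_of_nonneg_right h1 hε.le]
  refine ⟨fun j f => if B j then 0 else W j f, box k (n / p - γ),
    fun j s => y j ^ (p - 1) * s ^ p, η, box_nonempty _, fun j f => ?_, ?_,
    fun j s hs => ⟨?_, wt_line (hy j).2.1 hbig hs, fun f hf => ?_⟩,
    hη0, hηm, fun j x hx S hS hne hw => ?_⟩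
  · beta_reduce
    split_ifs
    · simp
    · exact hW1 j f
  · have h1 : ∀ f ∈ mon k n, |1 - c * (∑ j, if B j then 0 else W j f) / M| ≤
        |1 - c * (∑ j, W j f) / M| + ε / 2 := by
      intro f _
      have h2 := (intu1_sum B (fun j => W j f) fun j => hW1 j f).trans hcard
      have e : 1 - c * (∑ j, if B j then 0 else W j f) / M = (1 - c * (∑ j, W j f) / M) +
          c * ((∑ j, W j f) - ∑ j, if B j then 0 else W j f) / M := by ring
      rw [e]
      refine (abs_add_le _ _).trans (add_le_add le_rfl (le_trans ?_ hsm))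
      rw [abs_div, abs_mul, abs_of_pos hc, abs_of_pos hMr]
      gcongr
    refine (Finset.expect_le_expect h1).trans ?_
    rw [Finset.expect_add_distrib, Finset.expect_const (mon_nonempty n)]
    linarith
  · exact Dvd.dvd.mul_right ((hy j).2.2.trans (dvd_pow_self _ (by omega))) _
  · beta_reduce
    rw [(hWt j).1 f hf s hs]
  · have hj : ¬ B j := by
      obtain ⟨w, hw0⟩ := hne
      intro h
      exact hw w hw0 (if_pos h)
    refine hηS j hj x hx S hS hne fun w hwS => ?_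
    have h1 := hw w hwS
    simp only [if_neg hj] at h1
    exact (hWt j).2 _ (wt_mon hx (mem_box.1 (hV (hS hwS)))) h1

end Pool.Agent.K60

end
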