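import Pool.Agent.MP_a4a062_nt.K60.Defs3
import Pool.Agent.MP_a4a062_nt.C2.P4

/-! h60k: row INTU in characteristic two. -/

set_option autoImplicit false

open Polynomial Finset Filter
open scoped Classical BigOperators

noncomputable section
namespace Pool.Agent.K60
open Pool.Agent.H4O

variable {k : Type} [Field k] [Fintype k]

omit [Fintype k] in
theorem intu2_deg {Z s : k[X]} (hZ : Z.Monic) {n : ℕ} (hn : Z.natDegree ≤ n)
    (hs : s.degree < (n - Z.natDegree : ℕ)) : (Z * s).degree < n := by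
  by_cases h0 : s = 0
  · subst h0; simp
  · rw [degree_eq_natDegree h0, Nat.cast_lt] at hs
    rw [degree_eq_natDegree (mul_ne_zero hZ.ne_zero h0), hZ.natDegree_mul' h0, Nat.cast_lt]
    omega

theorem intu2_sum {Z x : k[X]} (hZ : Z.Monic) {n : ℕ} (hn : Z.natDegree ≤ n) (hx : x ∈ mon k n)
    (F : k[X] → ℝ) :
    ∑ s ∈ box k (n - Z.natDegree), F (x + Z * s) =
      ∑ f ∈ mon k n, (if Z ∣ f - x then 1 else 0) * F f := by
  obtain ⟨hm, hd⟩ := mem_mon.1 hx
  have hxd : x.degree = n := by rw [degree_eq_natDegree hm.ne_zero, hd]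
  have e : ∑ f ∈ mon k n, (if Z ∣ f - x then 1 else 0) * F f =
      ∑ f ∈ {f ∈ mon k n | Z ∣ f - x}, F f := by
    rw [sum_filter]
    exact sum_congr rfl fun f _ => by split_ifs <;> simp
  rw [e]
  refine sum_bij (fun s _ => x + Z * s) (fun s hs => ?_) (fun s _ t _ h => ?_) (fun f hf => ?_)
    fun _ _ => rfl
  · have h1 : (Z * s).degree < x.degree := hxd ▸ intu2_deg hZ hn (mem_box.1 hs)
    refine mem_filter.2 ⟨mem_mon.2 ⟨hm.add_of_left h1, ?_⟩, ⟨s, by ring⟩⟩
    rw [natDegree_add_eq_left_of_degree_lt h1, hd]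
  · exact mul_left_cancel₀ hZ.ne_zero (add_left_cancel h)
  · obtain ⟨hf1, s, hs⟩ := mem_filter.1 hf
    obtain ⟨fm, fd⟩ := mem_mon.1 hf1
    have hfd : f.degree = n := by rw [degree_eq_natDegree fm.ne_zero, fd]
    have hlt : (f - x).degree < n := by
      have := degree_sub_lt_left (hfd.trans hxd.symm) fm.ne_zero (fm.leadingCoeff.trans hm.leadingCoeff.symm)
      rwa [hfd] at this
    refine ⟨s, mem_box.2 ?_, by rw [← hs]; ring⟩
    by_cases h0 : s = 0
    · subst h0; simp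
    · rw [hs, degree_eq_natDegree (mul_ne_zero hZ.ne_zero h0), hZ.natDegree_mul' h0,
        Nat.cast_lt] at hlt
      rw [degree_eq_natDegree h0, Nat.cast_lt]
      omega

theorem intu_two [CharP k 2] : INTU_s k := by
  refine ⟨1, one_pos, fun Z σ ε η₀ hZ hε hη => ⟨1, one_pos, ?_⟩⟩
  have q0 : (0 : ℝ) < qq k := by
    unfold qq
    exact_mod_cast Fintype.card_pos
  have hη' : 0 < η₀ / qq k ^ Z.natDegree := by positivity
  have hall : ∀ᶠ n in atTop, ∀ K ∈ Icc 1 σ, ∀ (h : Fin K → k[X]) (a : k[X]),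
      Function.Injective h → (∀ j, (h j).degree < (n : ℕ)) →
      |Pool.Agent.MP_a4a062_nt.C2.cor h Z a n| ≤ η₀ / qq k ^ Z.natDegree :=
    (eventually_all_finset _).2 fun K hK =>
      Pool.Agent.MP_a4a062_nt.C2.cor_le K (mem_Icc.1 hK).1 hZ.ne_zero hη'
  filter_upwards [hall, eventually_ge_atTop Z.natDegree] with n h1 h2 V hV hσ
  refine ⟨fun _ _ => 1, box k (n - Z.natDegree), fun _ s => Z * s, fun _ _ => η₀, box_nonempty _,
    fun _ _ => by simp, ?_, fun _ s hs => ⟨dvd_mul_right _ _, intu2_deg hZ h2 (mem_box.1 hs),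
      fun _ _ => rfl⟩, fun _ _ => hη.le, fun _ => ?_, fun _ x hx S hS hne _ => ?_⟩
  · simp [hε.le]
  · rw [expect_const ⟨X ^ n, mem_mon.2 ⟨monic_X_pow n, natDegree_X_pow n⟩⟩]
  · let e := S.equivFin.symm
    have hK : #S ∈ Icc 1 σ := mem_Icc.2 ⟨card_pos.2 hne, (card_le_card hS).trans hσ⟩
    have hb := h1 #S hK (fun j => (e j : k[X])) x
      (fun i j hij => e.injective (Subtype.ext hij)) fun j => mem_box.1 (hV (hS (e j).2))
    have hp : ∀ f : k[X], ∏ w ∈ S, lam (f + w) = ∏ j : Fin #S, lam (f + (e j : k[X])) := fun f => by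
      rw [← prod_coe_sort S, ← e.prod_comp]
    have hc : Pool.Agent.MP_a4a062_nt.C2.cor (fun j => (e j : k[X])) Z x n =
        𝔼 f ∈ mon k n, (if Z ∣ f - x then 1 else 0) * ∏ j : Fin #S, lam (f + (e j : k[X])) := rfl
    rw [hc, expect_eq_sum_div_card, card_mon,
      ← intu2_sum hZ h2 hx fun f => ∏ j : Fin #S, lam (f + (e j : k[X])), abs_div,
      abs_of_pos (a := qq k ^ n) (by positivity), div_le_iff₀ (by positivity)] at hb
    rw [expect_eq_sum_div_card, card_box, abs_div,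
      abs_of_pos (a := qq k ^ (n - Z.natDegree)) (by positivity), div_le_iff₀ (by positivity)]
    have e1 : ∑ s ∈ box k (n - Z.natDegree), ∏ w ∈ S, lam (x + w + Z * s) =
        ∑ s ∈ box k (n - Z.natDegree), ∏ j : Fin #S, lam (x + Z * s + (e j : k[X])) :=
      sum_congr rfl fun s _ => by
        rw [← hp]
        exact prod_congr rfl fun w _ => by rw [add_right_comm]
    rw [e1]
    refine hb.trans_eq ?_
    rw [pow_sub₀ _ q0.ne' h2]
    field_simp

end Pool.Agent.K60

end
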