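import Pool.Agent.MP_a4a062_nt.K60.Defs

/-! h60k rows LB2 and IND: differencing with arbitrary periodic factors, and averaging. -/

set_option autoImplicit false

open Polynomial Finset Filter
open scoped Classical BigOperators

noncomputable section
namespace Pool.Agent.K60
open Pool.Agent.H4O

variable {k : Type} [Field k] [Fintype k]

theorem lb2_row (p : ℕ) [Fact p.Prime] [CharP k p] (h2 : p ≠ 2) : LB2_s k p := by
  intro ι _ π y f N T h F Z hπ hi hy hF1 hF2 hZ1 hZ2 hN h1 h3
  have := Fact.mk hi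
  have hq1 : (1 : ℝ) ≤ Fintype.card k := by exact_mod_cast Fintype.card_pos
  have hΩ : ∀ s, s ∈ box k N ↔ s.degree < N := fun s => mem_box
  have hV : ∀ v, v ∈ box k h ↔ v.degree < (h : WithBot ℕ) := fun v => mem_box
  let e : Fin (Fintype.card ι) ≃ ι := (Fintype.equivFin ι).symm
  set r := Fintype.card ι with hr
  set g := y ^ (p - 1) with hg
  let A := AdjoinRoot π
  let mk : k[X] →+* A := AdjoinRoot.mk π
  let lf : A → k[X] := Function.surjInv (AdjoinRoot.mk_surjective (g := π))
  have hlf : ∀ a, mk (lf a) = a := Function.surjInv_eq _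
  let Ψ : A → k[X] → ℝ := fun a s => H48P.jac π (f + g * (s + lf a) ^ p)
  have cg : ∀ u v : k[X], mk u = mk v →
      H48P.jac π (f + g * u ^ p) = H48P.jac π (f + g * v ^ p) :=
    fun u v e => H48P.jac_congr hπ (AdjoinRoot.mk_eq_mk.1 (by
      change mk _ = mk _
      simp only [map_add, map_mul, map_pow, e]))
  have main := vdc_list (box k N) (box k h) (box_nonempty h)
    (fun v hv w hw => (hV _).2 ((degree_sub_le _ _).trans_lt (max_lt ((hV _).1 hv) ((hV _).1 hw))))
    Ψ (fun a x => H48P.abs_jac_le _ _)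
    (β := 5 * 2 ^ r / (Fintype.card k : ℝ) ^ h) (by positivity) r
    (fun i => AddMonoidHom.mulLeft (Z (e i))) (fun i v => mk (Z (e i) * v))
    (fun i s => F (e i) s) [0]
    (fun i x hx v hv => ?_) (fun i v hv w hw e' => ?_) (fun i a x _ v _ => ?_)
    (fun i x _ => hF1 _ _) (fun i x _ v _ => hF2 _ _ _) ⟨0, by simp⟩ (fun L hL hL1 => ?_)
  · have e1 : ∀ s, (∏ i, F i s) * H48P.jac π (f + g * s ^ p) =
        (∏ i, F (e i) s) * (([0] : List A).map fun a => Ψ a s).prod := fun s => by
      have : Ψ 0 s = H48P.jac π (f + g * s ^ p) := cg _ _ (by rw [map_add, hlf, add_zero])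
      rw [e.prod_comp fun i => F i s, List.map_singleton, List.prod_singleton, this]
    simp only [e1]
    refine main.trans ?_
    rw [card_box, List.length_singleton]
    unfold qq
    push_cast
    rw [← add_div]
    gcongr
    linarith
  · rw [hΩ] at hx ⊢
    refine (degree_add_le _ _).trans_lt (max_lt hx ?_)
    have d2 := hZ2 (e i)
    rcases eq_or_ne v 0 with rfl | v0
    · simp
    have z0 : Z (e i) ≠ 0 := fun e' => hZ1 (e i) (e' ▸ dvd_zero π)
    have d1 := (natDegree_lt_iff_degree_lt v0).2 ((hV v).1 hv)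
    rw [AddMonoidHom.coe_mulLeft, ← natDegree_lt_iff_degree_lt (mul_ne_zero z0 v0),
      natDegree_mul z0 v0]
    omega
  · have d1 : π ∣ Z (e i) * (v - w) := by rw [mul_sub]; exact AdjoinRoot.mk_eq_mk.1 e'
    have d2 := (hi.prime.dvd_or_dvd d1).resolve_left (hZ1 _)
    refine sub_eq_zero.1 (eq_zero_of_dvd_of_degree_lt d2 ?_)
    rw [degree_eq_natDegree hi.ne_zero]
    exact ((degree_sub_le _ _).trans_lt (max_lt ((hV _).1 hv) ((hV _).1 hw))).trans_le
      (by exact_mod_cast (by omega : h ≤ π.natDegree))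
  · exact cg _ _ (by
      simp only [AddMonoidHom.coe_mulLeft, map_add, hlf]
      ring)
  · obtain ⟨a, ha⟩ := hL1
    obtain ⟨i₀, hi₀⟩ := @get_simple A (_) L a ha
    have hb := base_line p h2 hπ hi hy f hΩ (fun i : Fin L.length => lf (L.get i)) i₀ fun i e =>
      hi₀ i (by rw [← hlf (L.get i), ← hlf (L.get i₀)]; exact AdjoinRoot.mk_eq_mk.2 e)
    have e1 : ∀ s, (L.map fun a => Ψ a s).prod =
        ∏ i : Fin L.length, H48P.jac π (f + g * (s + lf (L.get i)) ^ p) := fun s => by
      rw [← List.prod_ofFn, ← List.ofFn_getElem_eq_map]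
      rfl
    simp only [e1]
    rw [expect_eq_sum_div_card, card_box5 hΩ, abs_div, Nat.abs_cast]
    push_cast
    rw [div_le_iff₀ (by positivity)]
    refine hb.trans (mul_le_mul_of_nonneg_right ?_ (by positivity))
    rw [Fintype.card_fin, hL, List.length_singleton, mul_one,
      div_le_div_iff₀ (by positivity) (by positivity)]
    push_cast
    rw [mul_assoc]
    refine mul_le_mul_of_nonneg_left ?_ (by positivity)
    obtain ⟨j, hj⟩ : ∃ j, min N π.natDegree = j + h := ⟨min N π.natDegree - h, by omega⟩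
    rw [hj, pow_add]
    refine mul_le_mul_of_nonneg_right (Real.sqrt_le_iff.2 ⟨by positivity, ?_⟩) (by positivity)
    rw [← pow_mul]
    exact pow_le_pow_right₀ hq1 (by omega)

theorem ind_row (p : ℕ) [Fact p.Prime] [CharP k p] (h2 : p ≠ 2) (hl : LINE2_s k p) :
    IND_s k p := by
  intro L γ C ε hL hε
  have _ := h2
  have hq := two_le_qq (k := k)
  obtain ⟨L₀, hL₀⟩ := pow_unbounded_of_one_lt (8 * qq k ^ C / ε) (by linarith : 1 < qq k)
  filter_upwards [hl L γ C L₀ (ε / 2) hL (half_pos hε), eventually_ge_atTop C]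
    with n hn hC y y0 hy ht
  set b : k[X] → ℝ := fun f => if Big L₀ f then 1 else 0 with hb
  have b0 : ∀ f, 0 ≤ b f := fun f => by simp only [hb]; split_ifs <;> norm_num
  refine ⟨fun x => ε / 2 + 2 * 𝔼 s ∈ box k (n / p - γ),
    ∑ w ∈ box k C, b (x + w + y ^ (p - 1) * s ^ p), fun x => ?_, ?_,
    fun x hx S hS hne hG => hn y x S y0 hy ht hx hS hne hG⟩
  · exact add_nonneg (half_pos hε).le (mul_nonneg zero_le_two (expect_nonneg fun s _ =>
      sum_nonneg fun w _ => b0 _))
  · have e2 : ∀ s ∈ box k (n / p - γ), 𝔼 x ∈ mon k n,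
        ∑ w ∈ box k C, b (x + w + y ^ (p - 1) * s ^ p) ≤ qq k ^ C * (2 / qq k ^ L₀) := by
      intro s hs
      obtain ⟨f₀, hf₀⟩ := mon_nonempty (k := k) n
      rw [expect_sum_comm, ← card_box, ← nsmul_eq_mul]
      refine sum_le_card_nsmul _ _ _ fun w hw => ?_
      have hd : (w + y ^ (p - 1) * s ^ p).degree < n := (degree_add_le _ _).trans_lt
        (max_lt ((mem_box.1 hw).trans_le (by exact_mod_cast hC)) (line_mem hy hf₀ hs).2)
      simp only [add_assoc]
      rw [exp_mon_shift hd b]
      exact exp_big n L₀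
    rw [expect_add_distrib, expect_const (mon_nonempty n), ← mul_expect, expect_comm]
    have e3 := (expect_le_expect e2).trans (expect_const (box_nonempty _) _).le
    have h0 : 0 < qq k ^ L₀ := by positivity
    rw [div_lt_iff₀ hε] at hL₀
    have : 2 * (qq k ^ C * (2 / qq k ^ L₀)) ≤ ε / 2 := by
      rw [show 2 * (qq k ^ C * (2 / qq k ^ L₀)) = 4 * qq k ^ C / qq k ^ L₀ by ring,
        div_le_iff₀ h0]
      linarith
    linarith

end Pool.Agent.K60

end
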