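import Pool.Agent.MP_a4a062_nt.K60.Defs3

/-! h60k row LINEU: joint cancellation along one line on a bounded window (paper 3). -/

set_option autoImplicit false

open Polynomial Finset Filter
open scoped Classical BigOperators

noncomputable section
namespace Pool.Agent.K60
open Pool.Agent.H4O

variable {k : Type} [Field k] [Fintype k]

/-- The formula on a line, with the `D`-free part of the Wronskian. -/
theorem lineu_theta (p : ℕ) [Fact p.Prime] [CharP k p] (htwo : (2 : k) ≠ 0) {n γ L₀ : ℕ}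
    {y D f : k[X]} (ym : y.Monic) (hyγ : y.natDegree ≤ γ) (hyD : y ∣ D)
    (hD : ∀ d : k[X], d.Monic → d.natDegree < L₀ → d ∣ D) (hf : f ∈ mon k n)
    (B0 : derivative (f * y) ≠ 0) :
    ∃ (Bs : k[X]) (Θ : k[X] → ℝ), Bs.Monic ∧ Bs ∣ derivative (f * y) ∧
      (∀ π : k[X], Irreducible π → π ∣ derivative (f * y) → ¬ π ∣ D → π ∣ Bs) ∧
      (∀ u, |Θ u| ≤ 1) ∧ (∀ u t, Θ (u + D ^ (2 * L₀ + 1) * t) = Θ u) ∧
      ∀ s ∈ box k (n / p - γ), ¬ Big L₀ (f + y ^ (p - 1) * s ^ p) →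
        lam (f + y ^ (p - 1) * s ^ p) =
          Θ (f + y ^ (p - 1) * s ^ p) * H48P.jac Bs (f + y ^ (p - 1) * s ^ p) := by
  have H := japi htwo
  obtain ⟨B₀, Bs, m, b1, b2, b3, b4, b5⟩ := exists_split D _ _ rfl B0
  set c := (derivative (f * y)).leadingCoeff with hc
  have c0 : c ≠ 0 := leadingCoeff_ne_zero.2 B0
  obtain ⟨Θ, t1, t2, t3⟩ := H.exists_theta (fun u => by rw [abs_pow, abs_neg, abs_one, one_pow])
    c (2 * L₀) n ym hyD b1 b3 b2 b4
  refine ⟨Bs, Θ, b2, ?_, fun π πi e πD => ?_, t1, t2, fun s hs hn => ?_⟩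
  · rw [b5]; exact dvd_mul_left _ _
  · rw [b5] at e
    refine (πi.prime.dvd_or_dvd e).resolve_left fun e => ?_
    rcases πi.prime.dvd_or_dvd e with e | e
    · exact πi.not_isUnit (isUnit_of_dvd_unit e (isUnit_C.2 c0.isUnit))
    · exact πD (πi.prime.dvd_of_dvd_pow (e.trans b3))
  · obtain ⟨m1, m2⟩ := mem_mon.1 (line_mem (p := p) hyγ hf hs).1
    refine t3 _ (dec_of_regular m1 hD fun d hd => ?_) m2 ?_
    · by_contra hc
      have d0 : d ≠ 0 := fun e => m1.ne_zero (by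
        rw [e, zero_pow two_ne_zero] at hd; exact zero_dvd_iff.1 hd)
      have dl := inv_ne_zero (leadingCoeff_ne_zero.2 d0)
      refine hn ⟨d * C d.leadingCoeff⁻¹, monic_mul_leadingCoeff_inv d0, by
        rw [natDegree_mul_C dl]; omega, ?_⟩
      rw [mul_pow]
      exact (((isUnit_C.2 dl.isUnit).pow 2).mul_right_dvd).2 hd
    · rw [← b5, line_deriv]

/-- A periodic factor times a Jacobi symbol to a smooth modulus is a product of a bounded number
of periodic factors. -/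
theorem lineu_pieces (htwo : (2 : k) ≠ 0) {π Q Z : k[X]} {T r : ℕ} (hQ : Q.Monic) (hπQ : ¬π ∣ Q)
    (hZ : ¬π ∣ Z) (hZT : Z.natDegree ≤ T)
    (hT : ∀ ρ : k[X], ρ.Monic → Irreducible ρ → ρ ∣ Q → ρ.natDegree ≤ T)
    (hr : 2 * Q.natDegree ≤ r * (T + 1)) (Θ : k[X] → ℝ) (hΘ : ∀ w, |Θ w| ≤ 1)
    (hper : ∀ w t, Θ (w + Z * t) = Θ w) :
    ∃ (Φ : Fin (r + 2) → k[X] → ℝ) (Zs : Fin (r + 2) → k[X]), (∀ i u, |Φ i u| ≤ 1) ∧
      (∀ i u t, Φ i (u + Zs i * t) = Φ i u) ∧ (∀ i, ¬π ∣ Zs i) ∧ (∀ i, (Zs i).natDegree ≤ T) ∧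
      ∀ u, Θ u * H48P.jac Q u = ∏ i, Φ i u := by
  have H := japi htwo
  obtain ⟨Qs, Cs, m, q1, q2, q3, q4, q5, q6⟩ := exists_pieces hQ hT hr
  let Zs : Fin (r + 2) → k[X] := Fin.cons Z Cs
  let Φ : Fin (r + 2) → k[X] → ℝ := Fin.cons Θ fun j => H48P.jac (Qs j)
  refine ⟨Φ, Zs, Fin.cases hΘ fun j w => H48P.abs_jac_le _ _, Fin.cases hper fun j w t =>
    H.congr_rad (q1 j) (q3 j) (by simp [Zs]), Fin.cases hZ fun j e => hπQ (e.trans (q6 j)),
    Fin.cases hZT q5, fun u => ?_⟩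
  rw [q2, jac_prod_left _ _ q1, Fin.prod_univ_succ (fun i => Φ i u)]
  simp only [Φ, Fin.cons_zero, Fin.cons_succ]

omit [Fintype k] in
theorem lineu_shift (p : ℕ) [Fact p.Prime] [CharP k p] (f g s Z t : k[X]) :
    f + g * (s + Z * t) ^ p = f + g * s ^ p + Z * (g * Z ^ (p - 1) * t ^ p) := by
  have hp : p.Prime := Fact.out
  obtain ⟨j, hj⟩ : ∃ j, p = j + 1 := ⟨p - 1, by have := hp.pos; omega⟩
  rw [add_pow_char s, mul_pow, show Z ^ p = Z * Z ^ (p - 1) by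
    rw [hj, pow_succ', Nat.add_sub_cancel]]
  ring

theorem lineu_row (p : ℕ) [Fact p.Prime] [CharP k p] (h2 : p ≠ 2) (hLB : LB2_s k p) :
    LINEU_s k p := by
  intro L γ σ L₀ ε hL hε
  have hp : p.Prime := Fact.out
  have htwo : (2 : k) ≠ 0 := fun e => h2 ((Nat.prime_dvd_prime_iff_eq hp Nat.prime_two).1
    ((CharP.cast_eq_zero_iff k p 2).1 (by exact_mod_cast e)))
  set DL : k[X] := ∏ e ∈ range L₀, ∏ d ∈ mon k e, d with hDL
  have DLm : DL.Monic := monic_prod_of_monic _ _ fun e _ =>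
    monic_prod_of_monic _ _ fun d hd => (mem_mon.1 hd).1
  have DLd : ∀ d : k[X], d.Monic → d.natDegree < L₀ → d ∣ DL := fun d h1 h3 =>
    (dvd_prod_of_mem (fun d => d) (mem_mon.2 ⟨h1, rfl⟩)).trans
      (dvd_prod_of_mem (fun e => ∏ d ∈ mon k e, d) (mem_range.2 h3))
  have hq : (1 : ℝ) < qq k := by have := two_le_qq (k := k); linarith
  set r : ℕ := 4 * p + 2 with hr
  set m0 : ℕ := σ * (r + 2) with hm0
  set ε' : ℝ := min ε 1 with hε'
  have e0 : 0 < ε' := lt_min hε one_pos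
  have e1 : ε' ≤ 1 := min_le_right _ _
  obtain ⟨h₁, hh₁⟩ := pow_unbounded_of_one_lt (6 * 2 ^ m0 / ε' ^ 2 ^ m0) hq
  have ev : Tendsto (fun n : ℕ => n / p / L) atTop atTop :=
    (Nat.tendsto_div_const_atTop hL.ne').comp (Nat.tendsto_div_const_atTop hp.ne_zero)
  filter_upwards [ev.eventually_ge_atTop
    (2 * h₁ + 2 * γ + (2 * L₀ + 1) * (γ + DL.natDegree) + 1)]
    with n hn y x S ym hyγ hx hSC hSσ hSn hG hsep
  obtain ⟨w0, hw0⟩ := hSn
  set N := n / p with hN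
  set H := N / L with hH
  have a2 : n < p * (N + 1) := Nat.lt_mul_div_succ n hp.pos
  have a4 : N ≤ n := Nat.div_le_self _ _
  have a3 : γ + DL.natDegree ≤ (2 * L₀ + 1) * (γ + DL.natDegree) :=
    Nat.le_mul_of_pos_left _ (by omega)
  obtain ⟨π, C', hB, πm, πi, πC, g1, g2⟩ := hG w0 hw0
  have g3 : π.natDegree + H ≤ N := g2 π πi (by rw [hB]; exact dvd_mul_right _ _)
  set D := y * DL with hD
  have Dm : D.Monic := ym.mul DLm
  have Dd : D.natDegree ≤ γ + DL.natDegree := by rw [hD, ym.natDegree_mul DLm]; omega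
  have πD : ¬π ∣ D := fun e => by have := natDegree_le_of_dvd e Dm.ne_zero; omega
  have hxw : ∀ w ∈ box k n, x + w ∈ mon k n := fun w hw => dec_mem hx (mem_box.1 hw)
  obtain ⟨T, hT⟩ : ∃ T, T + H = N := ⟨N - H, by omega⟩
  have key : ∀ w : S, ∃ (Φ : Fin (r + 2) → k[X] → ℝ) (Zs : Fin (r + 2) → k[X]),
      (∀ i u, |Φ i u| ≤ 1) ∧ (∀ i u t, Φ i (u + Zs i * t) = Φ i u) ∧ (∀ i, ¬π ∣ Zs i) ∧
      (∀ i, (Zs i).natDegree ≤ T) ∧
      ∀ s ∈ box k (N - γ), ¬ Big L₀ (x + w.1 + y ^ (p - 1) * s ^ p) →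
        lam (x + w.1 + y ^ (p - 1) * s ^ p) = (∏ i, Φ i (x + w.1 + y ^ (p - 1) * s ^ p)) *
          (if w = ⟨w0, hw0⟩ then H48P.jac π (x + w0 + y ^ (p - 1) * s ^ p) else 1) := by
    rintro ⟨w, hw⟩
    obtain ⟨π', C'', hB', πm', -, πC', -, g2'⟩ := hG w hw
    have B0 : derivative ((x + w) * y) ≠ 0 := by
      rw [hB']; exact mul_ne_zero πm'.ne_zero fun e => πC' (e ▸ dvd_zero π')
    have hf := hxw w (hSC hw)
    obtain ⟨Bs, Θ, b1, b2, b3, t1, t2, t3⟩ := lineu_theta p htwo ym hyγ (dvd_mul_right y DL)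
      (fun d d1 d2 => (DLd d d1 d2).mul_left _) hf B0
    have Bd : (derivative ((x + w) * y)).natDegree ≤ n + γ := by
      have e3 := natDegree_derivative_le ((x + w) * y)
      have e4 : ((x + w) * y).natDegree ≤ (x + w).natDegree + y.natDegree := natDegree_mul_le
      have := (mem_mon.1 hf).2
      omega
    have pc : ∀ Q : k[X], Q.Monic → Q ∣ Bs → ¬π ∣ Q →
        ∃ (Φ : Fin (r + 2) → k[X] → ℝ) (Zs : Fin (r + 2) → k[X]), (∀ i u, |Φ i u| ≤ 1) ∧
        (∀ i u t, Φ i (u + Zs i * t) = Φ i u) ∧ (∀ i, ¬π ∣ Zs i) ∧ (∀ i, (Zs i).natDegree ≤ T) ∧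
        ∀ u, Θ u * H48P.jac Q u = ∏ i, Φ i u := fun Q Qm QB πQ =>
      lineu_pieces htwo Qm πQ (Z := D ^ (2 * L₀ + 1)) (fun e => πD (πi.prime.dvd_of_dvd_pow e))
        (by rw [natDegree_pow]; have := Nat.mul_le_mul_left (2 * L₀ + 1) Dd; omega)
        (fun ρ _ r1 r2 => by have := g2' ρ r1 (r2.trans (QB.trans b2)); omega)
        (by
          have e2 := natDegree_le_of_dvd (QB.trans b2) B0
          have e3 : N ≤ 2 * T := by omega
          have e4 : p * N ≤ p * (2 * T) := Nat.mul_le_mul_left p e3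
          have e5 : 2 * γ ≤ N := by omega
          rw [hr]
          nlinarith) Θ t1 t2
    by_cases e : w = w0
    · subst e
      obtain ⟨Q, rfl⟩ : π ∣ Bs := b3 π πi (by rw [hB]; exact dvd_mul_right _ _) πD
      have Qm : Q.Monic := πm.of_mul_monic_left b1
      have QC : Q ∣ C' := by
        rw [hB] at b2
        exact (mul_dvd_mul_iff_left πm.ne_zero).1 b2
      obtain ⟨Φ, Zs, z1, z2, z3, z4, z5⟩ := pc Q Qm (dvd_mul_left _ _) fun e => πC (e.trans QC)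
      refine ⟨Φ, Zs, z1, z2, z3, z4, fun s hs hb => ?_⟩
      rw [if_pos rfl, t3 s hs hb, H48P.jac_mul_left πm Qm, ← z5]
      ring
    · have πB : ¬π ∣ Bs := fun e' => hsep w0 hw0 w hw (Ne.symm e) π πi g1 (by omega)
        (by rw [hB]; exact dvd_mul_right _ _) (e'.trans b2)
      obtain ⟨Φ, Zs, z1, z2, z3, z4, z5⟩ := pc Bs b1 dvd_rfl πB
      refine ⟨Φ, Zs, z1, z2, z3, z4, fun s hs hb => ?_⟩
      rw [if_neg fun e' => e (congrArg Subtype.val e'), t3 s hs hb, ← z5, mul_one]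
  choose Φ Zs z1 z2 z3 z4 z5 using key
  have hb := hLB (S × Fin (r + 2)) π y (x + w0) (N - γ) T h₁
    (fun i s => Φ i.1 i.2 (x + i.1.1 + y ^ (p - 1) * s ^ p)) (fun i => Zs i.1 i.2) πm πi
    (fun e => πD (e.mul_right _)) (fun i s => z1 _ _ _)
    (fun i s t => by simp only [lineu_shift p, z2]) (fun i => z3 _ _) (fun i => z4 _ _)
    (by omega) (by omega) (by omega)
  have hm : Fintype.card (S × Fin (r + 2)) ≤ m0 := by
    rw [Fintype.card_prod, Fintype.card_coe, Fintype.card_fin]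
    exact Nat.mul_le_mul_right _ hSσ
  set m := Fintype.card (S × Fin (r + 2)) with hmd
  have hb2 : |𝔼 s ∈ box k (N - γ), (∏ i : S × Fin (r + 2),
      Φ i.1 i.2 (x + i.1.1 + y ^ (p - 1) * s ^ p)) *
        H48P.jac π (x + w0 + y ^ (p - 1) * s ^ p)| ≤ ε := by
    refine le_trans ?_ (min_le_left ε 1)
    refine le_of_pow_le_pow_left₀ (n := 2 ^ m) (by positivity) e0.le (hb.trans ?_)
    rw [div_le_iff₀ (by positivity)]
    rw [div_lt_iff₀ (by positivity)] at hh₁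
    have i1 : (2 : ℝ) ^ m ≤ 2 ^ m0 := pow_le_pow_right₀ one_le_two hm
    have i2 : ε' ^ 2 ^ m0 ≤ ε' ^ 2 ^ m :=
      pow_le_pow_of_le_one e0.le e1 (Nat.pow_le_pow_right two_pos hm)
    have i3 : qq k ^ h₁ * ε' ^ 2 ^ m0 ≤ qq k ^ h₁ * ε' ^ 2 ^ m :=
      mul_le_mul_of_nonneg_left i2 (by positivity)
    linarith
  refine (abs_sub_abs_le_abs_sub _ _ |> sub_le_iff_le_add'.1).trans (add_le_add hb2 ?_)
  rw [← expect_sub_distrib, mul_expect]
  refine (abs_expect_le _ _).trans (expect_le_expect fun s hs => ?_)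
  have nn : ∀ w ∈ S,
      (0 : ℝ) ≤ if Big L₀ (x + w + y ^ (p - 1) * s ^ p) then (1 : ℝ) else 0 := fun w _ => by
    split_ifs <;> norm_num
  by_cases c : ∃ w ∈ S, Big L₀ (x + w + y ^ (p - 1) * s ^ p)
  · obtain ⟨w, hw, hP⟩ := c
    have h1 := single_le_sum nn hw
    rw [if_pos hP] at h1
    have h3 : |∏ w ∈ S, lam (x + w + y ^ (p - 1) * s ^ p)| ≤ 1 := by
      rw [abs_prod]
      exact prod_le_one (fun _ _ => abs_nonneg _) fun w _ => by
        rw [lam, abs_pow, abs_neg, abs_one, one_pow]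
    have h4 : |(∏ i : S × Fin (r + 2), Φ i.1 i.2 (x + i.1.1 + y ^ (p - 1) * s ^ p)) *
        H48P.jac π (x + w0 + y ^ (p - 1) * s ^ p)| ≤ 1 := by
      rw [abs_mul, abs_prod]
      exact mul_le_one₀ (prod_le_one (fun _ _ => abs_nonneg _) fun i _ => z1 _ _ _)
        (abs_nonneg _) (H48P.abs_jac_le _ _)
    refine (abs_sub _ _).trans ?_
    linarith
  · push Not at c
    have e : ∏ w ∈ S, lam (x + w + y ^ (p - 1) * s ^ p) =
        (∏ i : S × Fin (r + 2), Φ i.1 i.2 (x + i.1.1 + y ^ (p - 1) * s ^ p)) *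
          H48P.jac π (x + w0 + y ^ (p - 1) * s ^ p) := by
      rw [← Finset.prod_coe_sort S fun w => lam (x + w + y ^ (p - 1) * s ^ p),
        Finset.prod_congr rfl fun w _ => z5 w s hs (c w.1 w.2), prod_mul_distrib,
        Fintype.prod_prod_type, prod_ite_eq', if_pos (mem_univ _)]
    rw [e, sub_self, abs_zero]
    exact mul_nonneg zero_le_two (sum_nonneg nn)

end Pool.Agent.K60

end
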