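import Pool.Agent.MP_a4a062_nt.K60.Defs3

/-! h60k: rows COL (a good colouring) and LOCU (one window). -/

set_option autoImplicit false

open Polynomial Finset Filter
open scoped Classical BigOperators

noncomputable section
namespace Pool.Agent.K60
open Pool.Agent.H4O

theorem col_cnt {ι V : Type} [Fintype ι] [Fintype V] (r : ℕ) (a b : ι → V) (h : ∀ i, a i ≠ b i) :
    r ^ Fintype.card ι * #{χ : ι → V → Fin r | ∀ i, χ i (a i) = χ i (b i)} ≤
      Fintype.card (ι → V → Fin r) := by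
  have h1 : r ^ Fintype.card ι = #(univ : Finset (ι → Fin r)) := by simp
  rw [h1, ← Finset.card_product, ← Finset.card_univ]
  refine Finset.card_le_card_of_injOn
    (fun z i => Function.update (z.2 i) (a i) (z.1 i)) (fun _ _ => by simp) ?_
  intro z hz z' hz' e
  simp only [Finset.coe_product, Set.mem_prod, Finset.mem_coe, Finset.mem_filter, Finset.mem_univ,
    true_and] at hz hz'
  have e1 : ∀ i u, Function.update (z.2 i) (a i) (z.1 i) u =
      Function.update (z'.2 i) (a i) (z'.1 i) u := fun i u => congrFun (congrFun e i) u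
  refine Prod.ext ?_ ?_
  · funext i
    have := e1 i (a i)
    simpa using this
  · funext i u
    by_cases hu : u = a i
    · have := e1 i (b i)
      rw [Function.update_of_ne (h i).symm, Function.update_of_ne (h i).symm] at this
      rw [hu, hz i, hz' i, this]
    · have := e1 i u
      rwa [Function.update_of_ne hu, Function.update_of_ne hu] at this

theorem col_row : COL_s := by
  intro ι V E _ _ Ed w v r hr hsep hfib
  have : Nonempty (Fin r) := ⟨⟨0, hr⟩⟩
  set N := Fintype.card (ι → V → Fin r) with hN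
  set R := r ^ Fintype.card ι with hR
  have hR0 : 0 < R := pow_pos hr _
  have key : R * ∑ χ : ι → V → Fin r,
      #{z ∈ Ed ×ˢ Ed | w z.1 = w z.2 ∧ ∀ i, χ i (v i z.1) = χ i (v i z.2)} ≤
      R * ∑ _χ : ι → V → Fin r, 2 * #Ed := by
    have s1 : ∑ χ : ι → V → Fin r,
        #{z ∈ Ed ×ˢ Ed | w z.1 = w z.2 ∧ ∀ i, χ i (v i z.1) = χ i (v i z.2)} =
        ∑ e ∈ Ed, ∑ e' ∈ Ed, ∑ χ : ι → V → Fin r,
          if w e = w e' ∧ ∀ i, χ i (v i e) = χ i (v i e') then 1 else 0 := by
      simp only [Finset.card_filter]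
      rw [Finset.sum_comm, Finset.sum_product]
    have s2 : ∀ e ∈ Ed, R * ∑ e' ∈ Ed, ∑ χ : ι → V → Fin r,
          (if w e = w e' ∧ ∀ i, χ i (v i e) = χ i (v i e') then 1 else 0) ≤ 2 * (R * N) := by
      intro e he
      have s3 : ∀ e' ∈ Ed, R * ∑ χ : ι → V → Fin r,
          (if w e = w e' ∧ ∀ i, χ i (v i e) = χ i (v i e') then 1 else 0) ≤
          (if e' = e then R * N else 0) + (if w e' = w e then N else 0) := by
        intro e' he'
        by_cases h1 : e' = e
        · rw [if_pos h1]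
          refine le_trans (Nat.mul_le_mul_left _ ?_) (Nat.le_add_right _ _)
          calc _ ≤ ∑ _χ : ι → V → Fin r, 1 := Finset.sum_le_sum fun _ _ => by split_ifs <;> simp
            _ = N := by simp [hN]
        · rw [if_neg h1, zero_add]
          by_cases h2 : w e' = w e
          · rw [if_pos h2]
            have := col_cnt r (fun i => v i e) (fun i => v i e')
              (hsep e he e' he' (Ne.symm h1) h2.symm)
            rw [Finset.card_filter] at this
            simpa only [h2, true_and] using this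
          · rw [if_neg h2]
            have h3 : ¬ w e = w e' := fun h => h2 h.symm
            simp [h3]
      rw [Finset.mul_sum]
      refine (Finset.sum_le_sum s3).trans ?_
      rw [Finset.sum_add_distrib, Finset.sum_ite_eq' Ed e, if_pos he, ← Finset.sum_filter,
        Finset.sum_const, smul_eq_mul]
      have := Nat.mul_le_mul_right N (hfib e he)
      omega
    rw [s1, Finset.mul_sum]
    refine (Finset.sum_le_sum s2).trans (le_of_eq ?_)
    rw [Finset.sum_const, Finset.sum_const, Finset.card_univ, smul_eq_mul, smul_eq_mul, ← hN]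
    ring
  obtain ⟨χ, _, h⟩ := Finset.exists_le_of_sum_le Finset.univ_nonempty
    (Nat.le_of_mul_le_mul_left key hR0)
  exact ⟨χ, h⟩

variable {k : Type} [Field k] [Fintype k]

theorem locu_mem {D l : ℕ} {P : Fin l → k[X]} (hP : P ∈ tup k D l) (i : Fin l) :
    (P i).Monic ∧ Irreducible (P i) ∧ (P i).natDegree = D + i :=
  mem_prs.1 (Fintype.mem_piFinset.1 hP i)

theorem locu_monic {D l : ℕ} {P : Fin l → k[X]} (hP : P ∈ tup k D l) : (∏ i, P i).Monic :=
  monic_prod_of_monic _ _ fun i _ => (locu_mem hP i).1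

theorem locu_deg {D l : ℕ} {P : Fin l → k[X]} (hP : P ∈ tup k D l) :
    (∏ i, P i).natDegree = dg D l := by
  rw [natDegree_prod_of_monic _ _ fun i _ => (locu_mem hP i).1]
  exact Finset.sum_congr rfl fun i _ => (locu_mem hP i).2.2

theorem locu_inj {D l : ℕ} {P Q : Fin l → k[X]} (hP : P ∈ tup k D l) (hQ : Q ∈ tup k D l)
    (h : ∏ i, P i = ∏ i, Q i) : P = Q := by
  funext i
  have h1 : P i ∣ ∏ j, Q j := h ▸ Finset.dvd_prod_of_mem _ (Finset.mem_univ i)
  obtain ⟨j, _, hj⟩ := ((locu_mem hP i).2.1.prime.dvd_finsetProd_iff _).1 h1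
  have h2 : P i = Q j := eq_of_monic_of_associated (locu_mem hP i).1 (locu_mem hQ j).1
    ((locu_mem hP i).2.1.associated_of_dvd (locu_mem hQ j).2.1 hj)
  have h3 := (locu_mem hP i).2.2
  rw [h2, (locu_mem hQ j).2.2] at h3
  have h4 : j = i := Fin.ext (by omega)
  rw [h2, h4]

theorem locu_shift {C : ℕ} {V : Finset k[X]} (hV : ∀ w ∈ V, ∀ t ∈ box k C, w + t ∈ V) {t : k[X]}
    (ht : t ∈ box k C) (F : k[X] → ℝ) : ∑ u ∈ V, F (u + t) = ∑ u ∈ V, F u := by
  have ht' : -t ∈ box k C := by rw [mem_box] at ht ⊢; rwa [degree_neg]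
  refine Finset.sum_nbij' (fun f => f + t) (fun f => f + -t) ?_ ?_ ?_ ?_ ?_
  · intro f hf; exact hV f hf t ht
  · intro f hf; exact hV f hf _ ht'
  · intro f _; simp
  · intro f _; simp
  · intro f _; rfl

theorem locu_card {C : ℕ} {V : Finset k[X]} (hV0 : V.Nonempty)
    (hV : ∀ w ∈ V, ∀ t ∈ box k C, w + t ∈ V) : qq k ^ C ≤ #V := by
  obtain ⟨w, hw⟩ := hV0
  rw [← card_box]
  exact_mod_cast Finset.card_le_card_of_injOn (fun t => w + t)
    (fun t ht => Finset.mem_coe.2 (hV w hw t (Finset.mem_coe.1 ht)))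
    (fun _ _ _ _ h => add_left_cancel h)

theorem locu_tau {D l C : ℕ} (hC : dg D l ≤ C) {V : Finset k[X]}
    (hV : ∀ w ∈ V, ∀ t ∈ box k C, w + t ∈ V) (x : k[X]) :
    ∑ u ∈ V, (tau D l (x + u) : ℝ) = #(tup k D l) * #V / qq k ^ dg D l := by
  have hq : (0 : ℝ) < qq k := dec_q
  have h1 : ∀ u : k[X], (tau D l (x + u) : ℝ) =
      ∑ P ∈ tup k D l, if ∏ i, P i ∣ x + u then (1 : ℝ) else 0 := fun u => by
    rw [Finset.sum_boole]; rfl
  simp only [h1]
  rw [Finset.sum_comm]
  have h2 : ∀ P ∈ tup k D l, ∑ u ∈ V, (if ∏ i, P i ∣ x + u then (1 : ℝ) else 0) =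
      #V / qq k ^ dg D l := fun P hP => by
    have h3 : ∀ u : k[X], 𝔼 t ∈ box k C, (if ∏ i, P i ∣ x + (u + t) then (1 : ℝ) else 0) =
        1 / qq k ^ dg D l := fun u => by
      have := exp_box_dvd (N := C) (locu_monic hP).ne_zero (by rw [locu_deg hP]; exact hC)
        isCoprime_one_left (x + u)
      rw [locu_deg hP] at this
      simpa only [one_mul, add_assoc] using this
    have h4 : 𝔼 t ∈ box k C, ∑ u ∈ V, (if ∏ i, P i ∣ x + (u + t) then (1 : ℝ) else 0) =
        ∑ u ∈ V, (if ∏ i, P i ∣ x + u then (1 : ℝ) else 0) := by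
      rw [Finset.expect_congr rfl fun t ht =>
        locu_shift hV ht fun u => if ∏ i, P i ∣ x + u then (1 : ℝ) else 0]
      exact Finset.expect_const (box_nonempty C) _
    rw [← h4, Finset.expect_sum_comm]
    simp only [h3]
    rw [Finset.sum_const, nsmul_eq_mul]; ring
  rw [Finset.sum_congr rfl h2, Finset.sum_const, nsmul_eq_mul]; ring

theorem locu_row (habs : ABS_s) : LOCU_s k := by
  intro ι _ K D l m R C g T V x φ ω σ A θ η hK hD hg hC hV0 hV hVg hT hθ hη hφ hφ' hω hσ hA hind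
  have hq : (0 : ℝ) < qq k := dec_q
  rcases (tup k D l).eq_empty_or_nonempty with h0 | h0
  · simp only [h0, Finset.expect_empty, Finset.expect_const_zero, mul_zero]
    positivity
  have ht : (1 : ℝ) ≤ #(tup k D l) := by exact_mod_cast h0.card_pos
  have hVc : qq k ^ C ≤ #V := locu_card hV0 hV
  have hVp : (0 : ℝ) < #V := by exact_mod_cast hV0.card_pos
  have hv : ∀ (i : ι) (e : ↥(tup k D l) × ↥V),
      e.2.1 + (∏ j, e.1.1 j) * g i ∈ V := fun i e => hVg _ e.2.2 _ e.1.2 i
  set Ed : Finset (↥(tup k D l) × ↥V) := {e | φ e.1.1 e.2.1 ≠ 0} with hEd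
  have hmem : ∀ e ∈ Ed, φ e.1.1 e.2.1 ≠ 0 := fun e he => (Finset.mem_filter.1 he).2
  set E0 : ℝ := #(tup k D l) * #V / qq k ^ dg D l with hE0
  have hE : 0 < E0 := by positivity
  have hsum : ∑ u : ↥V, (tau D l (x + u.1) : ℝ) = E0 := by
    rw [Finset.sum_coe_sort V fun u => (tau D l (x + u) : ℝ)]
    exact locu_tau hC hV x
  have hfib : ∀ (u : ↥V) (S : Finset (↥(tup k D l) × ↥V)),
      (∀ e ∈ S, e ∈ Ed ∧ e.2 = u) → #S ≤ tau D l (x + u.1) := fun u S hS => by
    refine Finset.card_le_card_of_injOn (fun e => e.1.1) ?_ ?_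
    · intro e he
      have he' := hS e (Finset.mem_coe.1 he)
      refine Finset.mem_coe.2 (Finset.mem_filter.2 ⟨e.1.2, ?_⟩)
      rw [← he'.2]
      exact (hφ' _ _ (hmem e he'.1)).1
    · intro e he e' he' h
      have h1 := (hS e (Finset.mem_coe.1 he)).2
      have h2 := (hS e' (Finset.mem_coe.1 he')).2
      exact Prod.ext (Subtype.ext h) (h1.trans h2.symm)
  have hc1 : (#Ed : ℝ) ≤ E0 := by
    rw [← hsum, Finset.card_eq_sum_card_fiberwise (f := fun e => e.2) (t := univ)
      (fun _ _ => Finset.mem_coe.2 (Finset.mem_univ _))]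
    push_cast
    exact Finset.sum_le_sum fun u _ => by
      exact_mod_cast hfib u _ fun e he => Finset.mem_filter.1 he
  have hc2 : (#Ed : ℝ) ≤ #(tup k D l) * #V := by
    have := Finset.card_le_univ Ed
    rw [Fintype.card_prod, Fintype.card_coe, Fintype.card_coe] at this
    exact_mod_cast this
  have main := habs ι ↥V (↥(tup k D l) × ↥V) k[X] Ed T (fun e => e.2)
    (fun i e => ⟨e.2.1 + (∏ j, e.1.1 j) * g i, hv i e⟩) (fun e => φ e.1.1 e.2.1)
    (fun u => ω u.1) (fun s u => σ s u.1) (fun s i u => A s i u.1) θ η (E0 / 2 ^ (K * m + R))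
    (2 ^ m) K hK (by positivity) ?_ ?_ ?_ hT hθ hη (fun e => hφ _ _) (fun u => hω _)
    (fun s u => hσ _ _) (fun s i u => hA _ _ _) ?_
  · have e1 : ∀ s : k[X], 𝔼 P ∈ tup k D l, 𝔼 w ∈ V,
        φ P w * ω w * σ s w * ∏ i, A s i (w + (∏ i, P i) * g i) =
        (∑ e ∈ Ed, φ e.1.1 e.2.1 * ω e.2.1 * σ s e.2.1 *
          ∏ i, A s i (e.2.1 + (∏ j, e.1.1 j) * g i)) / (#(tup k D l) * #V) := fun s => by
      have e0 : ∑ e ∈ Ed, φ e.1.1 e.2.1 * ω e.2.1 * σ s e.2.1 *
          ∏ i, A s i (e.2.1 + (∏ j, e.1.1 j) * g i) =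
          ∑ e : ↥(tup k D l) × ↥V, φ e.1.1 e.2.1 * ω e.2.1 * σ s e.2.1 *
          ∏ i, A s i (e.2.1 + (∏ j, e.1.1 j) * g i) := by
        refine Finset.sum_subset (Finset.subset_univ _) fun e _ he => ?_
        have : φ e.1.1 e.2.1 = 0 := by
          by_contra h
          exact he (Finset.mem_filter.2 ⟨Finset.mem_univ _, h⟩)
        rw [this]; simp
      rw [e0, Fintype.sum_prod_type, Finset.expect_eq_sum_div_card]
      simp only [Finset.expect_eq_sum_div_card]
      rw [← Finset.sum_div, div_div, mul_comm (#V : ℝ)]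
      congr 1
      rw [← Finset.sum_coe_sort (tup k D l)]
      refine Finset.sum_congr rfl fun P _ => ?_
      rw [← Finset.sum_coe_sort V]
    simp only [e1]
    rw [← Finset.expect_div]
    set Sg : ℝ := 𝔼 s ∈ T, ∑ e ∈ Ed, φ e.1.1 e.2.1 * ω e.2.1 * σ s e.2.1 *
          ∏ i, A s i (e.2.1 + (∏ j, e.1.1 j) * g i) with hSg
    have main' : θ * Sg ≤ (K + 1) * (((2 ^ m : ℕ) : ℝ)) ^ K * (E0 / 2 ^ (K * m + R)) +
        (((2 ^ m : ℕ) : ℝ)) ^ (K + 1) + θ ^ 2 * #Ed +
        η * (((2 ^ m : ℕ) : ℝ)) ^ (K + 1) * Real.exp (θ * #Ed) := main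
    have e2 : θ * (qq k ^ dg D l * (Sg / (#(tup k D l) * #V))) = θ * Sg / E0 := by
      rw [hE0]; field_simp
    have e3 : (((2 ^ m : ℕ) : ℝ)) ^ (K + 1) = 2 ^ ((K + 1) * m) := by
      push_cast; rw [← pow_mul, mul_comm]
    have e4 : (K + 1) * (((2 ^ m : ℕ) : ℝ)) ^ K * (E0 / 2 ^ (K * m + R)) =
        (K + 1) / 2 ^ R * E0 := by
      push_cast; rw [← pow_mul, mul_comm m K, pow_add]; field_simp
    have e5 : (1 : ℝ) ≤ qq k ^ dg D l / qq k ^ C * E0 := by
      have : qq k ^ dg D l / qq k ^ C * E0 = #(tup k D l) * #V / qq k ^ C := by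
        rw [hE0]; field_simp
      rw [this, le_div_iff₀ (by positivity), one_mul]
      exact hVc.trans (le_mul_of_one_le_left hVp.le ht)
    have e6 : Real.exp (θ * #Ed) ≤ Real.exp (θ * (#(tup k D l) * #V)) :=
      Real.exp_le_exp.2 (mul_le_mul_of_nonneg_left hc2 hθ.le)
    rw [e3, e4] at main'
    rw [e2, div_le_iff₀ hE]
    set Y : ℝ := Real.exp (θ * (#(tup k D l) * #V)) with hY
    have hY0 : 0 < Y := Real.exp_pos _
    have e7 : (2 : ℝ) ^ ((K + 1) * m) * (1 + η * Y) * 1 ≤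
        2 ^ ((K + 1) * m) * (1 + η * Y) * (qq k ^ dg D l / qq k ^ C * E0) :=
      mul_le_mul_of_nonneg_left e5 (by positivity)
    have e8 : η * 2 ^ ((K + 1) * m) * Real.exp (θ * #Ed) ≤ η * 2 ^ ((K + 1) * m) * Y :=
      mul_le_mul_of_nonneg_left e6 (by positivity)
    have e9 : θ ^ 2 * (#Ed : ℝ) ≤ θ ^ 2 * E0 := mul_le_mul_of_nonneg_left hc1 (by positivity)
    calc θ * Sg ≤ (K + 1) / 2 ^ R * E0 + θ ^ 2 * E0 + 2 ^ ((K + 1) * m) * (1 + η * Y) * 1 := by
          linarith
      _ ≤ (K + 1) / 2 ^ R * E0 + θ ^ 2 * E0 +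
          2 ^ ((K + 1) * m) * (1 + η * Y) * (qq k ^ dg D l / qq k ^ C * E0) := by linarith
      _ = _ := by ring
  · intro e _ e' _ hne hw i h
    have h1 : e.2.1 + (∏ j, e.1.1 j) * g i = e'.2.1 + (∏ j, e'.1.1 j) * g i :=
      congrArg Subtype.val h
    have hw' : e.2 = e'.2 := hw
    rw [hw', add_right_inj] at h1
    exact hne (Prod.ext (Subtype.ext (locu_inj e.1.2 e'.1.2 (mul_right_cancel₀ (hg i) h1))) hw')
  · intro e he
    refine (hfib e.2 _ fun e' he' => by simpa only [Finset.mem_filter] using he').trans ?_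
    rw [← pow_mul, mul_comm m]
    exact (hφ' _ _ (hmem e he)).2.1
  · intro i
    rw [le_div_iff₀ (by positivity), ← hsum, ← nsmul_eq_mul, ← Finset.sum_const]
    refine (Finset.sum_le_sum ?_).trans
      (Finset.sum_le_sum_of_subset_of_nonneg (Finset.subset_univ _) fun _ _ _ => by positivity)
    intro u hu
    simp only [Finset.mem_image] at hu
    obtain ⟨e, he, rfl⟩ := hu
    have := (hφ' _ _ (hmem e he)).2.2 i
    rw [add_assoc] at this
    exact_mod_cast this
  · intro S hS hS'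
    have := hind (S.map (Function.Embedding.subtype _)) ?_ (Finset.map_nonempty.2 hS) ?_
    · simpa only [Finset.prod_map, Function.Embedding.subtype_apply] using this
    · intro u hu
      obtain ⟨a, _, rfl⟩ := Finset.mem_map.1 hu
      exact a.2
    · intro u hu
      obtain ⟨a, ha, rfl⟩ := Finset.mem_map.1 hu
      exact hS' a ha

end Pool.Agent.K60

end
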