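import Pool.Agent.MP_a4a062_nt.K60.Defs4

/-! h60k row LOCV: bounded vertex functions are replaced by signs. -/

set_option autoImplicit false

open Polynomial Finset Filter
open scoped Classical BigOperators

noncomputable section
namespace Pool.Agent.K60
open Pool.Agent.H4O

theorem locv_one {E U : Type} (S : Finset E) (d : E → ℝ) (v : E → U) (a : U → ℝ)
    (ha : ∀ u, |a u| ≤ 1) : ∃ a' : U → ℝ, (∀ u, a' u = 1 ∨ a' u = -1) ∧
      ∑ e ∈ S, a (v e) * d e ≤ ∑ e ∈ S, a' (v e) * d e := by
  have key : ∀ b : U → ℝ, ∑ e ∈ S, b (v e) * d e =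
      ∑ u ∈ S.image v, b u * ∑ e ∈ S with v e = u, d e := fun b => by
    rw [← Finset.sum_fiberwise_of_maps_to (g := v) (t := S.image v)
      fun e he => mem_image_of_mem v he]
    refine Finset.sum_congr rfl fun u _ => ?_
    rw [Finset.mul_sum]
    exact Finset.sum_congr rfl fun e he => by rw [(mem_filter.1 he).2]
  refine ⟨fun u => if 0 ≤ ∑ e ∈ S with v e = u, d e then 1 else -1, fun u => ?_, ?_⟩
  · beta_reduce
    split_ifs
    · exact Or.inl rfl
    · exact Or.inr rfl
  · rw [key a, key fun u => if 0 ≤ ∑ e ∈ S with v e = u, d e then 1 else -1]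
    refine Finset.sum_le_sum fun u _ => ?_
    have h := abs_le.1 (ha u)
    split_ifs with h0
    · exact mul_le_mul_of_nonneg_right h.2 h0
    · exact mul_le_mul_of_nonpos_right h.1 (not_le.1 h0).le

theorem locv_all {ι E U : Type} [Fintype ι] (S : Finset E) (c : E → ℝ) (v : ι → E → U)
    (A : ι → U → ℝ) (hA : ∀ i u, |A i u| ≤ 1) :
    ∃ A' : ι → U → ℝ, (∀ i u, A' i u = 1 ∨ A' i u = -1) ∧
      ∑ e ∈ S, c e * ∏ i, A i (v i e) ≤ ∑ e ∈ S, c e * ∏ i, A' i (v i e) := by
  have key : ∀ J : Finset ι, ∃ A' : ι → U → ℝ, (∀ i u, |A' i u| ≤ 1) ∧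
      (∀ i ∈ J, ∀ u, A' i u = 1 ∨ A' i u = -1) ∧
      ∑ e ∈ S, c e * ∏ i, A i (v i e) ≤ ∑ e ∈ S, c e * ∏ i, A' i (v i e) := by
    intro J
    induction J using Finset.induction_on with
    | empty => exact ⟨A, hA, fun i hi => absurd hi (Finset.notMem_empty i), le_rfl⟩
    | insert j J _ ih =>
      obtain ⟨B, h1, h2, h3⟩ := ih
      obtain ⟨a, ha, h4⟩ := locv_one S (fun e => c e * ∏ i ∈ univ.erase j, B i (v i e)) (v j)
        (B j) (h1 j)
      refine ⟨fun i => if i = j then a else B i, fun i u => ?_, fun i hi u => ?_, h3.trans ?_⟩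
      · beta_reduce
        split_ifs
        · rcases ha u with h | h <;> rw [h] <;> simp
        · exact h1 i u
      · beta_reduce
        split_ifs with hij
        · exact ha u
        · exact h2 i ((mem_insert.1 hi).resolve_left hij) u
      · refine le_of_eq_of_le (Finset.sum_congr rfl fun e _ => ?_)
          (h4.trans (le_of_eq (Finset.sum_congr rfl fun e _ => ?_)))
        · rw [← Finset.mul_prod_erase univ _ (mem_univ j)]
          ring
        · beta_reduce
          rw [← Finset.mul_prod_erase univ _ (mem_univ j), if_pos rfl,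
            Finset.prod_congr rfl fun i (hi : i ∈ univ.erase j) =>
              (show (if i = j then a else B i) (v i e) = B i (v i e) by
                rw [if_neg (ne_of_mem_erase hi)])]
          ring
  obtain ⟨A', -, h2, h3⟩ := key univ
  exact ⟨A', fun i => h2 i (mem_univ i), h3⟩

variable {k : Type} [Field k] [Fintype k]

theorem locv_row (hL : LOCU_s k) : LOCV_s k := by
  intro ι _ K D l m R C g T V x φ ω σ A θ η hK hD hg hC hV hV1 hV2 hT hθ hη hφ hφ1 hω hσ hA hS
  choose A' h1 h2 using fun s => locv_all (tup k D l ×ˢ V)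
    (fun z => φ z.1 z.2 * ω z.2 * σ s z.2) (fun i z => z.2 + (∏ i, z.1 i) * g i) (A s) (hA s)
  refine le_trans ?_
    (hL ι K D l m R C g T V x φ ω σ A' θ η hK hD hg hC hV hV1 hV2 hT hθ hη hφ hφ1 hω hσ h1 hS)
  refine mul_le_mul_of_nonneg_left (mul_le_mul_of_nonneg_left
    (Finset.expect_le_expect fun s _ => ?_) (pow_nonneg dec_q.le _)) hθ.le
  rw [← Finset.expect_product', ← Finset.expect_product', Finset.expect_eq_sum_div_card,
    Finset.expect_eq_sum_div_card]
  exact div_le_div_of_nonneg_right (h2 s) (Nat.cast_nonneg _)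

end Pool.Agent.K60

end
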