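import Pool.Agent.MP_a4a062_nt.K60.Defs

/-! h60k row POS2 (helper4): fully smooth Wronskians have a positive share on every coset. -/

set_option autoImplicit false

open Polynomial Finset Filter
open scoped Classical BigOperators

noncomputable section
namespace Pool.Agent.K60
open Pool.Agent.H4O

theorem pos2_arith (P N H c γ H0 a : ℕ) (hP : 2 ≤ P) (hH : 180 * H ≤ N)
    (hb : H0 + 4 * P + 4 * (P * c) + 4 * c + 4 * (P * γ) + 4 * γ + 8 ≤ H)
    (ha : a = (P * N - 2 * H) / (P + 1)) :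
    ((P + 1) * (a + (N - c - γ - a - 1) + 1) + P * γ ≤ (P + 1) * (N - c)) ∧
    (a + (N - c - γ - a - 1) + (P + 1) * (a + 1 - (N - c - γ - a - 1)) + H0 ≤ P * N - 3 * H) ∧
    (P * N - 2 * H + 1 + (N - c + γ + 1) + H0 ≤ (P + 1) * (N - c)) := by
  obtain ⟨M, rfl⟩ : ∃ M, N = M + c + γ := ⟨N - c - γ, by omega⟩
  have a1 : (P + 1) * a ≤ P * (M + c + γ) - 2 * H := by rw [ha]; exact Nat.mul_div_le _ _
  have e1 : M + c + γ - c - γ = M := by omega
  have e2 : M + c + γ - c = M + γ := by omega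
  rw [e1, e2]
  have x1 : P * (M + c + γ) = P * M + P * c + P * γ := by ring
  have x2 : (P + 1) * (M + γ) = P * M + P * γ + M + γ := by ring
  have u1 : 2 * M ≤ P * M := Nat.mul_le_mul_right M hP
  have aM : a + 1 ≤ M := by
    by_contra h
    have h3 : (P + 1) * M ≤ (P + 1) * a := Nat.mul_le_mul_left _ (by omega)
    have x3 : (P + 1) * M = P * M + M := by ring
    omega
  refine ⟨?_, ?_, by omega⟩
  · have e3 : a + (M - a - 1) + 1 = M := by omega
    have x3 : (P + 1) * M = P * M + M := by ring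
    rw [e3]
    omega
  · rcases le_total (a + 1) (M - a - 1) with h | h
    · rw [Nat.sub_eq_zero_of_le h, mul_zero]
      omega
    · obtain ⟨t, ht⟩ : ∃ t, a + 1 = M - a - 1 + t := ⟨a + 1 - (M - a - 1), by omega⟩
      have e3 : a + 1 - (M - a - 1) = t := by omega
      have e4 : M + t = 2 * a + 2 := by omega
      have e5 : (P + 1) * (M + t) = (P + 1) * (2 * a + 2) := by rw [e4]
      have x3 : (P + 1) * (M + t) = P * M + M + (P + 1) * t := by ring
      have x4 : (P + 1) * (2 * a + 2) = 2 * ((P + 1) * a) + 2 * P + 2 := by ring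
      rw [e3]
      omega

theorem pos2_arith2 (P N H c γ H0 a : ℕ) (hP : 2 ≤ P) (hH : 180 * H ≤ N)
    (hb : H0 + 4 * P + 4 * (P * c) + 4 * c + 4 * (P * γ) + 4 * γ + 8 ≤ H)
    (ha : a = (N + 4 * H) / (P + 1)) :
    ((P + 1) * (a + (a + 1) + 1) + P * γ ≤ (P + 1) * (N - c)) ∧
    (a + (a + 1) + (P + 1) * (a + 1 - (a + 1)) + H0 ≤ N - H) := by
  have a1 : (P + 1) * a ≤ N + 4 * H := by rw [ha]; exact Nat.mul_div_le _ _
  have a2 : 3 * a ≤ (P + 1) * a := Nat.mul_le_mul_right a (by omega)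
  have a3 : 3 * (N - c) ≤ (P + 1) * (N - c) := Nat.mul_le_mul_right _ (by omega)
  have x1 : (P + 1) * (a + (a + 1) + 1) = 2 * ((P + 1) * a) + 2 * P + 2 := by ring
  refine ⟨by omega, ?_⟩
  rw [Nat.sub_self, mul_zero]
  omega

variable {k : Type} [Field k] [Fintype k]

theorem pos2_up (hP : PRS_s k) (N H : ℕ) (h : 2 * H ≤ N) (N0 : 0 < N) :
    ∑ π ∈ (Ioc (N - H) (N + 4 * H)).biUnion (prs k), 1 / qq k ^ π.natDegree ≤
      10 * ((H : ℝ) / N) := by
  have q0 : 0 < qq k := lt_of_lt_of_le two_pos two_le_qq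
  have N1 : (0 : ℝ) < N := by exact_mod_cast N0
  rw [Finset.sum_biUnion]
  · have e0 : 10 * ((H : ℝ) / N) = ∑ _e ∈ Ioc (N - H) (N + 4 * H), (2 : ℝ) / N := by
      rw [Finset.sum_const, Nat.card_Ioc, nsmul_eq_mul,
        show N + 4 * H - (N - H) = 5 * H by omega]
      push_cast
      ring
    rw [e0]
    refine Finset.sum_le_sum fun e he => ?_
    obtain ⟨e1, -⟩ := Finset.mem_Ioc.1 he
    rw [Finset.sum_congr rfl (g := fun _ => 1 / qq k ^ e)
      (fun r hr => by rw [(mem_prs.1 hr).2.2]), Finset.sum_const, nsmul_eq_mul, mul_one_div,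
      div_le_div_iff₀ (by positivity) N1]
    have h1 := hP e
    have h3 : (N : ℝ) ≤ 2 * e := by exact_mod_cast (by omega : N ≤ 2 * e)
    have h4 : (0 : ℝ) ≤ #(prs k e) := Nat.cast_nonneg _
    nlinarith
  · intro a _ b _ hab
    refine Finset.disjoint_left.2 fun r ha hb => hab ?_
    rw [← (mem_prs.1 ha).2.2, ← (mem_prs.1 hb).2.2]

theorem pos2_row (p : ℕ) [Fact p.Prime] [CharP k p] (h2 : p ≠ 2) (hPRS : PRS_s k) (hFAM : FAM_s k)
    (hCNT : CNT_s k) : POS2_s k p := by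
  have pp : p.Prime := Fact.out
  have hp3 : 3 ≤ p := by have := pp.two_le; omega
  obtain ⟨P, rfl⟩ : ∃ P, p = P + 1 := ⟨p - 1, by omega⟩
  have hP : 2 ≤ P := by omega
  have q2 : 2 ≤ qq k := two_le_qq
  have q1 : 1 ≤ qq k := by linarith
  have q0 : 0 < qq k := by linarith
  set σ : ℝ := (1 / (16 * ((P : ℝ) + 1) ^ 2)) ^ P with hσ
  have σ0 : 0 < σ := by positivity
  obtain ⟨l, hl⟩ := exists_nat_ge (96 / σ)
  rw [div_le_iff₀ σ0] at hl
  obtain ⟨L, hL⟩ : ∃ L, L = 4 * (P + 1) ^ 2 * (5 * 2 ^ l) := ⟨_, rfl⟩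
  have L0 : 0 < L := by rw [hL]; positivity
  have L1 : (0 : ℝ) < L := by exact_mod_cast L0
  obtain ⟨K, hK⟩ : ∃ K, K = (P + 1) * (2 * L) + 1 := ⟨_, rfl⟩
  refine ⟨L, 1 / (2 * L * 2 ^ K), L0, by positivity, fun γ c => ?_⟩
  obtain ⟨H0, hH0⟩ := pow_unbounded_of_one_lt (6 * (L : ℝ)) (one_lt_two (α := ℝ))
  have ev : Tendsto (fun n : ℕ => n / (P + 1) / L) atTop atTop :=
    (Nat.tendsto_div_const_atTop L0.ne').comp (Nat.tendsto_div_const_atTop pp.ne_zero)
  filter_upwards [ev.eventually_ge_atTop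
    (H0 + 4 * P + 4 * (P * c) + 4 * c + 4 * (P * γ) + 4 * γ + 8)] with n hb y De f y0 gy D0 gD hf
  have n2 : n < (P + 1) * (n / (P + 1) + 1) := Nat.lt_mul_div_succ _ pp.pos
  have n1 : (P + 1) * (n / (P + 1)) ≤ n := Nat.mul_div_le _ _
  generalize n / (P + 1) = N at *
  obtain ⟨G, hG⟩ : ∃ G, G = N / (4 * (P + 1) ^ 2) := ⟨_, rfl⟩
  have hH : N / L = G / (5 * 2 ^ l) := by rw [hG, hL, Nat.div_div_eq_div_mul]
  have l1 : L * (N / L) ≤ N := Nat.mul_div_le _ _
  have l2 : N < L * (N / L + 1) := Nat.lt_mul_div_succ _ L0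
  have g1 : 4 * (P + 1) ^ 2 * G ≤ N := by rw [hG]; exact Nat.mul_div_le _ _
  have g2 : N < 4 * (P + 1) ^ 2 * (G + 1) := by
    rw [hG]; exact Nat.lt_mul_div_succ _ (by positivity)
  have g3 : 5 * 2 ^ l * (N / L) ≤ G := by rw [hH]; exact Nat.mul_div_le _ _
  generalize N / L = H at *
  have H1 : 0 < H := by omega
  have g4 : 5 * H ≤ G := le_trans (Nat.mul_le_mul_right H
    (Nat.le_mul_of_pos_right 5 (by positivity))) g3
  have g5 : 12 * ((P + 1) * G) ≤ N := by
    refine le_trans ?_ g1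
    have : 3 * ((P + 1) * G) ≤ (P + 1) * ((P + 1) * G) := Nat.mul_le_mul_right _ (by omega)
    have x : 4 * (P + 1) ^ 2 * G = 4 * ((P + 1) * ((P + 1) * G)) := by ring
    omega
  have g6 : 3 * G ≤ (P + 1) * G := Nat.mul_le_mul_right _ (by omega)
  have g7 : N ≤ 8 * (P + 1) ^ 2 * G := by
    have : 4 * (P + 1) ^ 2 * (G + 1) ≤ 4 * (P + 1) ^ 2 * (2 * G) :=
      Nat.mul_le_mul_left _ (by omega)
    have x : 4 * (P + 1) ^ 2 * (2 * G) = 8 * (P + 1) ^ 2 * G := by ring
    omega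
  have l3 : N ≤ 2 * L * H := by
    have : L * (H + 1) ≤ L * (2 * H) := Nat.mul_le_mul_left _ (by omega)
    have x : L * (2 * H) = 2 * L * H := by ring
    omega
  have h180 : 180 * H ≤ N := by omega
  have N0 : 0 < N := by omega
  have N1 : (0 : ℝ) < N := by exact_mod_cast N0
  have x2 : 2 * (P + 1) * G = 2 * ((P + 1) * G) := by ring
  obtain ⟨lo, hlo⟩ : ∃ lo, lo + 2 * (P + 1) * G = N := ⟨N - 2 * (P + 1) * G, by omega⟩
  obtain ⟨D, hD, wD⟩ := hFAM P l N G H lo hP g1 g7 hlo g3 H1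
  rw [← hσ] at wD
  obtain ⟨a1, a2, a3⟩ := pos2_arith P N H c γ H0 _ hP h180 hb rfl
  obtain ⟨b1, b2⟩ := pos2_arith2 P N H c γ H0 _ hP h180 hb rfl
  obtain ⟨m, hm⟩ : ∃ m, m = (P + 1) * (N - c) := ⟨_, rfl⟩
  rw [← hm] at a1 a3 b1 ⊢
  have mn : m ≤ n := le_trans (by rw [hm]; exact Nat.mul_le_mul_left _ (Nat.sub_le _ _)) n1
  have gP : (P + 1 - 1) * y.natDegree ≤ P * γ := Nat.mul_le_mul_left P gy
  have dy : (De * y).natDegree ≤ 2 * γ := by
    have := @natDegree_mul_le _ _ De y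
    omega
  have L1' := H4Lev.lev_main (P + 1) (box k) (fun _ _ => mem_box) ((P * N - 2 * H) / (P + 1))
    (N - c - γ - (P * N - 2 * H) / (P + 1) - 1) m (P * N - 3 * H) De y (derivative (f * y))
    (by omega) D (by
      intro d hd
      obtain ⟨d1, d2, d3, d4, d5, -⟩ := hD d hd
      refine ⟨d1, d2, by omega, Nat.div_le_div_right (by omega),
        isCoprime_of_irreducible_dvd (fun e => d1.ne_zero e.1) fun z hz hzd e => ?_⟩
      have := natDegree_le_of_dvd e (mul_ne_zero D0 y0)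
      have := (d5 z hz hzd).1
      omega)
  set S := (Ioc (N - H) (N + 4 * H)).biUnion (prs k) with hS
  have L2' := H4Lev.lev_main (P + 1) (box k) (fun _ _ => mem_box) ((N + 4 * H) / (P + 1))
    ((N + 4 * H) / (P + 1) + 1) m (N - H) De y (derivative (f * y)) (by omega) S (by
      intro d hd
      obtain ⟨e, he, hd⟩ := Finset.mem_biUnion.1 hd
      obtain ⟨d1, d2, d3⟩ := mem_prs.1 hd
      obtain ⟨e1, e2⟩ := Finset.mem_Ioc.1 he
      refine ⟨d1, d2.squarefree, by omega, Nat.div_le_div_right (by omega),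
        d2.coprime_iff_not_dvd.2 fun e => ?_⟩
      have := natDegree_le_of_dvd e (mul_ne_zero D0 y0)
      omega)
  have eB : ∀ v, derivative ((f + De ^ (P + 1) * v) * y)
      = derivative (f * y) + derivative (De ^ (P + 1) * v * y) := fun v => by rw [add_mul, map_add]
  have cZ := H4Lev.card_zero (P + 1) (box k) (fun _ _ => mem_box) m De y (derivative (f * y)) D0 y0
  simp only [← eB] at L1' L2' cZ
  set B : k[X] → k[X] := fun v => derivative ((f + De ^ (P + 1) * v) * y) with hB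
  have small : 1 / qq k ^ H0 ≤ 1 / (6 * (L : ℝ)) :=
    one_div_le_one_div_of_le (by positivity)
      (hH0.le.trans (pow_le_pow_left₀ (by norm_num) q2 _))
  have er : ∀ u v : ℕ, u + H0 ≤ v → qq k ^ u / qq k ^ v ≤ 1 / (6 * (L : ℝ)) := fun u v h => by
    refine le_trans ?_ small
    rw [div_le_div_iff₀ (by positivity) (by positivity), one_mul, ← pow_add]
    exact pow_le_pow_right₀ q1 h
  have lower : ∑ d ∈ D, 1 / qq k ^ d.natDegree
      - ∑ d ∈ D, (#{v ∈ box k m | d ∣ B v} : ℝ) / qq k ^ m ≤ 1 / (6 * (L : ℝ)) := by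
    rw [← Finset.sum_sub_distrib]
    refine le_trans (Finset.sum_le_sum fun d _ => ?_) (L1'.trans (er _ _ a2))
    rw [abs_sub_comm]
    exact le_abs_self _
  have upper : ∑ d ∈ S, (#{v ∈ box k m | d ∣ B v} : ℝ) / qq k ^ m
      - ∑ d ∈ S, 1 / qq k ^ d.natDegree ≤ 1 / (6 * (L : ℝ)) := by
    rw [← Finset.sum_sub_distrib]
    exact le_trans (Finset.sum_le_sum fun d _ => le_abs_self _) (L2'.trans (er _ _ b2))
  have up2 := pos2_up hPRS N H (by omega) N0
  rw [← hS] at up2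
  have dB : ∀ v ∈ box k m, (B v).natDegree ≤ P * N + N + H := by
    intro v hv
    have h3 : v.natDegree ≤ m := natDegree_le_of_degree_le (mem_box.1 hv).le
    have h4 := @natDegree_mul_le _ _ (De ^ (P + 1)) v
    have h5 := @natDegree_pow_le _ _ De (P + 1)
    have h6 := natDegree_add_le f (De ^ (P + 1) * v)
    have h7 := @natDegree_mul_le _ _ (f + De ^ (P + 1) * v) y
    have h8 := natDegree_derivative_le ((f + De ^ (P + 1) * v) * y)
    have h10 := Nat.mul_le_mul_left (P + 1) gD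
    have h11 := (mem_mon.1 hf).2
    have h9 : max f.natDegree (De ^ (P + 1) * v).natDegree ≤ n + (P + 1) * γ :=
      max_le (by omega) (by omega)
    have x3 : (P + 1) * γ = P * γ + γ := by ring
    have x4 : (P + 1) * (N + 1) = P * N + N + P + 1 := by ring
    simp only [hB]
    omega
  have KH : P * N + N + H ≤ K * H := by
    have := Nat.mul_le_mul_left (P + 1) l3
    have x3 : K * H = (P + 1) * (2 * L * H) + H := by rw [hK]; ring
    have x4 : (P + 1) * N = P * N + N := by ring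
    omega
  have pt : ∀ v ∈ box k m, #{d ∈ D | d ∣ B v} ≤ (if B v = 0 then #D else 0) +
      (if Good2 N H (B v) then 2 ^ K else 0) + #{π ∈ S | π ∣ B v} := by
    intro v hv
    by_cases b0 : B v = 0
    · rw [if_pos b0, add_assoc]
      exact (Finset.card_filter_le _ _).trans (Nat.le_add_right _ _)
    rw [if_neg b0, zero_add]
    exact hCNT (P * N) N H lo K D (B v) hD b0 (dB v hv) ((dB v hv).trans KH) (by omega) H1
  have cD : #D ≤ Fintype.card k ^ (P * N - 2 * H + 1) := by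
    rw [← H4Lev.card_box _ _ (fun _ => mem_box (k := k))]
    refine Finset.card_le_card fun d hd => mem_box.2 (lt_of_le_of_lt degree_le_natDegree ?_)
    have := (hD d hd).2.2.2.1
    exact_mod_cast (by omega : d.natDegree < P * N - 2 * H + 1)
  have cZ2 : #{v ∈ box k m | B v = 0} ≤ Fintype.card k ^ (N - c + γ + 1) := by
    refine cZ.trans (Nat.pow_le_pow_right Fintype.card_pos (Nat.add_le_add_right ?_ 1))
    refine Nat.div_le_of_le_mul ?_
    have : γ ≤ (P + 1) * γ := Nat.le_mul_of_pos_left _ (by omega)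
    rw [mul_add, ← hm]
    omega
  have sw : ∀ T : Finset k[X], ∑ d ∈ T, #{v ∈ box k m | d ∣ B v} =
      ∑ v ∈ box k m, #{d ∈ T | d ∣ B v} := fun T => by
    simp only [Finset.card_filter]
    exact Finset.sum_comm
  have tot : ∑ d ∈ D, #{v ∈ box k m | d ∣ B v} ≤
      Fintype.card k ^ (P * N - 2 * H + 1 + (N - c + γ + 1)) +
        2 ^ K * #{v ∈ box k m | Good2 N H (B v)} + ∑ d ∈ S, #{v ∈ box k m | d ∣ B v} := by
    rw [sw D, sw S]
    refine (Finset.sum_le_sum pt).trans ?_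
    rw [Finset.sum_add_distrib, Finset.sum_add_distrib, ← Finset.sum_filter, ← Finset.sum_filter,
      Finset.sum_const, Finset.sum_const, smul_eq_mul, smul_eq_mul, pow_add, mul_comm (card _) (2 ^ K),
      mul_comm (card _) (card _)]
    exact Nat.add_le_add_right (Nat.add_le_add_right (Nat.mul_le_mul cD cZ2) _) _
  have tot2 : ∑ d ∈ D, (#{v ∈ box k m | d ∣ B v} : ℝ) ≤
      qq k ^ (P * N - 2 * H + 1 + (N - c + γ + 1)) +
        2 ^ K * (#{v ∈ box k m | Good2 N H (B v)} : ℝ) +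
          ∑ d ∈ S, (#{v ∈ box k m | d ∣ B v} : ℝ) := by
    unfold qq
    exact_mod_cast tot
  have tot3 := div_le_div_of_nonneg_right tot2 (show 0 ≤ qq k ^ m by positivity)
  rw [add_div, add_div, Finset.sum_div, Finset.sum_div, mul_div_assoc] at tot3
  have z2 := er _ _ a3
  have w1 : 1 / (2 * (L : ℝ)) ≤ (H : ℝ) / N := by
    rw [div_le_div_iff₀ (by positivity) N1, one_mul, mul_comm]
    exact_mod_cast l3
  have w2 : 12 * ((H : ℝ) / N) ≤ σ * ((l : ℝ) / 4) * ((H : ℝ) / (2 * N)) := by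
    have e : σ * ((l : ℝ) / 4) * ((H : ℝ) / (2 * N)) = (l * σ / 8) * ((H : ℝ) / N) := by
      field_simp
      ring
    rw [e]
    exact mul_le_mul_of_nonneg_right (by linarith) (by positivity)
  have w3 : 1 / (6 * (L : ℝ)) = 1 / (2 * (L : ℝ)) / 3 := by
    field_simp
    ring
  have fin : 1 / (2 * (L : ℝ)) ≤ 2 ^ K * ((#{v ∈ box k m | Good2 N H (B v)} : ℝ) / qq k ^ m) := by
    linarith
  rw [box_exp, Finset.sum_boole, ← div_div, div_le_iff₀' (by positivity)]
  exact fin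

end Pool.Agent.K60

end
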