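import Pool.Agent.MP_a4a062_nt.K60.Defs3

/-! h60k row SEP (helper4): a common large prime with a fixed nonzero polynomial is rare. -/

set_option autoImplicit false

open Polynomial Finset Filter
open scoped Classical BigOperators

noncomputable section
namespace Pool.Agent.K60
open Pool.Agent.H4O

variable {k : Type} [Field k] [Fintype k]

theorem sep_one (p : ℕ) [Fact p.Prime] [CharP k p] (hp : 3 ≤ p) {n H : ℕ} {y π : k[X]} (y0 : y ≠ 0)
    (πm : π.Monic) (πi : Irreducible π) (h1 : y.natDegree < π.natDegree)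
    (h2 : 2 * π.natDegree + 2 * p + p * y.natDegree ≤ n) (h3 : 3 * H + 3 ≤ π.natDegree) :
    𝔼 x ∈ mon k n, (if π ∣ derivative (x * y) then (1 : ℝ) else 0) ≤ 2 / qq k ^ H := by
  have q2 : 2 ≤ qq k := two_le_qq
  have q1 : 1 ≤ qq k := by linarith
  have q0 : 0 < qq k := by linarith
  have a1 : p * (π.natDegree / p) ≤ π.natDegree := Nat.mul_div_le _ _
  have a2 : 3 * (π.natDegree / p) ≤ p * (π.natDegree / p) := Nat.mul_le_mul_right _ hp
  have L := H4Lev.lev_main p (box k) (fun _ _ => mem_box) (π.natDegree / p) (π.natDegree / p + 1)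
    n π.natDegree 1 y (derivative (X ^ n * y)) (by
      have x : p * (π.natDegree / p + (π.natDegree / p + 1) + 1) =
        2 * (p * (π.natDegree / p)) + 2 * p := by ring
      have := Nat.mul_le_mul_right y.natDegree (Nat.sub_le p 1)
      omega) {π} (by
      intro d hd
      rw [Finset.mem_singleton.1 hd, one_mul]
      refine ⟨πm, πi.squarefree, le_rfl, le_rfl, πi.coprime_iff_not_dvd.2 fun e => ?_⟩
      have := natDegree_le_of_dvd e y0
      omega)
  rw [Finset.sum_singleton, Nat.sub_self, mul_zero, add_zero] at L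
  have e : 𝔼 x ∈ mon k n, (if π ∣ derivative (x * y) then (1 : ℝ) else 0) =
      (#{z ∈ box k n | π ∣ derivative (X ^ n * y) + derivative (1 ^ p * z * y)} : ℝ) / qq k ^ n := by
    rw [box_exp_mon, box_sum_mon, Finset.sum_boole]
    simp only [one_pow, one_mul, add_mul, map_add]
  have er : ∀ u : ℕ, u + H ≤ π.natDegree → qq k ^ u / qq k ^ π.natDegree ≤ 1 / qq k ^ H :=
    fun u h => by
      rw [div_le_div_iff₀ (by positivity) (by positivity), one_mul, ← pow_add]
      exact pow_le_pow_right₀ q1 h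
  have e0 := er 0 (by omega)
  have e1 := ((le_abs_self _).trans L).trans (er _ (by omega))
  rw [pow_zero] at e0
  have e2 : 2 / qq k ^ H = 1 / qq k ^ H + 1 / qq k ^ H := by ring
  rw [e, e2]
  exact (sub_le_iff_le_add.1 e1).trans (add_le_add le_rfl e0)

theorem sep_row (p : ℕ) [Fact p.Prime] [CharP k p] (h2 : p ≠ 2) : SEP_s k p := by
  intro γ ε hε
  have pp : p.Prime := Fact.out
  have hp3 : 3 ≤ p := by have := pp.two_le; omega
  have q2 : 2 ≤ qq k := two_le_qq
  have q0 : 0 < qq k := by linarith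
  obtain ⟨H, hH⟩ := pow_unbounded_of_one_lt (4 * ((p : ℝ) + 1) / ε) (by linarith : 1 < qq k)
  filter_upwards [(Nat.tendsto_div_const_atTop pp.ne_zero).eventually_ge_atTop
    (6 * H + 6 + 2 * p + p * γ + 2 * γ + 1)] with n hn y E y0 hy E0 hE
  have n2 : n < p * (n / p + 1) := Nat.lt_mul_div_succ _ pp.pos
  have n1 : p * (n / p) ≤ n := Nat.mul_div_le _ _
  generalize n / p = N at *
  have n3 : 3 * N ≤ p * N := Nat.mul_le_mul_right _ hp3
  have gy : p * y.natDegree ≤ p * γ := Nat.mul_le_mul_left _ hy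
  set S : Finset k[X] := {π ∈ (range (N + 1)).biUnion (prs k) | N ≤ 2 * π.natDegree ∧ π ∣ E} with hS
  have mS : ∀ π ∈ S, (π.Monic ∧ Irreducible π) ∧ π.natDegree ≤ N ∧ N ≤ 2 * π.natDegree ∧ π ∣ E := by
    intro π h
    obtain ⟨h1, h3⟩ := Finset.mem_filter.1 h
    obtain ⟨e, he, h1⟩ := Finset.mem_biUnion.1 h1
    obtain ⟨a, b, c⟩ := mem_prs.1 h1
    have := mem_range.1 he
    exact ⟨⟨a, b⟩, by omega, h3⟩
  have cS : #S ≤ 2 * (p + 1) := by
    have h1 := H4Lev.card_primes E E0 ((N + 1) / 2) S fun r hr =>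
      ⟨(mS r hr).1, by have := (mS r hr).2.2.1; omega, (mS r hr).2.2.2⟩
    refine Nat.le_of_mul_le_mul_right (h1.trans ?_) (show 0 < (N + 1) / 2 by omega)
    have h3 : (p + 1) * N ≤ (p + 1) * (2 * ((N + 1) / 2)) := Nat.mul_le_mul_left _ (by omega)
    have x1 : (p + 1) * (2 * ((N + 1) / 2)) = 2 * (p + 1) * ((N + 1) / 2) := by ring
    have x2 : (p + 1) * N = p * N + N := by ring
    have x3 : p * (N + 1) = p * N + p := by ring
    omega
  have pt : ∀ x ∈ mon k n, (if ∃ π : k[X], Irreducible π ∧ N ≤ 2 * π.natDegree ∧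
      π.natDegree ≤ N ∧ π ∣ derivative (x * y) ∧ π ∣ E then (1 : ℝ) else 0) ≤
      ∑ π ∈ S, if π ∣ derivative (x * y) then (1 : ℝ) else 0 := by
    intro x _
    have h0 : ∀ π ∈ S, (0 : ℝ) ≤ if π ∣ derivative (x * y) then 1 else 0 := fun _ _ => by
      positivity
    split_ifs with h
    · obtain ⟨π, a, b, c, d, e⟩ := h
      have as : Associated (normalize π) π := normalize_associated π
      have hd : (normalize π).natDegree = π.natDegree :=
        natDegree_eq_of_degree_eq (degree_eq_degree_of_associated as)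
      refine le_trans ?_ (Finset.single_le_sum h0 (a := normalize π) ?_)
      · rw [if_pos (as.dvd.trans d)]
      · exact Finset.mem_filter.2 ⟨Finset.mem_biUnion.2 ⟨π.natDegree, mem_range.2 (by omega),
          mem_prs.2 ⟨monic_normalize a.ne_zero, as.symm.irreducible a, hd⟩⟩, by omega,
          as.dvd.trans e⟩
    · exact Finset.sum_nonneg h0
  refine (expect_le_expect pt).trans ?_
  rw [expect_sum_comm]
  refine (Finset.sum_le_card_nsmul _ _ (2 / qq k ^ H) fun π h => ?_).trans ?_
  · obtain ⟨⟨a, b⟩, c, d, -⟩ := mS π h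
    exact sep_one p hp3 y0 a b (by omega) (by omega) (by omega)
  · have h1 : (#S : ℝ) ≤ 2 * (p + 1) := by exact_mod_cast cS
    rw [div_lt_iff₀ hε] at hH
    rw [nsmul_eq_mul, ← mul_div_assoc, div_le_iff₀ (by positivity)]
    linarith

end Pool.Agent.K60

end
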