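import Pool.Agent.MP_a4a062_nt.K60.Defs

/-! h60k: rows TAU and BAD. -/

set_option autoImplicit false

open Polynomial Finset Filter
open scoped Classical BigOperators

noncomputable section
namespace Pool.Agent.K60
open Pool.Agent.H4O

variable {k : Type} [Field k] [Fintype k]

theorem tau_eq {e e' : ℕ} {a b : k[X]} (ha : a ∈ prs k e) (hb : b ∈ prs k e') (h : a ∣ b) :
    a = b := by
  rw [mem_prs] at ha hb
  exact eq_of_monic_of_associated ha.1 hb.1 (ha.2.1.associated_of_dvd hb.2.1 h)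

theorem tau_cop {e e' : ℕ} {a b : k[X]} (ha : a ∈ prs k e) (hb : b ∈ prs k e') (h : a ≠ b) :
    IsCoprime a b :=
  ((mem_prs.1 ha).2.1.coprime_iff_not_dvd).2 fun d => h (tau_eq ha hb d)

theorem tau_prod (D l : ℕ) (u : k[X]) : tau D l u = ∏ i : Fin l, om1 (D + i) u := by
  unfold tau om1
  rw [← Fintype.card_piFinset]
  congr 1
  ext P
  simp only [mem_filter, tup, Fintype.mem_piFinset]
  constructor
  · rintro ⟨h, d⟩ i
    exact ⟨h i, (dvd_prod_of_mem P (mem_univ i)).trans d⟩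
  · intro h
    refine ⟨fun i => (h i).1, Fintype.prod_dvd_of_coprime (fun i j ij => ?_) fun i => (h i).2⟩
    refine tau_cop (h i).1 (h j).1 fun e => ij (Fin.ext ?_)
    have a := (mem_prs.1 (h i).1).2.2
    have b := (mem_prs.1 (h j).1).2.2
    rw [e] at a
    omega

theorem tau_ins {D l : ℕ} {P : Fin l → k[X]} (hP : P ∈ tup k D l) (f : k[X]) (i : Fin l) :
    {Q ∈ prs k (D + i) | Q ∣ (∏ i, P i) * f} = insert (P i) {Q ∈ prs k (D + i) | Q ∣ f} := by
  have h := Fintype.mem_piFinset.1 hP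
  ext Q
  simp only [mem_filter, mem_insert]
  constructor
  · rintro ⟨hQ, d⟩
    have hp := (mem_prs.1 hQ).2.1.prime
    rcases hp.dvd_or_dvd d with d | d
    · obtain ⟨j, -, d⟩ := (hp.dvd_finsetProd_iff _).1 d
      have e := tau_eq hQ (h j) d
      have a := (mem_prs.1 hQ).2.2
      have b := (mem_prs.1 (h j)).2.2
      rw [e] at a
      obtain rfl : j = i := Fin.ext (by omega)
      exact Or.inl e
    · exact Or.inr ⟨hQ, d⟩
  · rintro (rfl | ⟨hQ, d⟩)
    · exact ⟨h i, (dvd_prod_of_mem P (mem_univ i)).mul_right f⟩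
    · exact ⟨hQ, d.mul_left _⟩

theorem tau_row : TAU_s k := by
  intro D l P f hP
  rw [tau_prod, om, ← prod_pow_eq_pow_sum]
  refine ⟨prod_le_prod' fun i _ => ?_, fun h1 h2 => prod_congr rfl fun i _ => ?_⟩
  · unfold om1
    rw [tau_ins hP]
    exact (card_insert_le _ _).trans Nat.lt_two_pow_self
  · have := h2 i
    unfold om1 at this ⊢
    have hn : P i ∉ {Q ∈ prs k (D + i) | Q ∣ f} := fun h => h1 i (mem_filter.1 h).2
    rw [tau_ins hP, card_insert_of_notMem hn]
    generalize #{Q ∈ prs k (D + i) | Q ∣ f} = m at this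
    interval_cases m <;> rfl

theorem bad_dvd {n : ℕ} {M : k[X]} (hM : M ≠ 0) (hn : M.natDegree ≤ n) :
    𝔼 f ∈ mon k n, (if M ∣ f then (1 : ℝ) else 0) = 1 / qq k ^ M.natDegree := by
  rw [box_exp_mon, box_sum_mon, ← box_exp, ← exp_box_dvd hM hn isCoprime_one_left (X ^ n)]
  simp only [one_mul]

theorem bad_tel (D l : ℕ) (hD : 0 < D) :
    ∑ i ∈ range l, 4 / (((D + i : ℕ) : ℝ) * ((D + i : ℕ) + 1)) ≤ 4 / D - 4 / ((D + l : ℕ) : ℝ) := by
  have : (0 : ℝ) < D := by exact_mod_cast hD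
  induction l with
  | zero => simp
  | succ l ih =>
    rw [sum_range_succ]
    refine (add_le_add ih le_rfl).trans_eq ?_
    push_cast
    field_simp
    ring

theorem bad_two (e : ℕ) : e * (e + 1) ≤ 2 * 2 ^ e := by
  induction e with
  | zero => simp
  | succ e ih =>
    rcases Nat.lt_or_ge e 2 with h | h
    · interval_cases e <;> simp
    · have : (e + 1) * (e + 1 + 1) ≤ 2 * (e * (e + 1)) := by nlinarith
      rw [pow_succ]
      omega

theorem bad_row (hp : PRS_s k) : BAD_s k := by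
  intro D l n P hD hn hP
  have h := Fintype.mem_piFinset.1 hP
  have hq := two_le_qq (k := k)
  have pt : ∀ f : k[X],
      (if (∀ i, ¬ P i ∣ f) ∧ (∀ i : Fin l, om1 (D + i) f ≤ 1) then (0 : ℝ) else 1) ≤
        ∑ i : Fin l, ((if P i ∣ f then (1 : ℝ) else 0) +
          ∑ z ∈ (prs k (D + i)).offDiag, if z.1 * z.2 ∣ f then (1 : ℝ) else 0) := fun f => by
    have n1 : ∀ (c : Prop), (0 : ℝ) ≤ if c then 1 else 0 := fun c => by split_ifs <;> simp
    have n2 : ∀ i : Fin l, (0 : ℝ) ≤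
        ∑ z ∈ (prs k (D + i)).offDiag, if z.1 * z.2 ∣ f then (1 : ℝ) else 0 :=
      fun i => sum_nonneg fun _ _ => n1 _
    split_ifs with hc
    · exact sum_nonneg fun i _ => add_nonneg (n1 _) (n2 i)
    · have : ∃ i : Fin l, P i ∣ f ∨ 1 < om1 (D + i) f := by
        by_contra hh
        push Not at hh
        exact hc ⟨fun i => (hh i).1, fun i => (hh i).2⟩
      obtain ⟨i, hi⟩ := this
      refine le_trans ?_ (single_le_sum (fun i _ => add_nonneg (n1 _) (n2 i)) (mem_univ i))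
      rcases hi with hi | hi
      · rw [if_pos hi]
        linarith [n2 i]
      · obtain ⟨a, ha, b, hb, ab⟩ := one_lt_card.1 hi
        rw [mem_filter] at ha hb
        have := single_le_sum (f := fun z : k[X] × k[X] => if z.1 * z.2 ∣ f then (1 : ℝ) else 0)
          (fun _ _ => n1 _) (mem_offDiag.2 ⟨ha.1, hb.1, ab⟩ : (a, b) ∈ (prs k (D + i)).offDiag)
        rw [if_pos ((tau_cop ha.1 hb.1 ab).mul_dvd ha.2 hb.2)] at this
        linarith [n1 (P i ∣ f)]
  refine (expect_le_expect fun f _ => pt f).trans ?_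
  rw [expect_sum_comm]
  have one : ∀ i : Fin l, 𝔼 f ∈ mon k n, ((if P i ∣ f then (1 : ℝ) else 0) +
      ∑ z ∈ (prs k (D + i)).offDiag, if z.1 * z.2 ∣ f then (1 : ℝ) else 0) ≤
      4 / (((D + i : ℕ) : ℝ) * ((D + i : ℕ) + 1)) := fun i => by
    have hi := mem_prs.1 (h i)
    have il := i.2
    rw [expect_add_distrib, expect_sum_comm, bad_dvd hi.1.ne_zero (by omega), hi.2.2]
    rw [sum_congr rfl (g := fun _ => 1 / qq k ^ (2 * (D + i))) fun z hz => by
      obtain ⟨a, b, -⟩ := mem_offDiag.1 hz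
      rw [mem_prs] at a b
      have e : (z.1 * z.2).natDegree = 2 * (D + i) := by
        rw [a.1.natDegree_mul b.1, a.2.2, b.2.2, two_mul]
      rw [bad_dvd (a.1.mul b.1).ne_zero (by omega), e], sum_const, nsmul_eq_mul]
    have hc : (#(prs k (D + i)).offDiag : ℝ) ≤ (#(prs k (D + i)) : ℝ) * #(prs k (D + i)) := by
      rw [offDiag_card]
      exact_mod_cast Nat.sub_le _ _
    have h1 := hp (D + i)
    have h2 : (((D + i : ℕ) : ℝ)) * ((D + i : ℕ) + 1) ≤ 2 * 2 ^ (D + (i : ℕ)) := by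
      exact_mod_cast bad_two (D + i)
    have h3 : (2 : ℝ) ^ (D + (i : ℕ)) ≤ qq k ^ (D + (i : ℕ)) := pow_le_pow_left₀ (by norm_num) hq _
    have h4 : (1 : ℝ) ≤ ((D + i : ℕ) : ℝ) := by exact_mod_cast (by omega : 1 ≤ D + i)
    rw [two_mul (D + (i : ℕ)), pow_add (qq k) (D + (i : ℕ)) (D + (i : ℕ))]
    have h5 : (0 : ℝ) < qq k ^ (D + (i : ℕ)) := by positivity
    have h6 : (0 : ℝ) ≤ #(prs k (D + i)) := Nat.cast_nonneg _
    generalize (#(prs k (D + i)).offDiag : ℝ) = o at hc ⊢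
    generalize (#(prs k (D + i)) : ℝ) = c at hc h1 h6
    generalize qq k ^ (D + (i : ℕ)) = Q at h1 h3 h5 ⊢
    generalize ((D + i : ℕ) : ℝ) = e at h1 h2 h4 ⊢
    have a : 1 / Q ≤ 2 / (e * (e + 1)) := by
      rw [div_le_div_iff₀ h5 (by positivity)]
      linarith
    have b : o * (1 / (Q * Q)) ≤ 2 / (e * (e + 1)) := by
      rw [mul_one_div, div_le_div_iff₀ (by positivity) (by positivity)]
      have h7 : e * c * (e * c) ≤ Q * Q := mul_self_le_mul_self (by positivity) h1
      have h8 : o * (e * (e + 1)) ≤ c * c * (e * (e + 1)) :=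
        mul_le_mul_of_nonneg_right hc (by positivity)
      have h9 : c * c * (e * (e + 1)) ≤ c * c * (e * (e + e)) := by gcongr
      nlinarith
    have : 4 / (e * (e + 1)) = 2 / (e * (e + 1)) + 2 / (e * (e + 1)) := by ring
    linarith
  refine (sum_le_sum fun i _ => one i).trans ?_
  rw [Fin.sum_univ_eq_sum_range (fun i => 4 / (((D + i : ℕ) : ℝ) * ((D + i : ℕ) + 1))) l]
  refine (bad_tel D l hD).trans (sub_le_self _ (by positivity))

end Pool.Agent.K60
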