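import Pool.Agent.MP_a4a062_nt.K60.Defs4

set_option autoImplicit false

open Polynomial Finset Filter
open scoped Classical BigOperators

noncomputable section
namespace Pool.Agent.K60
open Pool.Agent.H4O

variable {k : Type} [Field k] [Fintype k]

theorem var_dvd {n : ℕ} {M : k[X]} (hM : M ≠ 0) (hn : M.natDegree ≤ n) :
    𝔼 f ∈ mon k n, (if M ∣ f then (1 : ℝ) else 0) = 1 / qq k ^ M.natDegree := by
  rw [← exp_box_dvd hM hn isCoprime_one_left (X ^ n), box_exp_mon, box_exp, box_sum_mon]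
  simp only [one_mul]

theorem var_abs {ι : Type} (s : Finset ι) (P : ι → k[X]) (n : ℕ)
    (hP : ∀ z ∈ s, (P z).Monic ∧ Irreducible (P z) ∧ 2 * (P z).natDegree ≤ n)
    (hinj : ∀ z ∈ s, ∀ z' ∈ s, P z = P z' → z = z') :
    𝔼 f ∈ mon k n, (∑ z ∈ s, ((if P z ∣ f then (1 : ℝ) else 0) - 1 / qq k ^ (P z).natDegree)) ^ 2 ≤
      ∑ z ∈ s, 1 / qq k ^ (P z).natDegree := by
  have h2 := two_le_qq (k := k)
  have one : ∀ z ∈ s, 𝔼 f ∈ mon k n, (if P z ∣ f then (1 : ℝ) else 0) =
      1 / qq k ^ (P z).natDegree := fun z hz =>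
    var_dvd (hP z hz).1.ne_zero (by have := (hP z hz).2.2; omega)
  have key : ∀ z ∈ s, ∀ z' ∈ s, 𝔼 f ∈ mon k n,
      ((if P z ∣ f then (1 : ℝ) else 0) - 1 / qq k ^ (P z).natDegree) *
        ((if P z' ∣ f then (1 : ℝ) else 0) - 1 / qq k ^ (P z').natDegree) =
      𝔼 f ∈ mon k n, ((if P z ∣ f then (1 : ℝ) else 0) * (if P z' ∣ f then (1 : ℝ) else 0)) -
        1 / qq k ^ (P z).natDegree * (1 / qq k ^ (P z').natDegree) := by
    intro z hz z' hz'
    have e : ∀ f : k[X], ((if P z ∣ f then (1 : ℝ) else 0) - 1 / qq k ^ (P z).natDegree) *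
        ((if P z' ∣ f then (1 : ℝ) else 0) - 1 / qq k ^ (P z').natDegree) =
        (if P z ∣ f then (1 : ℝ) else 0) * (if P z' ∣ f then (1 : ℝ) else 0) -
          1 / qq k ^ (P z').natDegree * (if P z ∣ f then (1 : ℝ) else 0) -
          1 / qq k ^ (P z).natDegree * (if P z' ∣ f then (1 : ℝ) else 0) +
          1 / qq k ^ (P z).natDegree * (1 / qq k ^ (P z').natDegree) := fun f => by ring
    simp only [e]
    rw [Finset.expect_add_distrib, Finset.expect_sub_distrib, Finset.expect_sub_distrib,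
      ← Finset.mul_expect, ← Finset.mul_expect, one z hz, one z' hz',
      Finset.expect_const (mon_nonempty n)]
    ring
  simp only [sq, Finset.sum_mul_sum]
  rw [Finset.expect_sum_comm]
  refine Finset.sum_le_sum fun z hz => ?_
  rw [Finset.expect_sum_comm, Finset.sum_eq_single_of_mem z hz]
  · rw [key z hz z hz]
    have e : ∀ f : k[X], (if P z ∣ f then (1 : ℝ) else 0) * (if P z ∣ f then (1 : ℝ) else 0) =
        (if P z ∣ f then (1 : ℝ) else 0) := fun f => by split_ifs <;> simp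
    simp only [e]
    rw [one z hz]
    exact sub_le_self _ (by positivity)
  · intro z' hz' hne
    rw [key z hz z' hz']
    obtain ⟨a1, a2, a3⟩ := hP z hz
    obtain ⟨b1, b2, b3⟩ := hP z' hz'
    have hc : IsCoprime (P z) (P z') := by
      refine a2.coprime_iff_not_dvd.2 fun h => hne (hinj z' hz' z hz ?_)
      exact (Polynomial.eq_of_monic_of_associated a1 b1 (a2.associated_of_dvd b2 h)).symm
    have e : ∀ f : k[X], (if P z ∣ f then (1 : ℝ) else 0) * (if P z' ∣ f then (1 : ℝ) else 0) =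
        (if P z * P z' ∣ f then (1 : ℝ) else 0) := fun f => by
      by_cases h1 : P z ∣ f
      · by_cases h3 : P z' ∣ f
        · rw [if_pos h1, if_pos h3, if_pos (hc.mul_dvd h1 h3), one_mul]
        · rw [if_neg h3, if_neg fun h => h3 (dvd_of_mul_left_dvd h), mul_zero]
      · rw [if_neg h1, if_neg fun h => h1 (dvd_of_mul_right_dvd h), zero_mul]
    simp only [e]
    rw [var_dvd (a1.mul b1).ne_zero (by rw [a1.natDegree_mul b1]; omega), a1.natDegree_mul b1,
      pow_add, one_div_mul_one_div, sub_self]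

theorem var_row : VAR_s k := by
  intro D l n hn
  let s : Finset (Σ _ : Fin l, k[X]) := univ.sigma fun i => prs k (D + i)
  have hs : ∀ z ∈ s, z.2.Monic ∧ Irreducible z.2 ∧ z.2.natDegree = D + z.1 := fun z hz =>
    mem_prs.1 (Finset.mem_sigma.1 hz).2
  have h := var_abs s (fun z => z.2) n
    (fun z hz => ⟨(hs z hz).1, (hs z hz).2.1, by
      have := z.1.2
      rw [(hs z hz).2.2]
      omega⟩)
    (fun z hz z' hz' e => by
      have e1 := (hs z hz).2.2
      have e2 := (hs z' hz').2.2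
      have e3 : z.2 = z'.2 := e
      have e4 : z.1 = z'.1 := Fin.ext (by rw [e3, e2] at e1; omega)
      exact Sigma.ext e4 (heq_of_eq e3))
  have hL : ∑ z ∈ s, 1 / qq k ^ z.2.natDegree = Lam k D l := by
    rw [Finset.sum_sigma]
    refine Finset.sum_congr rfl fun i _ => ?_
    rw [Finset.sum_congr rfl (g := fun _ => 1 / qq k ^ (D + (i : ℕ)))
      (fun Q hQ => by rw [(mem_prs.1 hQ).2.2]), Finset.sum_const, nsmul_eq_mul, mul_one_div]
  have hO : ∀ f : k[X], ∑ z ∈ s, (if z.2 ∣ f then (1 : ℝ) else 0) = (om D l f : ℝ) := by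
    intro f
    rw [Finset.sum_sigma, om, Nat.cast_sum]
    refine Finset.sum_congr rfl fun i _ => ?_
    rw [om1, Finset.card_filter, Nat.cast_sum]
    refine Finset.sum_congr rfl fun Q _ => ?_
    split_ifs <;> simp
  simp only [Finset.sum_sub_distrib, hL, hO] at h
  exact h

theorem typ_lam (D : ℕ) (hD : 0 < D) (B : ℝ) : ∃ l : ℕ, B ≤ Lam k D l := by
  have h2 := two_le_qq (k := k)
  have hD' : (1 : ℝ) ≤ D := by exact_mod_cast hD
  obtain ⟨l, hl⟩ := (Real.tendsto_sum_range_one_div_nat_succ_atTop.eventually_ge_atTop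
    (2 * D * B)).exists
  refine ⟨l, ?_⟩
  have h1 : ∑ i ∈ range l, (1 / ((i : ℝ) + 1)) ≤ 2 * D * Lam k D l := by
    rw [Lam, Finset.mul_sum, Finset.sum_range]
    refine Finset.sum_le_sum fun i _ => ?_
    have h3 := card_prs (k := k) (e := D + i) (by omega)
    have h4 : (0 : ℝ) ≤ (i : ℕ) := Nat.cast_nonneg _
    have h5 : (0 : ℝ) ≤ #(prs k (D + i)) := Nat.cast_nonneg _
    have h6 : ((D + (i : ℕ) : ℕ) : ℝ) ≤ D * ((i : ℕ) + 1) := by
      push_cast
      nlinarith
    rw [← mul_div_assoc, div_le_div_iff₀ (by positivity) (by positivity), one_mul]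
    refine h3.trans ?_
    nlinarith [mul_le_mul_of_nonneg_right h6 h5]
  exact le_of_mul_le_mul_left (hl.trans h1) (by positivity)

theorem typ2_row (hT : TAU_s k) (hV : VAR_s k) (hB : BAD_s k) : TYP2_s k := by
  intro K R D₀ η hη
  obtain ⟨D0, hD0⟩ := exists_nat_ge (8 / η)
  let D := D0 + D₀ + 1
  have hD : 0 < D := Nat.succ_pos _
  have hDr : (0 : ℝ) < D := by exact_mod_cast hD
  have hD4 : 4 / (D : ℝ) ≤ η / 2 := by
    rw [div_le_iff₀ hη] at hD0
    rw [div_le_iff₀ hDr]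
    have : (D : ℝ) = D0 + D₀ + 1 := by simp [D]
    have h0 : (0 : ℝ) ≤ D₀ := Nat.cast_nonneg _
    rw [this]
    nlinarith
  have hK : (0 : ℝ) ≤ K := Nat.cast_nonneg _
  have hR : (0 : ℝ) ≤ R := Nat.cast_nonneg _
  obtain ⟨l, hl⟩ := typ_lam (k := k) D hD
    (32 * ((K : ℝ) + 1) ^ 2 / η + 2 * ((K : ℝ) + 1) * (K + R))
  obtain ⟨s, hs⟩ : ∃ s : ℝ, Lam k D l = 4 * ((K : ℝ) + 1) * s :=
    ⟨Lam k D l / (4 * ((K : ℝ) + 1)), by field_simp⟩
  have a1 : 0 < 32 * ((K : ℝ) + 1) ^ 2 / η := by positivity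
  have a2 : 0 ≤ 2 * ((K : ℝ) + 1) * (K + R) := by positivity
  have s0 : 0 < s := by
    have : 0 < 4 * ((K : ℝ) + 1) * s := by rw [← hs]; linarith
    exact (mul_pos_iff_of_pos_left (by positivity)).1 this
  have s1 : (K : ℝ) + R ≤ 2 * s := by
    have : 2 * ((K : ℝ) + 1) * (K + R) ≤ 2 * ((K : ℝ) + 1) * (2 * s) := by linarith
    exact le_of_mul_le_mul_left this (by positivity)
  have s2 : Lam k D l / s ^ 2 ≤ η / 2 := by
    have h1 : 32 * ((K : ℝ) + 1) ^ 2 / η ≤ 4 * ((K : ℝ) + 1) * s := by linarith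
    rw [div_le_iff₀ hη] at h1
    have h3 : 8 * ((K : ℝ) + 1) ≤ s * η := by
      have : 4 * ((K : ℝ) + 1) * (8 * ((K : ℝ) + 1)) ≤ 4 * ((K : ℝ) + 1) * (s * η) := by linarith
      exact le_of_mul_le_mul_left this (by positivity)
    rw [hs, div_le_iff₀ (by positivity)]
    nlinarith
  let m : ℕ := ⌈(Lam k D l + s) / ((K : ℝ) + 1)⌉₊
  have m1 : Lam k D l + s ≤ ((K : ℝ) + 1) * m := by
    have := Nat.le_ceil ((Lam k D l + s) / ((K : ℝ) + 1))
    rw [div_le_iff₀ (by positivity)] at this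
    linarith
  have m2 : (K : ℝ) * m + R ≤ Lam k D l - s := by
    have h1 : (m : ℝ) < (Lam k D l + s) / ((K : ℝ) + 1) + 1 :=
      Nat.ceil_lt_add_one (by rw [hs]; positivity)
    have h3 : (Lam k D l + s) / ((K : ℝ) + 1) = 4 * s + s / ((K : ℝ) + 1) := by
      rw [hs]
      field_simp
    have h4 : (K : ℝ) * (s / ((K : ℝ) + 1)) ≤ s := by
      rw [← mul_div_assoc, div_le_iff₀ (by positivity)]
      nlinarith
    have h5 : (K : ℝ) * m ≤ K * (4 * s + s / ((K : ℝ) + 1) + 1) :=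
      mul_le_mul_of_nonneg_left (by linarith) hK
    rw [hs]
    nlinarith
  refine ⟨D, l, m, by omega, (eventually_ge_atTop (2 * (D + l))).mono fun n hn P hP => ?_⟩
  have hpt : ∀ f ∈ mon k n, (if 2 ^ (K * m + R) ≤ tau D l ((∏ i, P i) * f) ∧
      tau D l ((∏ i, P i) * f) ≤ 2 ^ ((K + 1) * m) then (0 : ℝ) else 1) ≤
      (if (∀ i, ¬ P i ∣ f) ∧ (∀ i : Fin l, om1 (D + i) f ≤ 1) then (0 : ℝ) else 1) +
        ((om D l f : ℝ) - Lam k D l) ^ 2 / s ^ 2 := by
    intro f _
    have z0 : 0 ≤ ((om D l f : ℝ) - Lam k D l) ^ 2 / s ^ 2 := by positivity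
    by_cases hg : (∀ i, ¬ P i ∣ f) ∧ (∀ i : Fin l, om1 (D + i) f ≤ 1)
    · rw [if_pos hg, zero_add]
      split_ifs with h
      · exact z0
      · rw [le_div_iff₀ (by positivity), one_mul]
        by_contra hlt
        have habs := abs_lt_of_sq_lt_sq' (not_le.1 hlt) s0.le
        apply h
        rw [(hT D l P f hP).2 hg.1 hg.2]
        constructor
        · refine Nat.pow_le_pow_right (by norm_num) ?_
          have : ((K * m + R : ℕ) : ℝ) ≤ om D l f := by
            push_cast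
            linarith [habs.1]
          exact_mod_cast this
        · refine Nat.pow_le_pow_right (by norm_num) ?_
          have : (om D l f : ℝ) ≤ (((K + 1) * m : ℕ) : ℝ) := by
            push_cast
            linarith [habs.2]
          exact_mod_cast this
    · rw [if_neg hg]
      split_ifs <;> linarith
  refine (Finset.expect_le_expect hpt).trans ?_
  rw [Finset.expect_add_distrib, ← Finset.expect_div]
  have b1 := hB D l n P hD hn hP
  have b2 := div_le_div_of_nonneg_right (hV D l n hn) (sq_nonneg s)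
  linarith

end Pool.Agent.K60

end
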