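import Pool.Agent.MP_a4a062_nt.K60.Defs3

/-! h60k row WTU: the weights on fully smooth lines, many directions. -/

set_option autoImplicit false

open Polynomial Finset Filter
open scoped Classical BigOperators

noncomputable section
namespace Pool.Agent.K60
open Pool.Agent.H4O

variable {k : Type} [Field k] [Fintype k]

omit [Fintype k] in
theorem wtu_der (p : ℕ) [Fact p.Prime] [CharP k p] {c Z t : k[X]} (hZ : Z ≠ 0)
    (h : derivative (t * ((c ^ p - X) * Z ^ p)) = 0) : derivative t * (c ^ p - X) = t := by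
  have h1 : derivative (Z ^ p) = 0 := by rw [derivative_pow]; simp
  have h2 : derivative (c ^ p) = 0 := by rw [derivative_pow]; simp
  have e : derivative (t * ((c ^ p - X) * Z ^ p)) = (derivative t * (c ^ p - X) - t) * Z ^ p := by
    rw [derivative_mul, derivative_mul, derivative_sub, h1, h2, derivative_X]
    ring
  rw [e] at h
  exact sub_eq_zero.1 ((mul_eq_zero.1 h).resolve_right (pow_ne_zero _ hZ))

theorem wtu_row (p : ℕ) [Fact p.Prime] [CharP k p] (h2 : p ≠ 2) (hP : POS2_s k p) :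
    WTU_s k p := by
  have hpp : p.Prime := Fact.out
  have hp2 : 2 ≤ p := hpp.two_le
  have hev : Even (p - 1) := hpp.even_sub_one h2
  obtain ⟨L, δ0, hL, hδ0, hpos⟩ := hP
  set δ := min δ0 1 with hδd
  have hδ : 0 < δ := lt_min hδ0 one_pos
  have hδ1 : δ ≤ 1 := min_le_right _ _
  refine ⟨L, 1 / δ, hL, by positivity, fun Z J₀ ε hZ hε => ?_⟩
  obtain ⟨M0, hJ, hM0⟩ : ∃ M0 : ℕ, J₀ ≤ M0 ∧ ((p - 1 : ℕ) : ℝ) / (ε * δ) ^ 2 ≤ M0 := by
    obtain ⟨M1, hM1⟩ := exists_nat_ge (((p - 1 : ℕ) : ℝ) / (ε * δ) ^ 2)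
    exact ⟨M1 + J₀, Nat.le_add_left _ _, hM1.trans (by exact_mod_cast Nat.le_add_right _ _)⟩
  let c : Fin (M0 + 1) → k[X] := fun j => X ^ ((j : ℕ) + 1)
  have hc : Function.Injective c := fun i j h => by
    have := congrArg natDegree h
    simp only [c, natDegree_X_pow] at this
    exact Fin.ext (by omega)
  obtain ⟨e0, he0, C0, hv0⟩ := vand p c hc
  obtain ⟨e, hee⟩ : ∃ e : k[X], e = e0 * Z ^ (p - 1) := ⟨_, rfl⟩
  have he : e ≠ 0 := by rw [hee]; exact mul_ne_zero he0 (pow_ne_zero _ hZ.ne_zero)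
  obtain ⟨y, hyy⟩ : ∃ y : Fin (M0 + 1) → k[X], ∀ j, y j = (c j ^ p - X) * Z ^ p := ⟨_, fun _ => rfl⟩
  have hv : ∀ S : Finset (Fin (M0 + 1)), #S = p → ∀ (N : ℕ) (v : k[X]),
      v.degree < (p * N : ℕ) → ∃ s : Fin (M0 + 1) → k[X], (∀ j, (s j).degree < (N + C0 : ℕ)) ∧
        e ^ p * v = ∑ j ∈ S, y j ^ (p - 1) * s j ^ p := by
    intro S hS N v hv
    obtain ⟨s, hs, h⟩ := hv0 S hS N v hv
    refine ⟨s, hs, ?_⟩
    rw [hee, mul_pow, mul_right_comm, h, Finset.sum_mul]
    refine Finset.sum_congr rfl fun j _ => ?_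
    rw [hyy, ← neg_sub (c j ^ p) X, hev.neg_pow, mul_pow, ← pow_mul, ← pow_mul, mul_comm (p - 1) p]
    ring
  obtain ⟨γ, hγ⟩ : ∃ γ : ℕ, γ = (M0 + 1) * p + e0.natDegree + p * Z.natDegree := ⟨_, rfl⟩
  have hkill : ∀ t : k[X], t ≠ 0 → ∀ i j, derivative (t * y i) = 0 → derivative (t * y j) = 0 →
      i = j := by
    intro t ht i j hi hj
    rw [hyy] at hi hj
    have h1 := wtu_der p hZ.ne_zero hi
    have h3 := wtu_der p hZ.ne_zero hj
    have h0 : derivative t ≠ 0 := fun h => ht (by rw [← h1, h, zero_mul])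
    have h4 : c i ^ p = c j ^ p := sub_left_inj.1 (mul_left_cancel₀ h0 (h1.trans h3.symm))
    have h5 := congrArg natDegree h4
    simp only [c, ← pow_mul, natDegree_X_pow] at h5
    exact Fin.ext (by have := Nat.eq_of_mul_eq_mul_right hpp.pos h5; omega)
  have hy : ∀ j, (y j).Monic ∧ (y j).natDegree ≤ γ ∧ Z ∣ y j := by
    intro j
    have hj := j.2
    have h0 : ((j : ℕ) + 1) * 2 ≤ ((j : ℕ) + 1) * p := Nat.mul_le_mul_left _ hp2
    have h1 : 1 < ((j : ℕ) + 1) * p := by omega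
    have h3 : ((j : ℕ) + 1) * p ≤ (M0 + 1) * p := Nat.mul_le_mul_right _ (by omega)
    have e1 : c j ^ p - X = X ^ (((j : ℕ) + 1) * p) - X := by simp only [c, ← pow_mul]
    have hm : (c j ^ p - X).Monic := by
      rw [e1]
      exact monic_X_pow_sub (by rw [degree_X]; exact_mod_cast h1)
    have hd : (c j ^ p - X).natDegree = ((j : ℕ) + 1) * p := by
      rw [e1, natDegree_sub_eq_left_of_natDegree_lt (by rw [natDegree_X_pow, natDegree_X]; exact h1),
        natDegree_X_pow]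
    rw [hyy]
    refine ⟨hm.mul (hZ.pow _), ?_, Dvd.dvd.mul_left (dvd_pow_self Z hpp.pos.ne') _⟩
    refine natDegree_mul_le.trans ?_
    have := natDegree_pow_le (p := Z) (n := p)
    omega
  have heγ : e.natDegree ≤ γ := by
    rw [hee]
    refine natDegree_mul_le.trans ?_
    have h1 := natDegree_pow_le (p := Z) (n := p - 1)
    have h3 : (p - 1) * Z.natDegree ≤ p * Z.natDegree := Nat.mul_le_mul_right _ (by omega)
    omega
  refine ⟨M0 + 1, γ, y, Nat.lt_succ_of_le hJ, hy, hkill, ?_⟩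
  have hev2 : ∀ᶠ n : ℕ in atTop, γ + C0 < n / p := by
    filter_upwards [eventually_ge_atTop ((γ + C0 + 1) * p)] with n hn
    exact (Nat.le_div_iff_mul_le hpp.pos).2 hn
  filter_upwards [hpos γ (γ + C0), hev2] with n hn hbig
  set N := n / p - (γ + C0) with hN
  let G : Fin (M0 + 1) → k[X] → ℝ := fun j f =>
    if Good2 (n / p) (n / p / L) (derivative (f * y j)) then 1 else 0
  let m : Fin (M0 + 1) → k[X] → ℝ := fun j f => 𝔼 v ∈ box k (p * N), G j (f + e ^ p * v)
  have hG0 : ∀ j f, 0 ≤ G j f := fun j f => by simp only [G]; split_ifs <;> norm_num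
  have hG1 : ∀ j f, G j f ≤ 1 := fun j f => by simp only [G]; split_ifs <;> norm_num
  have hm : ∀ j, ∀ f ∈ mon k n, δ ≤ m j f := fun j f hf =>
    (min_le_left _ _).trans (hn (y j) e f (hy j).1.ne_zero (hy j).2.1 he heγ hf)
  have hGs : ∀ j f s, G j (f + y j ^ (p - 1) * s ^ p) = G j f := fun j f s => by
    simp only [G, wt_der]
  have hms : ∀ j f s, m j (f + y j ^ (p - 1) * s ^ p) = m j f := fun j f s => by
    simp only [m]
    refine Finset.expect_congr rfl fun v _ => ?_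
    rw [add_right_comm, hGs]
  have hml : ∀ j f, ∀ v0 ∈ box k (p * N), m j (f + e ^ p * v0) = m j f := fun j f v0 hv0 => by
    simp only [m]
    rw [← exp_box_shift (mem_box.1 hv0) fun v => G j (f + e ^ p * v)]
    refine Finset.expect_congr rfl fun v _ => ?_
    congr 1
    ring
  have hq0 : ∀ j, ∀ f ∈ mon k n, 0 ≤ G j f / m j f := fun j f hf =>
    div_nonneg (hG0 j f) (hδ.le.trans (hm j f hf))
  have hq1 : ∀ j, ∀ f ∈ mon k n, G j f / m j f ≤ 1 / δ := fun j f hf =>
    div_le_div₀ zero_le_one (hG1 j f) hδ (hm j f hf)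
  have hX : ∀ x ∈ box k n, X ^ n + x ∈ mon k n := fun x hx => mem_image.2 ⟨x, hx, rfl⟩
  refine ⟨fun j f => if f ∈ mon k n then δ * (G j f / m j f) else 0, fun j f => ?_,
    fun j => ⟨fun f hf s hs => ?_, fun f hf h => ?_⟩, ?_⟩
  · beta_reduce
    split_ifs with hf
    · rw [abs_of_nonneg (mul_nonneg hδ.le (hq0 j f hf))]
      have := mul_le_mul_of_nonneg_left (hq1 j f hf) hδ.le
      rwa [mul_one_div_cancel hδ.ne'] at this
    · simp
  · beta_reduce
    rw [if_pos hf, if_pos (wt_mon hf (wt_line (hy j).2.1 (by omega) hs)), hGs, hms]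
  · by_contra hg
    apply h
    simp only [G, if_pos hf, if_neg hg, zero_div, mul_zero]
  have hinj : Set.InjOn (fun v : k[X] => e ^ p * v) (box k (p * N)) := fun a _ b _ h =>
    mul_left_cancel₀ (pow_ne_zero _ he) h
  have key := lln_one (ι := Fin (M0 + 1)) (box k n) (mem_box.2 (by simp))
    (fun a ha b hb => mem_box.2 ((degree_sub_le _ _).trans_lt (max_lt (mem_box.1 ha) (mem_box.1 hb))))
    (p - 1) (fun j => {u | ∃ s ∈ box k (n / p - γ), u = y j ^ (p - 1) * s ^ p})
    (by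
      rintro j u ⟨s, hs, rfl⟩
      exact mem_box.2 (wt_line (hy j).2.1 (by omega) hs))
    ((box k (p * N)).image fun v => e ^ p * v)
    (fun l hl => by
      obtain ⟨v, hv, rfl⟩ := mem_image.1 hl
      exact mem_box.2 (wt_lat heγ (Nat.le_add_right γ C0) hbig hv))
    ((box_nonempty _).image _) (fun j x => G j (X ^ n + x) / m j (X ^ n + x)) hδ hδ1
    (fun j x hx => hq0 j _ (hX x hx)) (fun j x hx => hq1 j _ (hX x hx))
    (by
      rintro j u ⟨s, -, rfl⟩ x -
      simp only [← add_assoc, hGs, hms])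
    (fun j x hx => by
      rw [Finset.expect_image hinj, Finset.expect_congr rfl fun v hv =>
        (show G j (X ^ n + (x + e ^ p * v)) / m j (X ^ n + (x + e ^ p * v)) =
          G j (X ^ n + x + e ^ p * v) / m j (X ^ n + x) by rw [← add_assoc, hml j _ v hv]),
        ← Finset.expect_div]
      exact div_self (hδ.trans_le (hm j _ (hX x hx))).ne')
    (fun S hS l hl => by
      obtain ⟨v, hv0, rfl⟩ := mem_image.1 hl
      obtain ⟨s, hs, h⟩ := hv S (by omega) N v (mem_box.1 hv0)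
      refine ⟨fun j => y j ^ (p - 1) * s j ^ p, fun j => ⟨s j, mem_box.2 ?_, rfl⟩, ?_⟩
      · rw [show n / p - γ = N + C0 by omega]; exact hs j
      · exact h)
  have e1 : 𝔼 f ∈ mon k n, |1 - 1 / δ * (∑ j, if f ∈ mon k n then δ * (G j f / m j f) else 0) /
      ((M0 + 1 : ℕ) : ℝ)| = 𝔼 x ∈ box k n, |1 - 𝔼 j, G j (X ^ n + x) / m j (X ^ n + x)| := by
    rw [box_exp_mon, box_sum_mon, box_exp]
    congr 1
    refine Finset.sum_congr rfl fun x hx => ?_
    simp only [if_pos (hX x hx)]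
    rw [← Finset.mul_sum, ← mul_assoc, one_div_mul_cancel hδ.ne', one_mul,
      Finset.expect_eq_sum_div_card, card_univ, Fintype.card_fin]
  rw [e1]
  refine key.trans ?_
  rw [div_le_iff₀ hδ, Fintype.card_fin]
  refine Real.sqrt_le_iff.2 ⟨by positivity, ?_⟩
  rw [div_le_iff₀ (by positivity)] at hM0 ⊢
  have : (0 : ℝ) < (ε * δ) ^ 2 := by positivity
  push_cast
  nlinarith

end Pool.Agent.K60

end
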