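import Pool.Agent.MP_a4a062_nt.K60.EXP
import Pool.Agent.MP_a4a062_nt.K60.POS2
import Pool.Agent.MP_a4a062_nt.K60.WTU
import Pool.Agent.MP_a4a062_nt.K60.CNT
import Pool.Agent.MP_a4a062_nt.K60.INTU1
import Pool.Agent.MP_a4a062_nt.K60.INTU2
import Pool.Agent.MP_a4a062_nt.K60.INDU
import Pool.Agent.MP_a4a062_nt.K60.SEP
import Pool.Agent.MP_a4a062_nt.K60.LINEU
import Pool.Agent.MP_a4a062_nt.K60.LB2
import Pool.Agent.MP_a4a062_nt.K60.LOCU
import Pool.Agent.MP_a4a062_nt.K60.LOCV
import Pool.Agent.MP_a4a062_nt.K60.TAU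
import Pool.Agent.MP_a4a062_nt.K60.FAM
import Pool.Agent.MP_a4a062_nt.K60.TYP2
import Pool.Agent.MP_a4a062_nt.K60.GEN
import Pool.Agent.MP_a4a062_nt.K60.DEC
import Pool.Agent.MP_a4a062_nt.K60.ELL
import Pool.Agent.MP_a4a062_nt.K60.FINE

/-! h60k: the rows put together. -/

set_option autoImplicit false

open Polynomial

noncomputable section
namespace Pool.Agent.K60

theorem intu_all (k : Type) [Field k] [Fintype k] : INTU_s k := by
  obtain ⟨p, hp⟩ := CharP.exists k
  have : Fact p.Prime := ⟨CharP.char_is_prime k p⟩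
  by_cases h2 : p = 2
  · subst h2
    exact intu_two
  · exact intu_odd p (wtu_row p h2 (pos2_row p h2 prs_row fam_row cnt_row))
      (indu_row p h2 (lineu_row p h2 (lb2_row p h2)) (sep_row p h2))

theorem gen_all (k : Type) [Field k] [Fintype k] : GEN_s k :=
  gen_row (intu_all k) (typ2_row tau_row var_row (bad_row prs_row))
    (locv_row (locu_row (abs_row col_row exp_row)))

theorem ell_all (k : Type) [Field k] [Fintype k] : ELL_s k := ell_row (gen_all k) dec_row

end Pool.Agent.K60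

end
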